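import Pool.Agent.HSP.Defs

set_option autoImplicit false

namespace HSP

/-- (copy of HK.sum_log_le) PROOF. The prime powers are pairwise coprime, so their product divides `z`. -/
theorem sum_log_le (S : Finset ℕ) (hS : ∀ p ∈ S, p.Prime) (E : ℕ → ℕ) (z : ℤ) (hz : z ≠ 0)
    (h : ∀ p ∈ S, (p : ℤ) ^ E p ∣ z) : ∑ p ∈ S, (E p : ℝ) * Real.log p ≤ Real.log |(z : ℝ)| := by
  have h1 : (∏ p ∈ S, (p : ℤ) ^ E p) ∣ z := by
    apply Finset.prod_dvd_of_coprime
    · intro p hp q hq hpq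
      show IsCoprime ((p : ℤ) ^ E p) ((q : ℤ) ^ E q)
      apply IsCoprime.pow
      rw [Nat.isCoprime_iff_coprime]
      exact (Nat.coprime_primes (hS p hp) (hS q hq)).2 hpq
    · exact h
  have h2 := Int.le_of_dvd (abs_pos.2 hz) ((dvd_abs _ _).2 h1)
  have h3 : (∏ p ∈ S, (p : ℝ) ^ E p) ≤ |(z : ℝ)| := by
    have : ((∏ p ∈ S, (p : ℤ) ^ E p : ℤ) : ℝ) ≤ ((|z| : ℤ) : ℝ) := by exact_mod_cast h2
    push_cast at this
    exact this
  have hpos : ∀ p ∈ S, (0 : ℝ) < (p : ℝ) ^ E p := by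
    intro p hp
    have : (0 : ℝ) < p := by exact_mod_cast (hS p hp).pos
    positivity
  have h4 : Real.log (∏ p ∈ S, (p : ℝ) ^ E p) = ∑ p ∈ S, (E p : ℝ) * Real.log p := by
    rw [Real.log_prod (fun p hp => (hpos p hp).ne')]
    refine Finset.sum_congr rfl fun p _ => ?_
    rw [Real.log_pow]
  rw [← h4]
  exact Real.log_le_log (Finset.prod_pos hpos) h3

/-- [HSP-A1a] for two members `n ≠ n'` the weights of the primes with `j p n = j p n'` sum up to at most `X`.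
PROOF. Put `E p = ⌈w p⌉₊`. For `p` in the filtered set both exponents of `hdiv` are `≥ E p`, so `p ^ E p ∣ (n - j p n) - (n' - j p n') = n - n'`. `sum_log_le` with
`z = n - n'`, and `|n - n'| ≤ max n n'`, `log (max n n') ≤ X`; `w p ≤ E p`, `log p ≥ 0`. -/
theorem pair_le (S : Finset ℕ) (hS : ∀ p ∈ S, p.Prime) (j : ℕ → ℕ → ℕ) (w : ℕ → ℝ) (n n' : ℕ) (hn : n ≠ n')
    (hdiv : ∀ p ∈ S, ∃ e : ℕ, w p ≤ e ∧ (p : ℤ) ^ e ∣ (n : ℤ) - j p n)
    (hdiv' : ∀ p ∈ S, ∃ e : ℕ, w p ≤ e ∧ (p : ℤ) ^ e ∣ (n' : ℤ) - j p n')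
    (X : ℝ) (hX : Real.log n ≤ X) (hX' : Real.log n' ≤ X) :
    ∑ p ∈ S.filter (fun p => j p n = j p n'), w p * Real.log p ≤ X := by
  classical
  have hz : ((n : ℤ) - n') ≠ 0 := by
    intro h
    exact hn (by exact_mod_cast (sub_eq_zero.mp h))
  have h1 : ∀ p ∈ S.filter (fun p => j p n = j p n'), (p : ℤ) ^ ⌈w p⌉₊ ∣ ((n : ℤ) - n') := by
    intro p hp
    obtain ⟨hpS, hpj⟩ := Finset.mem_filter.mp hp
    obtain ⟨e, he, hd⟩ := hdiv p hpS
    obtain ⟨e', he', hd'⟩ := hdiv' p hpS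
    have a1 : (p : ℤ) ^ ⌈w p⌉₊ ∣ (n : ℤ) - j p n := (pow_dvd_pow _ (Nat.ceil_le.mpr he)).trans hd
    have a2 : (p : ℤ) ^ ⌈w p⌉₊ ∣ (n' : ℤ) - j p n' := (pow_dvd_pow _ (Nat.ceil_le.mpr he')).trans hd'
    have a3 := dvd_sub a1 a2
    rw [hpj] at a3
    have a4 : ((n : ℤ) - j p n') - ((n' : ℤ) - j p n') = (n : ℤ) - n' := by ring
    rwa [a4] at a3
  have h2 := sum_log_le (S.filter (fun p => j p n = j p n'))
    (fun p hp => hS p (Finset.mem_filter.mp hp).1) (fun p => ⌈w p⌉₊) ((n : ℤ) - n') hz h1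
  have h3 : ∑ p ∈ S.filter (fun p => j p n = j p n'), w p * Real.log p ≤
      ∑ p ∈ S.filter (fun p => j p n = j p n'), ((⌈w p⌉₊ : ℕ) : ℝ) * Real.log p := by
    refine Finset.sum_le_sum fun p _ => ?_
    exact mul_le_mul_of_nonneg_right (Nat.le_ceil _) (Real.log_natCast_nonneg p)
  refine h3.trans (h2.trans ?_)
  push_cast
  rcases lt_or_gt_of_ne hn with h | h
  · have c : (n : ℝ) < n' := by exact_mod_cast h
    have c0 : (0 : ℝ) ≤ n := Nat.cast_nonneg n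
    rw [abs_of_neg (by linarith)]
    refine le_trans (Real.log_le_log (by linarith) (by linarith)) hX'
  · have c : (n' : ℝ) < n := by exact_mod_cast h
    have c0 : (0 : ℝ) ≤ n' := Nat.cast_nonneg n'
    rw [abs_of_pos (by linarith)]
    refine le_trans (Real.log_le_log (by linarith) (by linarith)) hX

/-- [HSP-A1b] Cauchy-Schwarz: a function `f : T → {0, ..., d-1}` has at least `r²/d - r` ordered pairs of different elements with the same value.
PROOF. Fibres `T_c = {n ∈ T | f n = c}`, `c < d`, `∑ |T_c| = r`, `∑ |T_c|² ≥ r²/d` (`sq_sum_le_card_mul_sum_sq` or `inner_mul_le_norm_mul_norm`), and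
`#{(n,n') ∈ T ×ˢ T | f n = f n'} = ∑_c |T_c|²`; remove the `r` diagonal pairs. -/
theorem agree_ge (T : Finset ℕ) (d : ℕ) (hd : 1 ≤ d) (f : ℕ → ℕ) (hf : ∀ n ∈ T, f n < d) :
    (T.card : ℝ) ^ 2 / d - T.card ≤ ((T.offDiag.filter (fun q : ℕ × ℕ => f q.1 = f q.2)).card : ℝ) := by
  classical
  have h1 : T.card = ∑ c ∈ Finset.range d, (T.filter (fun n => f n = c)).card :=
    Finset.card_eq_sum_card_fiberwise fun n hn => Finset.mem_coe.2 (Finset.mem_range.2 (hf n hn))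
  have h2 : ((T ×ˢ T).filter (fun q : ℕ × ℕ => f q.1 = f q.2)).card =
      ∑ c ∈ Finset.range d, (T.filter (fun n => f n = c)).card ^ 2 := by
    rw [Finset.card_eq_sum_card_fiberwise (f := fun q : ℕ × ℕ => f q.1) (t := Finset.range d)]
    · refine Finset.sum_congr rfl fun c _ => ?_
      rw [sq, ← Finset.card_product]
      congr 1
      ext q
      simp only [Finset.mem_filter, Finset.mem_product]
      constructor
      · rintro ⟨⟨⟨a1, a2⟩, a3⟩, a4⟩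
        exact ⟨⟨a1, a4⟩, a2, by rw [← a3]; exact a4⟩
      · rintro ⟨⟨a1, a2⟩, a3, a4⟩
        exact ⟨⟨⟨a1, a3⟩, by rw [a2, a4]⟩, a2⟩
    · intro q hq
      rw [Finset.mem_coe, Finset.mem_filter, Finset.mem_product] at hq
      exact Finset.mem_coe.2 (Finset.mem_range.2 (hf _ hq.1.1))
  have h3 : ((T ×ˢ T).filter (fun q : ℕ × ℕ => f q.1 = f q.2)).card =
      (T.offDiag.filter (fun q : ℕ × ℕ => f q.1 = f q.2)).card + T.card := by
    rw [← Finset.diag_union_offDiag, Finset.filter_union, Finset.card_union_of_disjoint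
      (Finset.disjoint_filter_filter (Finset.disjoint_diag_offDiag T)), add_comm]
    congr 1
    rw [Finset.filter_true_of_mem, Finset.diag_card]
    intro q hq
    rw [Finset.mem_diag] at hq
    rw [hq.2]
  have h4 : ((∑ c ∈ Finset.range d, (T.filter (fun n => f n = c)).card : ℕ) : ℝ) ^ 2 ≤
      (d : ℝ) * ((∑ c ∈ Finset.range d, (T.filter (fun n => f n = c)).card ^ 2 : ℕ) : ℝ) := by
    push_cast
    have := sq_sum_le_card_mul_sum_sq (s := Finset.range d)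
      (f := fun c => ((T.filter (fun n => f n = c)).card : ℝ))
    rwa [Finset.card_range] at this
  rw [← h1, ← h2, h3] at h4
  push_cast at h4
  have hd0 : (0 : ℝ) < d := by exact_mod_cast hd
  have h5 : (T.card : ℝ) ^ 2 / d ≤
      ((T.offDiag.filter (fun q : ℕ × ℕ => f q.1 = f q.2)).card : ℝ) + T.card := by
    rw [div_le_iff₀ hd0]
    linarith
  linarith

/-- [HSP-A1] p-adic repulsion. PROOF. Let `r = |T|`, `W = ∑_{p ∈ S} w p log p`, `W0 = ∑_{p ∈ S0} w p log p`. If `r ≤ d` we are done; let `r > d`. Sum `pair_le` over `T.offDiag` (`r² - r` pairs)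
and exchange the sums: `∑_{p ∈ S} w p log p A_p ≤ (r² - r) X`, `A_p` = number of pairs of `T.offDiag` with `j p n = j p n'`. `A_p ≥ r²/d - r` (`agree_ge`), and `A_p = r² - r` for `p ∈ S0`.
So `(W - W0)(r²/d - r) + W0 (r² - r) ≤ (r² - r) X`. Divide by `r > 0`: `W (r/d - 1) + W0 (r - r/d) ≤ (r - 1) X`. With `W ≥ d X - lam` and `r/d - 1 ≥ 0`:
`(r - d) X - lam (r/d - 1) + W0 r (1 - 1/d) ≤ (r - 1) X`; multiply by `d`: `W0 r (d - 1) ≤ d (d - 1) X + lam (r - d)`. If `lam ≥ 0`: `lam (r - d) ≤ lam r ≤ (d - 1) W0 r / 2`, hence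
`W0 r (d-1)/2 ≤ d (d-1) X`. (If `lam < 0` the term `lam (r - d)` is `≤ 0 ≤ (d-1) W0 r/2`, `W0 ≥ 0`.) -/
theorem pair_lemma (T S S0 : Finset ℕ) (hS : ∀ p ∈ S, p.Prime) (hS0 : S0 ⊆ S) (d : ℕ) (hd : 2 ≤ d)
    (j : ℕ → ℕ → ℕ) (hj : ∀ p ∈ S, ∀ n ∈ T, j p n < d)
    (hj0 : ∀ p ∈ S0, ∀ n ∈ T, ∀ n' ∈ T, j p n = j p n')
    (w : ℕ → ℝ) (hw : ∀ p ∈ S, 0 ≤ w p)
    (hdiv : ∀ p ∈ S, ∀ n ∈ T, ∃ e : ℕ, w p ≤ e ∧ (p : ℤ) ^ e ∣ (n : ℤ) - j p n)
    (X lam : ℝ) (hX : ∀ n ∈ T, Real.log n ≤ X)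
    (hW : d * X - lam ≤ ∑ p ∈ S, w p * Real.log p)
    (hlam : 2 * lam ≤ ((d : ℝ) - 1) * ∑ p ∈ S0, w p * Real.log p) :
    (T.card : ℝ) ≤ d ∨ (T.card : ℝ) * ∑ p ∈ S0, w p * Real.log p ≤ 2 * d * X := by
  by_cases hTd : (T.card : ℝ) ≤ d
  · exact Or.inl hTd
  right
  push Not at hTd
  obtain ⟨c, hc⟩ : ∃ c : ℕ → ℝ, ∀ p, c p = w p * Real.log p := ⟨fun p => w p * Real.log p, fun _ => rfl⟩
  have hc0 : ∀ p ∈ S, 0 ≤ c p := by
    intro p hp
    rw [hc]
    exact mul_nonneg (hw p hp) (Real.log_natCast_nonneg p)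
  obtain ⟨A, hA⟩ : ∃ A : ℕ → ℕ, ∀ p, A p =
      (T.offDiag.filter (fun q : ℕ × ℕ => j p q.1 = j p q.2)).card := ⟨_, fun _ => rfl⟩
  obtain ⟨r, hr⟩ : ∃ r : ℝ, r = T.card := ⟨_, rfl⟩
  have hdR : (2 : ℝ) ≤ d := by exact_mod_cast hd
  rw [← hr] at hTd
  have hr0 : 0 < r := by linarith
  have hoff : (T.offDiag.card : ℝ) = r ^ 2 - r := by
    rw [Finset.offDiag_card, Nat.cast_sub (Nat.le_mul_self _), Nat.cast_mul, hr]
    ring
  have hupper : ∑ p ∈ S, c p * A p ≤ (r ^ 2 - r) * X := by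
    have h1 : ∑ q ∈ T.offDiag, ∑ p ∈ S.filter (fun p => j p q.1 = j p q.2), w p * Real.log p ≤
        ∑ _q ∈ T.offDiag, X := by
      refine Finset.sum_le_sum fun q hq => ?_
      rw [Finset.mem_offDiag] at hq
      exact pair_le S hS j w q.1 q.2 hq.2.2 (fun p hp => hdiv p hp q.1 hq.1)
        (fun p hp => hdiv p hp q.2 hq.2.1) X (hX q.1 hq.1) (hX q.2 hq.2.1)
    have h2 : ∑ q ∈ T.offDiag, ∑ p ∈ S.filter (fun p => j p q.1 = j p q.2), w p * Real.log p =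
        ∑ p ∈ S, c p * A p := by
      have h3 : ∀ q ∈ T.offDiag, ∑ p ∈ S.filter (fun p => j p q.1 = j p q.2), w p * Real.log p =
          ∑ p ∈ S, if j p q.1 = j p q.2 then c p else 0 := by
        intro q _
        rw [Finset.sum_filter]
        refine Finset.sum_congr rfl fun p _ => ?_
        rw [hc]
      rw [Finset.sum_congr rfl h3, Finset.sum_comm]
      refine Finset.sum_congr rfl fun p _ => ?_
      rw [← Finset.sum_filter, Finset.sum_const, nsmul_eq_mul, hA, mul_comm]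
    rw [h2, Finset.sum_const, nsmul_eq_mul, hoff] at h1
    exact h1
  have hAge : ∀ p ∈ S, r ^ 2 / d - r ≤ A p := by
    intro p hp
    rw [hA, hr]
    exact agree_ge T d (by omega) (fun n => j p n) (hj p hp)
  have hA0 : ∀ p ∈ S0, (A p : ℝ) = r ^ 2 - r := by
    intro p hp
    rw [hA, ← hoff]
    congr 2
    rw [Finset.filter_eq_self]
    intro q hq
    rw [Finset.mem_offDiag] at hq
    exact hj0 p hp q.1 hq.1 q.2 hq.2.1
  obtain ⟨W, hWd⟩ : ∃ W : ℝ, W = ∑ p ∈ S, c p := ⟨_, rfl⟩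
  obtain ⟨W0, hW0d⟩ : ∃ W0 : ℝ, W0 = ∑ p ∈ S0, c p := ⟨_, rfl⟩
  have hWge : d * X - lam ≤ W := by
    rw [hWd]
    refine hW.trans (le_of_eq (Finset.sum_congr rfl fun p _ => (hc p).symm))
  have hW0e : ∑ p ∈ S0, w p * Real.log p = W0 := by
    rw [hW0d]
    exact Finset.sum_congr rfl fun p _ => (hc p).symm
  rw [hW0e] at hlam ⊢
  have hW00 : 0 ≤ W0 := by
    rw [hW0d]
    exact Finset.sum_nonneg fun p hp => hc0 p (hS0 hp)
  have hlower : W * (r ^ 2 / d - r) + W0 * (r ^ 2 - r ^ 2 / d) ≤ ∑ p ∈ S, c p * A p := by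
    have h1 : ∑ p ∈ S0, c p * ((A p : ℝ) - (r ^ 2 / d - r)) ≤
        ∑ p ∈ S, c p * ((A p : ℝ) - (r ^ 2 / d - r)) := by
      refine Finset.sum_le_sum_of_subset_of_nonneg hS0 fun p hp _ => ?_
      exact mul_nonneg (hc0 p hp) (by linarith [hAge p hp])
    have h2 : ∑ p ∈ S0, c p * ((A p : ℝ) - (r ^ 2 / d - r)) = W0 * (r ^ 2 - r ^ 2 / d) := by
      rw [hW0d, Finset.sum_mul]
      refine Finset.sum_congr rfl fun p hp => ?_
      rw [hA0 p hp]
      ring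
    have h3 : ∑ p ∈ S, c p * ((A p : ℝ) - (r ^ 2 / d - r)) =
        ∑ p ∈ S, c p * A p - W * (r ^ 2 / d - r) := by
      rw [hWd, Finset.sum_mul, ← Finset.sum_sub_distrib]
      refine Finset.sum_congr rfl fun p _ => ?_
      ring
    rw [h2, h3] at h1
    linarith
  have hd0 : (0 : ℝ) < d := by linarith
  have h4 : W * (r - d) + W0 * (r * (d - 1)) ≤ d * (r - 1) * X := by
    have h5 := hlower.trans hupper
    have h6 : (W * (r - d) + W0 * (r * (d - 1))) * (r / d) ≤ (d * (r - 1) * X) * (r / d) := by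
      have e1 : (W * (r - d) + W0 * (r * (d - 1))) * (r / d) =
          W * (r ^ 2 / d - r) + W0 * (r ^ 2 - r ^ 2 / d) := by
        field_simp
      have e2 : (d * (r - 1) * X) * (r / d) = (r ^ 2 - r) * X := by
        field_simp
      rw [e1, e2]
      exact h5
    exact le_of_mul_le_mul_right h6 (div_pos hr0 hd0)
  have h5 : (d * X - lam) * (r - d) ≤ W * (r - d) :=
    mul_le_mul_of_nonneg_right hWge (by linarith)
  have h6 : lam * (r - d) ≤ (d - 1) * W0 * r / 2 := by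
    rcases le_total 0 lam with h | h
    · have h7 : lam * (r - d) ≤ lam * r := mul_le_mul_of_nonneg_left (by linarith) h
      have h8 := mul_le_mul_of_nonneg_right hlam hr0.le
      linarith
    · have h7 : lam * (r - d) ≤ 0 := mul_nonpos_of_nonpos_of_nonneg h (by linarith)
      have h8 : 0 ≤ (d - 1) * W0 * r := mul_nonneg (mul_nonneg (by linarith) hW00) hr0.le
      linarith
  have h7 : (d - 1) * (r * W0) ≤ (d - 1) * (2 * d * X) := by nlinarith
  rw [← hr]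
  exact le_of_mul_le_mul_left h7 (by linarith)

end HSP
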