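import Pool.Agent.HSP.Defs

set_option autoImplicit false

open scoped Nat

namespace HSP

/-- PROOF. `∏_{p ≤ m} p = primorial m ≤ 4 ^ m` (`primorial_le_four_pow`), take logarithms. -/
theorem theta_le (m : ℕ) : ∑ p ∈ pr m, Real.log p ≤ m * Real.log 4 := by
  have h1 : ∑ p ∈ pr m, Real.log p = Real.log ((primorial m : ℕ) : ℝ) := by
    unfold primorial pr
    rw [Nat.cast_prod, Real.log_prod]
    intro p hp
    have h2 := (Finset.mem_filter.1 hp).2.pos
    exact_mod_cast h2.ne'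
  have h3 : ((primorial m : ℕ) : ℝ) ≤ (4 : ℝ) ^ m := by
    exact_mod_cast primorial_le_four_pow m
  have h4 : (0 : ℝ) < ((primorial m : ℕ) : ℝ) := by
    exact_mod_cast primorial_pos m
  rw [h1, ← Real.log_pow]
  exact Real.log_le_log h4 h3

/-- [HSP-A4] Chebyshev on blocks: PROOF. induction on `κ`; the primes in `(v, 2v]` (`v = 2^κ u`) have `log p / p ≤ log p / v`, `∑ log p ≤ 2 v log 4` (`theta_le`). -/
theorem block (u κ : ℕ) (hu : 1 ≤ u) :
    ∑ p ∈ (pr (2 ^ κ * u)).filter (fun p => u < p), Real.log p / p ≤ κ * (2 * Real.log 4) := by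
  induction κ with
  | zero =>
    have h0 : (pr (2 ^ 0 * u)).filter (fun p => u < p) = ∅ := by
      rw [Finset.filter_eq_empty_iff]
      intro p hp
      have h1 := (mem_pr.1 hp).1
      simp at h1
      omega
    rw [h0]
    simp
  | succ κ ih =>
    have hv : 1 ≤ 2 ^ κ * u := Nat.mul_pos (by positivity) hu
    have hv0 : (0 : ℝ) < ((2 ^ κ * u : ℕ) : ℝ) := by exact_mod_cast hv
    have h2v : 2 ^ (κ + 1) * u = 2 * (2 ^ κ * u) := by ring
    have hsub : (pr (2 ^ (κ + 1) * u)).filter (fun p => u < p) ⊆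
        (pr (2 ^ κ * u)).filter (fun p => u < p) ∪
          (pr (2 ^ (κ + 1) * u)).filter (fun p => 2 ^ κ * u < p) := by
      intro p hp
      rw [Finset.mem_filter] at hp
      rw [Finset.mem_union, Finset.mem_filter, Finset.mem_filter]
      by_cases h : p ≤ 2 ^ κ * u
      · left
        exact ⟨mem_pr.2 ⟨h, (mem_pr.1 hp.1).2⟩, hp.2⟩
      · right
        exact ⟨hp.1, not_le.1 h⟩
    have hnn : ∀ p : ℕ, 0 ≤ Real.log (p : ℝ) / p := fun p =>
      div_nonneg (Real.log_natCast_nonneg p) (Nat.cast_nonneg p)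
    have hsecond : ∑ p ∈ (pr (2 ^ (κ + 1) * u)).filter (fun p => 2 ^ κ * u < p), Real.log p / p
        ≤ 2 * Real.log 4 := by
      calc ∑ p ∈ (pr (2 ^ (κ + 1) * u)).filter (fun p => 2 ^ κ * u < p), Real.log p / p
          ≤ ∑ p ∈ (pr (2 ^ (κ + 1) * u)).filter (fun p => 2 ^ κ * u < p),
              Real.log p / ((2 ^ κ * u : ℕ) : ℝ) := by
            apply Finset.sum_le_sum
            intro p hp
            have hp2 := (Finset.mem_filter.1 hp).2
            apply div_le_div_of_nonneg_left (Real.log_natCast_nonneg p) hv0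
            exact_mod_cast hp2.le
        _ = (∑ p ∈ (pr (2 ^ (κ + 1) * u)).filter (fun p => 2 ^ κ * u < p), Real.log p)
              / ((2 ^ κ * u : ℕ) : ℝ) := (Finset.sum_div _ _ _).symm
        _ ≤ (∑ p ∈ pr (2 ^ (κ + 1) * u), Real.log p) / ((2 ^ κ * u : ℕ) : ℝ) := by
            apply div_le_div_of_nonneg_right _ hv0.le
            apply Finset.sum_le_sum_of_subset_of_nonneg (Finset.filter_subset _ _)
            intro p _ _
            exact Real.log_natCast_nonneg p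
        _ ≤ (((2 ^ (κ + 1) * u : ℕ) : ℝ) * Real.log 4) / ((2 ^ κ * u : ℕ) : ℝ) :=
            div_le_div_of_nonneg_right (theta_le _) hv0.le
        _ = 2 * Real.log 4 := by
            rw [h2v, Nat.cast_mul 2 (2 ^ κ * u), div_eq_iff hv0.ne']
            push_cast
            ring
    calc ∑ p ∈ (pr (2 ^ (κ + 1) * u)).filter (fun p => u < p), Real.log p / p
        ≤ ∑ p ∈ (pr (2 ^ κ * u)).filter (fun p => u < p) ∪
          (pr (2 ^ (κ + 1) * u)).filter (fun p => 2 ^ κ * u < p), Real.log p / p :=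
          Finset.sum_le_sum_of_subset_of_nonneg hsub fun p _ _ => hnn p
      _ ≤ ∑ p ∈ (pr (2 ^ κ * u)).filter (fun p => u < p), Real.log p / p +
          ∑ p ∈ (pr (2 ^ (κ + 1) * u)).filter (fun p => 2 ^ κ * u < p), Real.log p / p := by
          rw [← Finset.sum_union_inter]
          have := Finset.sum_nonneg (s := (pr (2 ^ κ * u)).filter (fun p => u < p) ∩
            (pr (2 ^ (κ + 1) * u)).filter (fun p => 2 ^ κ * u < p))
            (f := fun p : ℕ => Real.log p / p) fun p _ => hnn p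
          linarith
      _ ≤ κ * (2 * Real.log 4) + 2 * Real.log 4 := add_le_add ih hsecond
      _ = ((κ + 1 : ℕ) : ℝ) * (2 * Real.log 4) := by
          push_cast
          ring

/-- [HSP-A4b] PROOF. `block` with `u = 1`, `κ = Nat.log 2 M + 1` (`M < 2 ^ κ`). -/
theorem sum_log_div_le (M : ℕ) : ∑ p ∈ pr M, Real.log p / p ≤ 2 * Real.log 4 * (Nat.log 2 M + 1) := by
  have h1 := block 1 (Nat.log 2 M + 1) le_rfl
  have hsub : pr M ⊆ (pr (2 ^ (Nat.log 2 M + 1) * 1)).filter (fun p => 1 < p) := by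
    intro p hp
    obtain ⟨hpM, hpp⟩ := mem_pr.1 hp
    rw [Finset.mem_filter, mem_pr, mul_one]
    exact ⟨⟨hpM.trans (Nat.lt_pow_succ_log_self (by norm_num) M).le, hpp⟩, hpp.one_lt⟩
  calc ∑ p ∈ pr M, Real.log p / p
      ≤ ∑ p ∈ (pr (2 ^ (Nat.log 2 M + 1) * 1)).filter (fun p => 1 < p), Real.log p / p :=
        Finset.sum_le_sum_of_subset_of_nonneg hsub fun p _ _ =>
          div_nonneg (Real.log_natCast_nonneg p) (Nat.cast_nonneg p)
    _ ≤ ((Nat.log 2 M + 1 : ℕ) : ℝ) * (2 * Real.log 4) := h1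
    _ = 2 * Real.log 4 * (Nat.log 2 M + 1) := by
        push_cast
        ring

theorem a4c_step (m : ℕ) (hm : 1 ≤ m) :
    Real.log ((m + 1 : ℕ) : ℝ) / (((m + 1 : ℕ) : ℝ) * (((m + 1 : ℕ) : ℝ) - 1)) ≤
      (Real.log m + 2) / m - (Real.log ((m + 1 : ℕ) : ℝ) + 2) / ((m + 1 : ℕ) : ℝ) := by
  have h0 : (1 : ℝ) ≤ m := by exact_mod_cast hm
  have hpos : (0 : ℝ) < m := by linarith
  push_cast
  have h1 : Real.log ((m : ℝ) + 1) - Real.log m ≤ 1 / m := by
    rw [← Real.log_div (by linarith) (by linarith)]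
    have h2 := Real.log_le_sub_one_of_pos (x := ((m : ℝ) + 1) / m) (by positivity)
    have h3 : ((m : ℝ) + 1) / m - 1 = 1 / m := by field_simp; ring
    linarith
  have h4 : ((m : ℝ) + 1) * (1 / m) ≤ 2 := by
    rw [mul_one_div, div_le_iff₀ hpos]
    linarith
  have h5 : ((m : ℝ) + 1) * (Real.log ((m : ℝ) + 1) - Real.log m) ≤ 2 :=
    le_trans (mul_le_mul_of_nonneg_left h1 (by linarith)) h4
  have h6 : (Real.log m + 2) / m - (Real.log ((m : ℝ) + 1) + 2) / ((m : ℝ) + 1) -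
      Real.log ((m : ℝ) + 1) / (((m : ℝ) + 1) * ((m : ℝ) + 1 - 1)) =
      (2 - ((m : ℝ) + 1) * (Real.log ((m : ℝ) + 1) - Real.log m)) / (((m : ℝ) + 1) * m) := by
    have e : (m : ℝ) + 1 - 1 = m := by ring
    rw [e]
    have : (m : ℝ) + 1 ≠ 0 := by linarith
    field_simp
    ring
  have h7 : 0 ≤ (2 - ((m : ℝ) + 1) * (Real.log ((m : ℝ) + 1) - Real.log m)) /
      (((m : ℝ) + 1) * m) := div_nonneg (by linarith) (by positivity)
  linarith

theorem a4c_tel (M : ℕ) (hM : 1 ≤ M) :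
    ∑ m ∈ Finset.Icc 2 M, Real.log (m : ℝ) / ((m : ℝ) * ((m : ℝ) - 1)) ≤
      2 - (Real.log M + 2) / M := by
  induction M, hM using Nat.le_induction with
  | base => simp
  | succ m hm ih =>
    rw [Finset.sum_Icc_succ_top (by omega)]
    have := a4c_step m hm
    linarith

/-- [HSP-A4c] PROOF. `log m/(m (m-1)) ≤ f (m-1) - f m` with `f m = (log m + 2)/m`: indeed `m (log (m-1) + 2) - (m-1)(log m + 2) = log m - m log (m/(m-1)) + 2 ≥ log m` because
`m log (1 + 1/(m-1)) ≤ m/(m-1) ≤ 2` for `m ≥ 2`. Telescope: `∑_{2 ≤ m ≤ M} ≤ f 1 = 2`. -/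
theorem sum_log_div_sq_le (M : ℕ) : ∑ p ∈ pr M, Real.log p / (p * (p - 1)) ≤ 2 := by
  rcases Nat.eq_zero_or_pos M with rfl | hM
  · have h0 : pr 0 = ∅ := by
      apply Finset.eq_empty_of_forall_notMem
      intro p hp
      rw [mem_pr] at hp
      have := hp.2.two_le
      omega
    rw [h0, Finset.sum_empty]
    norm_num
  · have h1 := a4c_tel M hM
    have hsub : pr M ⊆ Finset.Icc 2 M := by
      intro p hp
      rw [mem_pr] at hp
      rw [Finset.mem_Icc]
      exact ⟨hp.2.two_le, hp.1⟩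
    have h2 : ∑ p ∈ pr M, Real.log p / (p * (p - 1)) ≤
        ∑ m ∈ Finset.Icc 2 M, Real.log (m : ℝ) / ((m : ℝ) * ((m : ℝ) - 1)) := by
      refine Finset.sum_le_sum_of_subset_of_nonneg hsub fun m hm _ => ?_
      rw [Finset.mem_Icc] at hm
      have h3 : (2 : ℝ) ≤ m := by exact_mod_cast hm.1
      exact div_nonneg (Real.log_nonneg (by linarith)) (mul_nonneg (by linarith) (by linarith))
    have h4 : 0 ≤ (Real.log M + 2) / M :=
      div_nonneg (add_nonneg (Real.log_natCast_nonneg M) (by norm_num)) (Nat.cast_nonneg M)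
    linarith

theorem a5a_z_succ (y κ t : ℕ) : y * 2 ^ (κ * (t + 1)) = 2 ^ κ * (y * 2 ^ (κ * t)) := by
  rw [mul_add, mul_one, pow_add]; ring

theorem a5a_sum_z (y κ : ℕ) (hκ : 1 ≤ κ) (s : ℕ) :
    ∑ t ∈ Finset.range (s + 1), y * 2 ^ (κ * t) ≤ 2 * (y * 2 ^ (κ * s)) := by
  induction s with
  | zero => simp; omega
  | succ s ih =>
    rw [Finset.sum_range_succ]
    have h1 : 2 ≤ 2 ^ κ := by
      calc 2 = 2 ^ 1 := by norm_num
        _ ≤ 2 ^ κ := Nat.pow_le_pow_right (by norm_num) hκ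
    have h2 := a5a_z_succ y κ s
    have h3 : 2 * (y * 2 ^ (κ * s)) ≤ 2 ^ κ * (y * 2 ^ (κ * s)) := Nat.mul_le_mul_right _ h1
    omega

theorem a5a_sum_min (y κ b : ℕ) (hy : 1 ≤ y) (hκ : 1 ≤ κ) (hb : y < b) :
    ∑ t ∈ Finset.range (gi y κ b + 1), min (b : ℝ) ((y * 2 ^ (κ * t) : ℕ) : ℝ) ≤ 3 * b := by
  obtain ⟨s, hs⟩ : ∃ s, gi y κ b = s + 1 := ⟨gi y κ b - 1, by
    have := one_le_gi hy hκ hb
    omega⟩
  rw [hs, Finset.sum_range_succ]
  have h1 : ∑ t ∈ Finset.range (s + 1), min (b : ℝ) ((y * 2 ^ (κ * t) : ℕ) : ℝ) ≤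
      ∑ t ∈ Finset.range (s + 1), ((y * 2 ^ (κ * t) : ℕ) : ℝ) :=
    Finset.sum_le_sum fun t _ => min_le_right _ _
  have h2 : ∑ t ∈ Finset.range (s + 1), ((y * 2 ^ (κ * t) : ℕ) : ℝ) ≤
      ((2 * (y * 2 ^ (κ * s)) : ℕ) : ℝ) := by
    rw [← Nat.cast_sum]
    exact_mod_cast a5a_sum_z y κ hκ s
  have h3 : y * 2 ^ (κ * s) < b := lt_of_lt_gi (by omega)
  have h4 : ((2 * (y * 2 ^ (κ * s)) : ℕ) : ℝ) ≤ 2 * b := by
    have : 2 * (y * 2 ^ (κ * s)) ≤ 2 * b := by omega
    exact_mod_cast this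
  have h5 : min (b : ℝ) ((y * 2 ^ (κ * (s + 1)) : ℕ) : ℝ) ≤ b := min_le_left _ _
  linarith

/-- [HSP-A5a] the main part of the loss. `b > y`, grid points `z_t = y 2^(κ t)`, `t(p) = gi y κ p` (so `z_{t(p)-1} < p ≤ z_{t(p)}`).
PROOF. Let `s ≥ 0` be maximal with `z_s < b` (exists since `z_0 = y < b`; `b ≤ z_{s+1}`). For `p ≤ b` we have `t(p) ≤ s + 1`. Primes with `t(p) = t ≤ s` (they lie in `(z_{t-1}, z_t]`):
`min b z_t = z_t`, contribution `≤ z_t ∑_{z_{t-1} < p ≤ z_t} log p/p ≤ z_t κ 2 log 4` (`block` with `u = z_{t-1}`), and `∑_{t ≤ s} z_t ≤ 2 z_s ≤ 2 b`. Primes with `t(p) = s + 1`: contribution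
`≤ b κ 2 log 4`. Total `≤ 6 log 4 κ b ≤ 9 κ b` (`log 4 < 1.4`, i.e. `Real.log_two_lt_d9`). -/
theorem loss_main (y κ b : ℕ) (hy : 1 ≤ y) (hκ : 1 ≤ κ) (hb : y < b) :
    ∑ p ∈ (pr b).filter (fun p => y < p), (min (b : ℝ) ((y * 2 ^ (κ * gi y κ p) : ℕ) : ℝ)) / p * Real.log p ≤ 9 * κ * b := by
  classical
  set S := (pr b).filter (fun p => y < p) with hS
  have hmaps : ∀ p ∈ S, gi y κ p ∈ Finset.range (gi y κ b + 1) := by
    intro p hp
    obtain ⟨hp1, hp2⟩ := Finset.mem_filter.mp hp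
    have h1 := le_gi (p := b) hy hκ
    have h2 : p ≤ y * 2 ^ (κ * gi y κ b) := (mem_pr.mp hp1).1.trans h1
    exact Finset.mem_range.mpr (Nat.lt_succ_of_le (gi_le h2))
  have hC : (0 : ℝ) ≤ κ * (2 * Real.log 4) := by
    have : (0 : ℝ) ≤ Real.log 4 := Real.log_nonneg (by norm_num)
    positivity
  rw [← Finset.sum_fiberwise_of_maps_to hmaps]
  have hfib : ∀ t ∈ Finset.range (gi y κ b + 1),
      ∑ p ∈ S.filter (fun p => gi y κ p = t), (min (b : ℝ) ((y * 2 ^ (κ * gi y κ p) : ℕ) : ℝ)) / p * Real.log p ≤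
        min (b : ℝ) ((y * 2 ^ (κ * t) : ℕ) : ℝ) * (κ * (2 * Real.log 4)) := by
    intro t _
    have hm0 : (0 : ℝ) ≤ min (b : ℝ) ((y * 2 ^ (κ * t) : ℕ) : ℝ) :=
      le_min (Nat.cast_nonneg _) (Nat.cast_nonneg _)
    have e1 : ∑ p ∈ S.filter (fun p => gi y κ p = t),
        (min (b : ℝ) ((y * 2 ^ (κ * gi y κ p) : ℕ) : ℝ)) / p * Real.log p =
        min (b : ℝ) ((y * 2 ^ (κ * t) : ℕ) : ℝ) *
          ∑ p ∈ S.filter (fun p => gi y κ p = t), Real.log p / p := by
      rw [Finset.mul_sum]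
      refine Finset.sum_congr rfl fun p hp => ?_
      rw [(Finset.mem_filter.mp hp).2]
      ring
    rw [e1]
    refine mul_le_mul_of_nonneg_left ?_ hm0
    rcases Nat.eq_zero_or_pos t with h0 | h0
    · have he : S.filter (fun p => gi y κ p = t) = ∅ := by
        apply Finset.filter_eq_empty_iff.mpr
        intro p hp h
        have h1 := one_le_gi (p := p) hy hκ (Finset.mem_filter.mp hp).2
        omega
      rw [he, Finset.sum_empty]
      exact hC
    · obtain ⟨s, rfl⟩ : ∃ s, t = s + 1 := ⟨t - 1, by omega⟩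
      have hz1 : 1 ≤ y * 2 ^ (κ * s) := Nat.mul_pos hy (Nat.pow_pos (by norm_num))
      refine le_trans ?_ (block (y * 2 ^ (κ * s)) κ hz1)
      refine Finset.sum_le_sum_of_subset_of_nonneg ?_ ?_
      · intro p hp
        obtain ⟨hp1, hp2⟩ := Finset.mem_filter.mp hp
        obtain ⟨hp3, hp4⟩ := Finset.mem_filter.mp hp1
        refine Finset.mem_filter.mpr ⟨mem_pr.mpr ⟨?_, (mem_pr.mp hp3).2⟩, ?_⟩
        · have h1 := le_gi (p := p) hy hκ
          rw [hp2, a5a_z_succ] at h1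
          exact h1
        · exact lt_of_lt_gi (by omega)
      · intro p _ _
        exact div_nonneg (Real.log_natCast_nonneg p) (Nat.cast_nonneg p)
  refine (Finset.sum_le_sum hfib).trans ?_
  rw [← Finset.sum_mul]
  have h3 := a5a_sum_min y κ b hy hκ hb
  have h4 : (∑ t ∈ Finset.range (gi y κ b + 1), min (b : ℝ) ((y * 2 ^ (κ * t) : ℕ) : ℝ)) *
      (κ * (2 * Real.log 4)) ≤ (3 * b) * (κ * (2 * Real.log 4)) :=
    mul_le_mul_of_nonneg_right h3 hC
  refine h4.trans ?_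
  have h5 : Real.log 4 = 2 * Real.log 2 := by
    rw [show (4 : ℝ) = 2 ^ (2 : ℕ) by norm_num, Real.log_pow]; norm_num
  have h6 := Real.log_two_lt_d9
  have hkb : (0 : ℝ) ≤ (κ : ℝ) * b := by positivity
  have h7 : Real.log 4 ≤ 1.5 := by rw [h5]; linarith
  have h8 : (3 * (b : ℝ)) * (κ * (2 * Real.log 4)) = ((κ : ℝ) * b) * (6 * Real.log 4) := by ring
  rw [h8]
  have h9 := mul_le_mul_of_nonneg_left (show 6 * Real.log 4 ≤ 9 by linarith) hkb
  linarith

/-- the term at one prime -/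
theorem a5_term {p : ℕ} (hp : p.Prime) (b z : ℕ) (hz : p ≤ z) :
    ((padicValNat p b ! : ℝ) - ((b - z : ℕ) : ℝ) / p) * Real.log p ≤
      if p ≤ b then (min (b : ℝ) (z : ℝ)) / p * Real.log p + b * (Real.log p / (p * (p - 1))) else 0 := by
  have : Fact p.Prime := ⟨hp⟩
  have h1 : (1 : ℝ) < p := by exact_mod_cast hp.one_lt
  have hlog : 0 ≤ Real.log p := Real.log_natCast_nonneg p
  split_ifs with hpb
  · have h2 := sub_one_mul_padicValNat_factorial (p := p) b
    have h3 : (p - 1) * padicValNat p b ! ≤ b := by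
      rw [h2]
      exact Nat.sub_le _ _
    have h4 : ((p : ℝ) - 1) * (padicValNat p b ! : ℝ) ≤ b := by
      have h5 : (((p - 1 : ℕ) : ℝ)) * (padicValNat p b ! : ℝ) ≤ b := by exact_mod_cast h3
      rw [Nat.cast_sub hp.one_lt.le, Nat.cast_one] at h5
      exact h5
    have hp1 : (0 : ℝ) < p - 1 := by linarith
    have hp0 : (0 : ℝ) < p := by linarith
    have h5 : (padicValNat p b ! : ℝ) ≤ b / (p - 1) := by
      rw [le_div_iff₀ hp1]
      linarith
    have h6 : (b : ℝ) - min (b : ℝ) (z : ℝ) ≤ ((b - z : ℕ) : ℝ) := by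
      rcases le_total b z with h | h
      · have hR : (b : ℝ) ≤ z := by exact_mod_cast h
        rw [min_eq_left hR, sub_self]
        exact Nat.cast_nonneg _
      · have hR : (z : ℝ) ≤ b := by exact_mod_cast h
        rw [min_eq_right hR, Nat.cast_sub h]
    have h7 : ((b : ℝ) - min (b : ℝ) (z : ℝ)) / p ≤ ((b - z : ℕ) : ℝ) / p :=
      div_le_div_of_nonneg_right h6 hp0.le
    have h8 : (b : ℝ) / (p - 1) = b / p + b * (1 / (p * (p - 1))) := by
      field_simp
      ring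
    have h9 : (padicValNat p b ! : ℝ) - ((b - z : ℕ) : ℝ) / p ≤
        (min (b : ℝ) (z : ℝ)) / p + b * (1 / (p * (p - 1))) := by
      rw [sub_div] at h7
      linarith
    have h10 := mul_le_mul_of_nonneg_right h9 hlog
    refine h10.trans (le_of_eq ?_)
    ring
  · push Not at hpb
    have h2 : padicValNat p b ! = 0 := by
      refine padicValNat.eq_zero_of_not_dvd ?_
      rw [hp.dvd_factorial]
      omega
    have h3 : b - z = 0 := by omega
    rw [h2, h3, Nat.cast_zero, zero_div, sub_zero, zero_mul]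

/-- [HSP-A5] the loss at one factorial. PROOF. For `p > b`: `v_p(b!) = 0` and `b - z = 0` (`z ≥ p > b`, `le_gi`), so the term vanishes; in particular the sum is empty or `0` for `b ≤ y`.
For `y < p ≤ b`: Legendre `v_p(b!) ≤ b/(p-1) = b/p + b/(p (p-1))` (`sub_one_mul_padicValNat_factorial`: `(p-1) v_p(b!) = b - digit sum`), and `b - (b - z : ℕ) = min b z`. So the sum is
`≤ ∑ min(b, z)/p log p + b ∑ log p/(p (p-1)) ≤ 9 κ b + 2 b ≤ 11 κ b`. -/
theorem loss (y κ b M : ℕ) (hy : 1 ≤ y) (hκ : 1 ≤ κ) :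
    ∑ p ∈ (pr M).filter (fun p => y < p),
      ((padicValNat p b ! : ℝ) - ((b - y * 2 ^ (κ * gi y κ p) : ℕ) : ℝ) / p) * Real.log p ≤
      if y < b then 11 * (κ : ℝ) * b else 0 := by
  have hterm : ∀ p ∈ (pr M).filter (fun p => y < p),
      ((padicValNat p b ! : ℝ) - ((b - y * 2 ^ (κ * gi y κ p) : ℕ) : ℝ) / p) * Real.log p ≤
        if p ≤ b then (min (b : ℝ) ((y * 2 ^ (κ * gi y κ p) : ℕ) : ℝ)) / p * Real.log p +
          b * (Real.log p / (p * (p - 1))) else 0 := by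
    intro p hp
    have hp2 := (mem_pr.1 (Finset.mem_filter.1 hp).1).2
    exact a5_term hp2 b _ (le_gi hy hκ)
  have hnn : ∀ p ∈ (pr b).filter (fun p => y < p),
      0 ≤ (min (b : ℝ) ((y * 2 ^ (κ * gi y κ p) : ℕ) : ℝ)) / p * Real.log p +
          b * (Real.log p / (p * (p - 1))) := by
    intro p hp
    have hp2 := (mem_pr.1 (Finset.mem_filter.1 hp).1).2
    have h1 : (1 : ℝ) < p := by exact_mod_cast hp2.one_lt
    have h2 : 0 ≤ Real.log p := Real.log_natCast_nonneg p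
    have h3 : (0 : ℝ) ≤ min (b : ℝ) ((y * 2 ^ (κ * gi y κ p) : ℕ) : ℝ) :=
      le_min (Nat.cast_nonneg _) (Nat.cast_nonneg _)
    have h4 : (0 : ℝ) ≤ p := by linarith
    have h5 : (0 : ℝ) ≤ p * (p - 1) := mul_nonneg h4 (by linarith)
    exact add_nonneg (mul_nonneg (div_nonneg h3 h4) h2)
      (mul_nonneg (Nat.cast_nonneg _) (div_nonneg h2 h5))
  have hsum : ∑ p ∈ (pr M).filter (fun p => y < p),
      ((padicValNat p b ! : ℝ) - ((b - y * 2 ^ (κ * gi y κ p) : ℕ) : ℝ) / p) * Real.log p ≤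
      ∑ p ∈ (pr b).filter (fun p => y < p), ((min (b : ℝ) ((y * 2 ^ (κ * gi y κ p) : ℕ) : ℝ)) / p * Real.log p +
          b * (Real.log p / (p * (p - 1)))) := by
    refine (Finset.sum_le_sum hterm).trans ?_
    rw [← Finset.sum_filter]
    refine Finset.sum_le_sum_of_subset_of_nonneg ?_ (fun p hp _ => hnn p hp)
    intro p hp
    rw [Finset.mem_filter, Finset.mem_filter, mem_pr] at hp
    rw [Finset.mem_filter, mem_pr]
    exact ⟨⟨hp.2, hp.1.1.2⟩, hp.1.2⟩
  refine hsum.trans ?_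
  split_ifs with hyb
  · rw [Finset.sum_add_distrib, ← Finset.mul_sum]
    have h1 := loss_main y κ b hy hκ hyb
    have h2 : ∑ p ∈ (pr b).filter (fun p => y < p), Real.log p / ((p : ℝ) * (p - 1)) ≤ 2 := by
      refine le_trans (Finset.sum_le_sum_of_subset_of_nonneg (Finset.filter_subset _ _) ?_)
        (sum_log_div_sq_le b)
      intro p hp _
      have hp2 := (mem_pr.1 hp).2
      have h1 : (1 : ℝ) < p := by exact_mod_cast hp2.one_lt
      exact div_nonneg (Real.log_natCast_nonneg p) (mul_nonneg (by linarith) (by linarith))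
    have h3 := mul_le_mul_of_nonneg_left h2 (Nat.cast_nonneg b : (0 : ℝ) ≤ b)
    have h4 : (1 : ℝ) ≤ κ := by exact_mod_cast hκ
    have h5 := mul_le_mul_of_nonneg_right h4 (Nat.cast_nonneg b : (0 : ℝ) ≤ b)
    linarith
  · have h1 : (pr b).filter (fun p => y < p) = ∅ := by
      rw [Finset.filter_eq_empty_iff]
      intro p hp
      have := (mem_pr.1 hp).1
      omega
    rw [h1, Finset.sum_empty]

/-- [HSP-A5b] lower bound for the exponent: PROOF. for `b ≥ p`: `v_p(b!) ≥ b / p ≥ (b - p + 1)/p ≥ (b - z)/p`; for `b < p ≤ z` the right side is `0`. -/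
theorem val_ge (p b z : ℕ) (hp : p.Prime) (hz : p ≤ z) : ((b - z : ℕ) : ℝ) / p ≤ (padicValNat p b ! : ℝ) := by
  have : Fact p.Prime := ⟨hp⟩
  have h1 : p * (b / p) + b % p = b := Nat.div_add_mod b p
  have h2 : b % p < p := Nat.mod_lt _ hp.pos
  have h3 : padicValNat p b ! = padicValNat p (b / p)! + b / p := by
    conv_lhs => rw [← h1]
    rw [padicValNat_factorial_mul_add _ h2, padicValNat_factorial_mul]
  have h4 : b - z ≤ p * padicValNat p b ! := by
    rw [h3, mul_add]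
    omega
  have hp1 : (0 : ℝ) < p := by exact_mod_cast hp.pos
  rw [div_le_iff₀ hp1]
  have h7 : ((b - z : ℕ) : ℝ) ≤ p * (padicValNat p b ! : ℝ) := by exact_mod_cast h4
  linarith

/-- [HSP-A5c] PROOF. sum of `val_ge`. -/
theorem vl_ge (p z : ℕ) (l : List ℕ) (hp : p.Prime) (hz : p ≤ z) : (G z l : ℝ) / p ≤ (vl p l : ℝ) := by
  induction l with
  | nil =>
    rw [G_nil, vl_nil]
    simp
  | cons b l ih =>
    rw [G_cons, vl_cons]
    push_cast
    have h1 := val_ge p b z hp hz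
    have h2 : (((b - z : ℕ) : ℝ) + (G z l : ℝ)) / p = ((b - z : ℕ) : ℝ) / p + (G z l : ℝ) / p :=
      add_div _ _ _
    rw [h2]
    linarith

/-- [HSP-A5d] PROOF. sum of `loss` over `l`. -/
theorem loss_list (y κ M : ℕ) (l : List ℕ) (hy : 1 ≤ y) (hκ : 1 ≤ κ) :
    ∑ p ∈ (pr M).filter (fun p => y < p),
      ((vl p l : ℝ) - (G (y * 2 ^ (κ * gi y κ p)) l : ℝ) / p) * Real.log p ≤
      11 * (κ : ℝ) * ((l.filter (fun b => y < b)).sum : ℕ) := by
  induction l with
  | nil =>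
    simp [vl_nil, G_nil]
  | cons b l ih =>
    have h1 := loss y κ b M hy hκ
    have h2 : ∑ p ∈ (pr M).filter (fun p => y < p),
        ((vl p (b :: l) : ℝ) - (G (y * 2 ^ (κ * gi y κ p)) (b :: l) : ℝ) / p) * Real.log p =
        ∑ p ∈ (pr M).filter (fun p => y < p),
          ((padicValNat p b ! : ℝ) - ((b - y * 2 ^ (κ * gi y κ p) : ℕ) : ℝ) / p) * Real.log p +
        ∑ p ∈ (pr M).filter (fun p => y < p),
          ((vl p l : ℝ) - (G (y * 2 ^ (κ * gi y κ p)) l : ℝ) / p) * Real.log p := by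
      rw [← Finset.sum_add_distrib]
      refine Finset.sum_congr rfl fun p _ => ?_
      rw [vl_cons, G_cons, Nat.cast_add, Nat.cast_add]
      ring
    have h3 : (((b :: l).filter (fun b => y < b)).sum : ℝ) =
        (if y < b then (b : ℝ) else 0) + ((l.filter (fun b => y < b)).sum : ℕ) := by
      by_cases h : y < b
      · rw [if_pos h, List.filter_cons_of_pos (by simpa using h), List.sum_cons]
        push_cast
        rfl
      · rw [if_neg h, List.filter_cons_of_neg (by simpa using h), zero_add]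
    rw [h2, h3]
    have h4 : 11 * (κ : ℝ) * (if y < b then (b : ℝ) else 0) = if y < b then 11 * (κ : ℝ) * b else 0 := by
      split_ifs
      · rfl
      · rw [mul_zero]
    rw [mul_add, h4]
    exact add_le_add h1 ih

end HSP
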