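import Pool.Agent.HSP.A3
import Pool.Agent.HSP.A4

set_option autoImplicit false

open scoped Nat

namespace HSP

theorem a7_log_nonneg {M p : ℕ} (hp : p ∈ pr M) : 0 ≤ Real.log p := by
  have h1 := (mem_pr.1 hp).2.one_le
  exact Real.log_nonneg (by exact_mod_cast h1)

theorem a7_split (y M : ℕ) (f : ℕ → ℝ) : ∑ p ∈ pr (max M y), f p =
    ∑ p ∈ pr y, f p + ∑ p ∈ (pr M).filter (fun p => y < p), f p := by
  rw [← Finset.sum_union]
  · refine Finset.sum_congr ?_ fun _ _ => rfl
    ext p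
    rw [Finset.mem_union, Finset.mem_filter, mem_pr, mem_pr, mem_pr]
    constructor
    · rintro ⟨h1, h2⟩
      rcases Nat.lt_or_ge y p with h | h
      · right
        refine ⟨⟨?_, h2⟩, h⟩
        rcases le_max_iff.1 h1 with h3 | h3
        · exact h3
        · omega
      · left
        exact ⟨h, h2⟩
    · rintro (⟨h1, h2⟩ | ⟨⟨h1, h2⟩, -⟩)
      · exact ⟨h1.trans (le_max_right _ _), h2⟩
      · exact ⟨h1.trans (le_max_left _ _), h2⟩
  · rw [Finset.disjoint_left]
    intro p h1 h2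
    have h3 := (mem_pr.1 h1).1
    have h4 := (Finset.mem_filter.1 h2).2
    omega

/-- [HSP-A7a] PROOF. Put `M' = max M m`; `log m! = ∑_{p ∈ pr M'} v_p(m!) log p` (`log_fact_eq`), all terms are `≥ 0` and `pr M ⊆ pr M'`. -/
theorem val_fact_sum_le (m M : ℕ) : ∑ p ∈ pr M, (padicValNat p m ! : ℝ) * Real.log p ≤ Real.log (m ! : ℝ) := by
  rw [log_fact_eq m (max M m) (le_max_right _ _)]
  refine Finset.sum_le_sum_of_subset_of_nonneg (pr_mono (le_max_left _ _)) ?_
  intro p hp _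
  exact mul_nonneg (Nat.cast_nonneg _) (a7_log_nonneg hp)

/-- [HSP-A7] the weights have almost full mass.
PROOF. `log ∏ b! = ∑_{p ∈ pr (max M y)} vl p l log p` (`log_prod_eq`). Split `pr (max M y)` into `pr y` and the primes `y < p ≤ M`. For `p ≤ y`:
`vl p l log p ≤ w p log p + U log p + v_p((d-1)!) log p`; `∑_{p ≤ y} U log p ≤ U y log 4` (`theta_le`). For `p > y`:
`vl p l = (vl p l - G(z)/p) + G(z)/p ≤ (vl p l - G(z)/p) + w p + V/p + v_p((d-1)!)`; use `loss_list` and `∑_{p ≤ M} V log p/p ≤ V 2 log 4 (log_2 M + 1)` (`sum_log_div_le`). Finally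
`∑ v_p((d-1)!) log p ≤ log (d-1)!` (`val_fact_sum_le`). -/
theorem W_ge (y κ M d : ℕ) (l : List ℕ) (hy : 1 ≤ y) (hκ : 1 ≤ κ) (hM : ∀ b ∈ l, b ≤ M)
    (w : ℕ → ℝ) (U V : ℝ) (hU : 0 ≤ U) (hV : 0 ≤ V)
    (h1 : ∀ p ∈ pr y, (vl p l : ℝ) - U - padicValNat p (d - 1)! ≤ w p)
    (h2 : ∀ p ∈ pr M, y < p → ((G (y * 2 ^ (κ * gi y κ p)) l : ℝ) - V) / p - padicValNat p (d - 1)! ≤ w p) :
    Real.log ((l.map Nat.factorial).prod : ℝ) -
      (U * (y * Real.log 4) + 11 * (κ : ℝ) * ((l.filter (fun b => y < b)).sum : ℕ) +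
        V * (2 * Real.log 4 * (Nat.log 2 M + 1)) + Real.log ((d - 1)! : ℝ)) ≤
      ∑ p ∈ pr (max M y), w p * Real.log p := by
  have hlp := log_prod_eq l (max M y) (fun b hb => (hM b hb).trans (le_max_left _ _))
  rw [hlp, a7_split y M (fun p => (vl p l : ℝ) * Real.log p), a7_split y M (fun p => w p * Real.log p)]
  have hv := val_fact_sum_le (d - 1) (max M y)
  rw [a7_split y M (fun p => (padicValNat p (d - 1)! : ℝ) * Real.log p)] at hv
  -- the small primes
  have hs : ∑ p ∈ pr y, (vl p l : ℝ) * Real.log p ≤ ∑ p ∈ pr y, w p * Real.log p +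
      U * ∑ p ∈ pr y, Real.log p + ∑ p ∈ pr y, (padicValNat p (d - 1)! : ℝ) * Real.log p := by
    rw [Finset.mul_sum, ← Finset.sum_add_distrib, ← Finset.sum_add_distrib]
    refine Finset.sum_le_sum fun p hp => ?_
    have h3 := h1 p hp
    have h4 := a7_log_nonneg hp
    have h5 : (vl p l : ℝ) ≤ w p + U + padicValNat p (d - 1)! := by linarith
    calc (vl p l : ℝ) * Real.log p ≤ (w p + U + padicValNat p (d - 1)!) * Real.log p :=
          mul_le_mul_of_nonneg_right h5 h4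
      _ = _ := by ring
  have hth := theta_le y
  have hU' : U * ∑ p ∈ pr y, Real.log p ≤ U * (y * Real.log 4) := mul_le_mul_of_nonneg_left hth hU
  -- the large primes
  have hb : ∑ p ∈ (pr M).filter (fun p => y < p), (vl p l : ℝ) * Real.log p ≤
      ∑ p ∈ (pr M).filter (fun p => y < p),
        ((vl p l : ℝ) - (G (y * 2 ^ (κ * gi y κ p)) l : ℝ) / p) * Real.log p +
      ∑ p ∈ (pr M).filter (fun p => y < p), w p * Real.log p +
      V * ∑ p ∈ (pr M).filter (fun p => y < p), Real.log p / p +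
      ∑ p ∈ (pr M).filter (fun p => y < p), (padicValNat p (d - 1)! : ℝ) * Real.log p := by
    rw [Finset.mul_sum, ← Finset.sum_add_distrib, ← Finset.sum_add_distrib, ← Finset.sum_add_distrib]
    refine Finset.sum_le_sum fun p hp => ?_
    obtain ⟨hpM, hyp⟩ := Finset.mem_filter.1 hp
    have h3 := h2 p hpM hyp
    have h4 := a7_log_nonneg hpM
    have h5 : (G (y * 2 ^ (κ * gi y κ p)) l : ℝ) / p ≤ w p + V / p + padicValNat p (d - 1)! := by
      rw [sub_div] at h3
      linarith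
    have h6 : (G (y * 2 ^ (κ * gi y κ p)) l : ℝ) / p * Real.log p ≤
        (w p + V / p + padicValNat p (d - 1)!) * Real.log p := mul_le_mul_of_nonneg_right h5 h4
    have h7 : V * (Real.log p / p) = V / p * Real.log p := by ring
    rw [h7]
    linarith
  have hll := loss_list y κ M l hy hκ
  have hld : ∑ p ∈ (pr M).filter (fun p => y < p), Real.log p / p ≤
      2 * Real.log 4 * (Nat.log 2 M + 1) := by
    refine le_trans ?_ (sum_log_div_le M)
    refine Finset.sum_le_sum_of_subset_of_nonneg (Finset.filter_subset _ _) ?_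
    intro p hp _
    exact div_nonneg (a7_log_nonneg hp) (Nat.cast_nonneg _)
  have hV' := mul_le_mul_of_nonneg_left hld hV
  linarith

/-- [HSP-A7b] PROOF. `En y l = ∑_{p ∈ pr y} vl p l log p ≤ ∑ (w p + U + v_p((d-1)!)) log p`; `theta_le`, `val_fact_sum_le`. -/
theorem W0_ge (y d : ℕ) (l : List ℕ) (w : ℕ → ℝ) (U : ℝ) (hU : 0 ≤ U)
    (h1 : ∀ p ∈ pr y, (vl p l : ℝ) - U - padicValNat p (d - 1)! ≤ w p) :
    En y l - (U * (y * Real.log 4) + Real.log ((d - 1)! : ℝ)) ≤ ∑ p ∈ pr y, w p * Real.log p := by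
  have hv := val_fact_sum_le (d - 1) y
  have hs : En y l ≤ ∑ p ∈ pr y, w p * Real.log p +
      U * ∑ p ∈ pr y, Real.log p + ∑ p ∈ pr y, (padicValNat p (d - 1)! : ℝ) * Real.log p := by
    rw [En, Finset.mul_sum, ← Finset.sum_add_distrib, ← Finset.sum_add_distrib]
    refine Finset.sum_le_sum fun p hp => ?_
    have h3 := h1 p hp
    have h4 := a7_log_nonneg hp
    have h5 : (vl p l : ℝ) ≤ w p + U + padicValNat p (d - 1)! := by linarith
    calc (vl p l : ℝ) * Real.log p ≤ (w p + U + padicValNat p (d - 1)!) * Real.log p :=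
          mul_le_mul_of_nonneg_right h5 h4
      _ = _ := by ring
  have hU' : U * ∑ p ∈ pr y, Real.log p ≤ U * (y * Real.log 4) :=
    mul_le_mul_of_nonneg_left (theta_le y) hU
  linarith

end HSP
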