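import Pool.Agent.HSP.A1
import Pool.Agent.HSP.A7

set_option autoImplicit false

open scoped Nat

namespace HSP

theorem a10a_prod (p : ℕ) (hp : p.Prime) (l : List ℕ) :
    padicValNat p (l.map Nat.factorial).prod = vl p l ∧ (l.map Nat.factorial).prod ≠ 0 := by
  have : Fact p.Prime := ⟨hp⟩
  induction l with
  | nil => simp [vl_nil]
  | cons b l ih =>
    rw [List.map_cons, List.prod_cons, vl_cons, padicValNat.mul (Nat.factorial_ne_zero b) ih.2, ih.1]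
    exact ⟨rfl, mul_ne_zero (Nat.factorial_ne_zero b) ih.2⟩

/-- [HSP-A10a] PROOF. `Sol.eq`, multiplicativity of `padicValNat` (as in `HK.val_prod`, Pool/Agent/HK/D2.lean). -/
theorem val_desc {n d : ℕ} {l : List ℕ} (h : Sol n d l) (p : ℕ) (hp : p.Prime) :
    padicValNat p (n.descFactorial d) = vl p l := by
  rw [h.eq]
  exact (a10a_prod p hp l).1

/-- [HSP-A10b] PROOF. If `w ≤ 0` take `e = 0`. Otherwise `e = v_p(n - j)`: `p ^ e ∣ n - j` (`pow_padicValNat_dvd`), `(n - j : ℕ)` casts to `(n : ℤ) - j` as `j < d ≤ n`. -/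
theorem hdiv_of {n d p j : ℕ} (hp : p.Prime) (hn : 2 * d < n) (hj : j < d)
    (hv : padicValNat p (n.descFactorial d) ≤ padicValNat p (n - j) + padicValNat p (d - 1)!) (w : ℝ)
    (hw : w ≤ max 0 ((padicValNat p (n.descFactorial d) : ℝ) - padicValNat p (d - 1)!)) :
    ∃ e : ℕ, w ≤ e ∧ (p : ℤ) ^ e ∣ (n : ℤ) - j := by
  have : Fact p.Prime := ⟨hp⟩
  by_cases h0 : w ≤ 0
  · exact ⟨0, by simpa using h0, by simp⟩
  · push Not at h0
    refine ⟨padicValNat p (n - j), ?_, ?_⟩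
    · have h1 : w ≤ (padicValNat p (n.descFactorial d) : ℝ) - padicValNat p (d - 1)! := by
        rcases le_max_iff.1 hw with h | h
        · exact absurd h (not_le.2 h0)
        · exact h
      have h2 : (padicValNat p (n.descFactorial d) : ℝ) ≤
          (padicValNat p (n - j) : ℝ) + (padicValNat p (d - 1)! : ℝ) := by exact_mod_cast hv
      linarith
    · have h1 : ((n - j : ℕ) : ℤ) = (n : ℤ) - j := by omega
      rw [← h1]
      exact_mod_cast (pow_padicValNat_dvd (p := p) (n := n - j))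

/-- [HSP-A10] a cluster of solutions has few members.
PROOF. If `T = ∅` trivial. Weights: `w p = max 0 (u p - v_p((d-1)!))` for `p ≤ y`, `w p = max 0 (g (gi y κ p)/p - v_p((d-1)!))` for `p > y`. `S = pr (max M y)`, `S0 = pr y`.
For `n ∈ T`, `p ∈ S`: `w p ≤ max 0 (vl p (l n) - v_p((d-1)!))`, `vl p (l n) = v_p(n.descFactorial d)` (`val_desc`): for `p ≤ y` by `hu`; for `p > y` we have `p ≤ M`, `t = gi y κ p` satisfies `1 ≤ t ≤ Sx` (`one_le_gi`,
`gi_le` with `hSx`), `g t ≤ G (z_t) (l n) ≤ p vl p (l n)` (`vl_ge` with `p ≤ z_t`, `le_gi`). So `hdiv` of `pair_lemma` holds by `hdiv_of`.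
`W_ge`, `W0_ge` (for any `n ∈ T`), with `B = ∑_{b > y} b ≤ 2 En/(log y - 1) ≤ 4 e/(log y - 1)` (`sum_big_le`), `11 κ B ≤ 44 κ e/(log y - 1) ≤ e/8` (`352 κ ≤ log y - 1`):
`∑ w p log p ≥ log Π - (e/16 + e/8 + e/16 + e/32) ≥ d X - lam`, `lam = d δ + 1 + e (1/16 + 1/8 + 1/16 + 1/32) ≤ (23/64) e` (`log_desc_ge`, `log n ≥ X - δ`, `1 ≤ e/64`),
and `W0 ≥ e - e/16 - e/32 = (58/64) e ≥ 2 lam`, `d - 1 ≥ 1`. `pair_lemma`: `r ≤ d` or `r W0 ≤ 2 d X`, hence `r ≤ 2 d X 64/(58 e) ≤ 4 d X/e` (`X ≥ log n ≥ 0`). -/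
theorem cluster (T : Finset ℕ) (d y κ M Sx : ℕ) (l : ℕ → List ℕ) (hl : ∀ n ∈ T, Sol n d (l n))
    (hM : ∀ n ∈ T, ∀ b ∈ l n, b ≤ M) (hy : 2 ≤ y) (hκ : 1 ≤ κ) (hκy : 352 * (κ : ℝ) ≤ Real.log y - 1)
    (hSx : M ≤ y * 2 ^ (κ * Sx))
    (j : ℕ → ℕ → ℕ) (hj : ∀ p, p.Prime → ∀ n ∈ T, j p n < d ∧
      padicValNat p (n.descFactorial d) ≤ padicValNat p (n - j p n) + padicValNat p (d - 1)!)
    (hj0 : ∀ p ∈ pr y, ∀ n ∈ T, ∀ n' ∈ T, j p n = j p n')
    (u g : ℕ → ℝ) (U V e X δ : ℝ) (hU : 0 ≤ U) (hV : 0 ≤ V)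
    (hu : ∀ p ∈ pr y, ∀ n ∈ T, u p ≤ vl p (l n) ∧ (vl p (l n) : ℝ) ≤ u p + U)
    (hg : ∀ t, 1 ≤ t → t ≤ Sx → ∀ n ∈ T, g t ≤ G (y * 2 ^ (κ * t)) (l n) ∧ (G (y * 2 ^ (κ * t)) (l n) : ℝ) ≤ g t + V)
    (he : ∀ n ∈ T, e ≤ En y (l n) ∧ En y (l n) ≤ 2 * e)
    (hX : ∀ n ∈ T, Real.log n ≤ X ∧ X ≤ Real.log n + δ)
    (h1 : d * δ ≤ e / 16) (h2 : U * (y * Real.log 4) ≤ e / 16)
    (h3 : V * (2 * Real.log 4 * (Nat.log 2 M + 1)) ≤ e / 16)
    (h4 : Real.log ((d - 1)! : ℝ) ≤ e / 32) (h5 : 64 ≤ e) (h6 : ∀ n ∈ T, 2 * d ^ 2 ≤ n) :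
    (T.card : ℝ) ≤ max (d : ℝ) (4 * d * X / e) := by
  classical
  rcases Finset.eq_empty_or_nonempty T with hT | ⟨n₀, hn₀⟩
  · rw [hT, Finset.card_empty, Nat.cast_zero]
    exact le_max_of_le_left (Nat.cast_nonneg d)
  have hy1 : 1 ≤ y := by omega
  have hs := hl n₀ hn₀
  have hd := hs.two_le
  obtain ⟨w, hw⟩ : ∃ w : ℕ → ℝ, w = fun p => if p ≤ y then max 0 (u p - padicValNat p (d - 1)!) else
      max 0 (g (gi y κ p) / p - padicValNat p (d - 1)!) := ⟨_, rfl⟩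
  have hw1 : ∀ p, p ≤ y → w p = max 0 (u p - padicValNat p (d - 1)!) := by
    intro p hp
    rw [hw]
    exact if_pos hp
  have hw2 : ∀ p, y < p → w p = max 0 (g (gi y κ p) / p - padicValNat p (d - 1)!) := by
    intro p hp
    rw [hw]
    exact if_neg (not_le.2 hp)
  have hw0 : ∀ p, 0 ≤ w p := by
    intro p
    rcases le_or_gt p y with h | h
    · rw [hw1 p h]; exact le_max_left _ _
    · rw [hw2 p h]; exact le_max_left _ _
  have hgi : ∀ p, p ≤ M → y < p → 1 ≤ gi y κ p ∧ gi y κ p ≤ Sx := fun p hpM hyp =>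
    ⟨one_le_gi hy1 hκ hyp, gi_le (hpM.trans hSx)⟩
  have hA := W_ge y κ M d (l n₀) hy1 hκ (hM n₀ hn₀) w U V hU hV
    (by
      intro p hp
      rw [hw1 p (mem_pr.1 hp).1]
      have := (hu p hp n₀ hn₀).2
      exact le_max_of_le_right (by linarith))
    (by
      intro p hp hyp
      rw [hw2 p hyp]
      obtain ⟨a1, a2⟩ := hgi p (mem_pr.1 hp).1 hyp
      have h := (hg (gi y κ p) a1 a2 n₀ hn₀).2
      have hp0 : (0 : ℝ) < p := by exact_mod_cast (mem_pr.1 hp).2.pos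
      have h' : ((G (y * 2 ^ (κ * gi y κ p)) (l n₀) : ℝ) - V) / p ≤ g (gi y κ p) / p := by
        apply div_le_div_of_nonneg_right _ hp0.le
        linarith
      exact le_max_of_le_right (by linarith))
  have hB := W0_ge y d (l n₀) w U hU
    (by
      intro p hp
      rw [hw1 p (mem_pr.1 hp).1]
      have := (hu p hp n₀ hn₀).2
      exact le_max_of_le_right (by linarith))
  obtain ⟨Bs, hBs⟩ : ∃ Bs : ℝ, Bs = ((((l n₀).filter (fun b => y < b)).sum : ℕ) : ℝ) := ⟨_, rfl⟩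
  have hBig := sum_big_le (l n₀) y hy1
  rw [← hBs] at hA hBig
  have hBs0 : 0 ≤ Bs := by rw [hBs]; exact Nat.cast_nonneg _
  obtain ⟨he1, he2⟩ := he n₀ hn₀
  obtain ⟨hX1, hX2⟩ := hX n₀ hn₀
  have hdesc := log_desc_ge hs.lt (h6 n₀ hn₀)
  rw [← hs.eq] at hA
  have hloss : 11 * (κ : ℝ) * Bs ≤ e / 8 := by
    have a1 : 352 * (κ : ℝ) * Bs ≤ (Real.log y - 1) * Bs := mul_le_mul_of_nonneg_right hκy hBs0
    have a2 : Bs / 2 * (Real.log y - 1) = (Real.log y - 1) * Bs / 2 := by ring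
    linarith
  have hd0 : (0 : ℝ) ≤ d := Nat.cast_nonneg d
  have hdX : (d : ℝ) * X - d * δ ≤ d * Real.log n₀ := by
    have := mul_le_mul_of_nonneg_left hX2 hd0
    linarith
  have hW : d * X - 23 / 64 * e ≤ ∑ p ∈ pr (max M y), w p * Real.log p := by linarith
  have hW0 : 58 / 64 * e ≤ ∑ p ∈ pr y, w p * Real.log p := by linarith
  have hd1 : (1 : ℝ) ≤ (d : ℝ) - 1 := by
    have : (2 : ℝ) ≤ d := by exact_mod_cast hd
    linarith
  have hlam : 2 * (23 / 64 * e) ≤ ((d : ℝ) - 1) * ∑ p ∈ pr y, w p * Real.log p := by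
    have a1 : 0 ≤ ∑ p ∈ pr y, w p * Real.log p := by linarith
    have a2 : 1 * ∑ p ∈ pr y, w p * Real.log p ≤ ((d : ℝ) - 1) * ∑ p ∈ pr y, w p * Real.log p :=
      mul_le_mul_of_nonneg_right hd1 a1
    linarith
  have hn0 : (1 : ℝ) ≤ n₀ := by
    have := hs.lt
    exact_mod_cast (by omega : 1 ≤ n₀)
  have hX0 : 0 ≤ X := (Real.log_nonneg hn0).trans hX1
  rcases pair_lemma T (pr (max M y)) (pr y) (fun p hp => (mem_pr.1 hp).2) (pr_mono (le_max_right _ _)) d hd j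
    (fun p hp n hn => (hj p (mem_pr.1 hp).2 n hn).1) hj0 w (fun p _ => hw0 p)
    (by
      intro p hp n hn
      have hpp := (mem_pr.1 hp).2
      have hp0 : (0 : ℝ) < p := by exact_mod_cast hpp.pos
      refine hdiv_of hpp (hl n hn).lt (hj p hpp n hn).1 (hj p hpp n hn).2 (w p) ?_
      rw [val_desc (hl n hn) p hpp]
      rcases le_or_gt p y with h | h
      · rw [hw1 p h]
        have := (hu p (mem_pr.2 ⟨h, hpp⟩) n hn).1
        exact max_le_max le_rfl (by linarith)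
      · rw [hw2 p h]
        have hpM : p ≤ M := by
          rcases le_max_iff.1 (mem_pr.1 hp).1 with h' | h'
          · exact h'
          · omega
        obtain ⟨a1, a2⟩ := hgi p hpM h
        have b1 := (hg (gi y κ p) a1 a2 n hn).1
        have b2 := vl_ge p (y * 2 ^ (κ * gi y κ p)) (l n) hpp (le_gi hy1 hκ)
        have b3 : g (gi y κ p) / p ≤ (G (y * 2 ^ (κ * gi y κ p)) (l n) : ℝ) / p :=
          div_le_div_of_nonneg_right b1 hp0.le
        exact max_le_max le_rfl (by linarith))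
    X (23 / 64 * e) (fun n hn => (hX n hn).1) hW hlam with h | h
  · exact le_max_of_le_left h
  · apply le_max_of_le_right
    have he0 : 0 < e := by linarith
    rw [le_div_iff₀ he0]
    have a1 : (T.card : ℝ) * (58 / 64 * e) ≤ (T.card : ℝ) * ∑ p ∈ pr y, w p * Real.log p :=
      mul_le_mul_of_nonneg_left hW0 (Nat.cast_nonneg _)
    have a2 : 0 ≤ (d : ℝ) * X := mul_nonneg hd0 hX0
    linarith

end HSP
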