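import Pool.Agent.HSP.Defs

set_option autoImplicit false

open scoped Nat

namespace HSP

theorem a2_prod {p : ℕ} (hp : p.Prime) (f : ℕ → ℕ) (k : ℕ) (hf : ∀ i < k, f i ≠ 0) :
    padicValNat p (∏ i ∈ Finset.range k, f i) = ∑ i ∈ Finset.range k, padicValNat p (f i) := by
  have : Fact p.Prime := ⟨hp⟩
  induction k with
  | zero => simp
  | succ k ih =>
    rw [Finset.prod_range_succ, Finset.sum_range_succ, padicValNat.mul, ih]
    · intro i hi; exact hf i (by omega)
    · rw [Finset.prod_ne_zero_iff]
      intro i hi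
      exact hf i (by have := Finset.mem_range.mp hi; omega)
    · exact hf k (by omega)

/-- [HSP-A2] all but `v_p((t-1)!)` of `v_p(n (n-1) ... (n-t+1))` sits in one factor.
PROOF. (compare `HK.exists_divisible` in Pool/Agent/HK/D5.lean, which has the weaker loss `t`) Let `j < t` maximise `v_p(n - j)`. For `i ≠ j`, `v_p(n - i) ≤ v_p(n - j)`, hence
`p ^ v_p(n-i)` divides `(n - i) - (n - j)`, so `v_p(n - i) ≤ v_p(|i - j|)`. Sum over `i ≠ j`: `∑_{i<j} v_p(j - i) + ∑_{j<i<t} v_p(i - j) = v_p(j!) + v_p((t-1-j)!) = v_p(j! (t-1-j)!)`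
`≤ v_p((t-1)!)`, because `j! (t-1-j)!` divides `(t-1)!` (`Nat.factorial_mul_factorial_dvd_factorial`). `n.descFactorial t = ∏ i ∈ range t, (n - i)` (`Nat.descFactorial_eq_prod_range`). -/
theorem exists_dvd {p n t : ℕ} (hp : p.Prime) (ht : 0 < t) (htn : t < n) :
    ∃ j < t, padicValNat p (n.descFactorial t) ≤ padicValNat p (n - j) + padicValNat p (t - 1)! := by
  have : Fact p.Prime := ⟨hp⟩
  obtain ⟨j, hj, hmax⟩ := Finset.exists_max_image (Finset.range t) (fun i => padicValNat p (n - i))
    ⟨0, Finset.mem_range.mpr ht⟩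
  have hjt := Finset.mem_range.mp hj
  refine ⟨j, hjt, ?_⟩
  rw [Nat.descFactorial_eq_prod_range, a2_prod hp _ _ (fun i hi => by omega)]
  obtain ⟨m, rfl⟩ : ∃ m, t = j + (m + 1) := ⟨t - j - 1, by omega⟩
  rw [Finset.sum_range_add, Finset.sum_range_succ', add_zero]
  have h1 : ∑ i ∈ Finset.range j, padicValNat p (n - i) ≤ padicValNat p j ! := by
    rw [← Nat.descFactorial_self j, Nat.descFactorial_eq_prod_range,
      a2_prod hp _ _ (fun i hi => by omega)]
    apply Finset.sum_le_sum
    intro i hi
    have hij := Finset.mem_range.mp hi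
    have h2 : padicValNat p (n - i) ≤ padicValNat p (n - j) := hmax i (Finset.mem_range.mpr (by omega))
    have h3 : p ^ padicValNat p (n - i) ∣ n - i := pow_padicValNat_dvd
    have h4 : p ^ padicValNat p (n - i) ∣ n - j := (pow_dvd_pow p h2).trans pow_padicValNat_dvd
    have h5 : p ^ padicValNat p (n - i) ∣ j - i := by
      have := Nat.dvd_sub h3 h4
      rwa [show n - i - (n - j) = j - i by omega] at this
    exact (padicValNat_dvd_iff_le (by omega)).mp h5
  have h2 : ∑ i ∈ Finset.range m, padicValNat p (n - (j + (i + 1))) ≤ padicValNat p m ! := by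
    rw [← Finset.prod_range_add_one_eq_factorial, a2_prod hp _ _ (fun i hi => by omega)]
    apply Finset.sum_le_sum
    intro i hi
    have hij := Finset.mem_range.mp hi
    have h2 : padicValNat p (n - (j + (i + 1))) ≤ padicValNat p (n - j) :=
      hmax (j + (i + 1)) (Finset.mem_range.mpr (by omega))
    have h3 : p ^ padicValNat p (n - (j + (i + 1))) ∣ n - (j + (i + 1)) := pow_padicValNat_dvd
    have h4 : p ^ padicValNat p (n - (j + (i + 1))) ∣ n - j :=
      (pow_dvd_pow p h2).trans pow_padicValNat_dvd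
    have h5 : p ^ padicValNat p (n - (j + (i + 1))) ∣ i + 1 := by
      have := Nat.dvd_sub h4 h3
      rwa [show n - j - (n - (j + (i + 1))) = i + 1 by omega] at this
    exact (padicValNat_dvd_iff_le (by omega)).mp h5
  have h3 : padicValNat p j ! + padicValNat p m ! ≤ padicValNat p (j + m)! := by
    rw [← padicValNat.mul (Nat.factorial_ne_zero j) (Nat.factorial_ne_zero m)]
    have h4 : p ^ padicValNat p (j ! * m !) ∣ (j + m)! :=
      pow_padicValNat_dvd.trans (Nat.factorial_mul_factorial_dvd_factorial_add j m)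
    exact (padicValNat_dvd_iff_le (Nat.factorial_ne_zero _)).mp h4
  have h5 : j + (m + 1) - 1 = j + m := by omega
  rw [h5]
  omega

end HSP
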