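import Mathlib

set_option autoImplicit false

namespace HSP

/-- the strictly increasing sequence attached to a non-increasing one -/
def a8_h {S Q : ℕ} (f : Fin S → Fin (Q + 1)) (j : Fin S) : Fin (S + Q) :=
  ⟨(f (Fin.rev j)).1 + j.1, by
    have h1 := (f (Fin.rev j)).2
    have h2 := j.2
    omega⟩

theorem a8_strictMono {S Q : ℕ} {f : Fin S → Fin (Q + 1)} (hf : Antitone f) :
    StrictMono (a8_h f) := by
  intro j k hjk
  have h1 : Fin.rev k ≤ Fin.rev j := Fin.rev_le_rev.2 hjk.le
  have h2 : (f (Fin.rev j)).1 ≤ (f (Fin.rev k)).1 := hf h1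
  have h3 : j.1 < k.1 := hjk
  show (f (Fin.rev j)).1 + j.1 < (f (Fin.rev k)).1 + k.1
  omega

theorem a8_inj {S Q : ℕ} {f g : Fin S → Fin (Q + 1)} (h : a8_h f = a8_h g) : f = g := by
  funext i
  have h1 := congrFun h (Fin.rev i)
  have h2 : (f (Fin.rev (Fin.rev i))).1 + (Fin.rev i).1 = (g (Fin.rev (Fin.rev i))).1 + (Fin.rev i).1 :=
    congrArg Fin.val h1
  rw [Fin.rev_rev] at h2
  exact Fin.ext (Nat.add_right_cancel h2)

/-- [HSP-A8] counting non-increasing sequences.
PROOF. The map `f ↦ {f i + (S - 1 - i) | i < S}` (a subset of `{0, ..., Q + S - 1}`) is injective, because `i ↦ f i + (S - 1 - i)` is strictly decreasing and a strictly monotone function on a finite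
linear order is determined by its range (`StrictMono.range_inj` for the reversed order). There are `2^(S+Q)` subsets. -/
theorem card_antitone (S Q : ℕ) : Nat.card {f : Fin S → Fin (Q + 1) // Antitone f} ≤ 2 ^ (S + Q) := by
  classical
  have hinj : Function.Injective (fun f : {f : Fin S → Fin (Q + 1) // Antitone f} =>
      (Finset.univ.image (a8_h f.1) : Finset (Fin (S + Q)))) := by
    intro f g hfg
    have h1 : Set.range (a8_h f.1) = Set.range (a8_h g.1) := by
      have h2 := congrArg (fun s : Finset (Fin (S + Q)) => (s : Set (Fin (S + Q)))) hfg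
      simpa only [Finset.coe_image, Finset.coe_univ, Set.image_univ] using h2
    exact Subtype.ext (a8_inj (((a8_strictMono f.2).range_inj (a8_strictMono g.2)).1 h1))
  have h1 := Nat.card_le_card_of_injective _ hinj
  rw [Nat.card_eq_fintype_card (α := Finset (Fin (S + Q))), Fintype.card_finset,
    Fintype.card_fin] at h1
  exact h1

end HSP
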