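import Pool.Agent.HSP.A3

set_option autoImplicit false

open scoped Nat

namespace HSP

theorem a9a_En_nonneg (y : ℕ) (l : List ℕ) : 0 ≤ En y l := by
  refine Finset.sum_nonneg fun p hp => ?_
  have h1 := (mem_pr.1 hp).2.one_le
  exact mul_nonneg (Nat.cast_nonneg _) (Real.log_nonneg (by exact_mod_cast h1))

theorem a9a_log_two : (0.6931 : ℝ) < Real.log 2 := by
  have := Real.log_two_gt_d9
  linarith

/-- [HSP-A9a] PROOF. `d log n - 1 ≤ log Π ≤ (∑ b) log M ≤ (3/log 2) En log M` (`log_desc_ge`, `log_prod_le`, `sum_le_En`, `3/log 2 < 4.4`), and `1 ≤ d log n/2`. -/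
theorem En_lower {n d y M : ℕ} {l : List ℕ} (h : Sol n d l) (hy : 2 ≤ y) (hM : ∀ b ∈ l, b ≤ M) (h2 : 2 * d ^ 2 ≤ n) :
    (d : ℝ) * Real.log n ≤ 10 * En y l * Real.log M := by
  have h1 := log_desc_ge h.lt h2
  have h3 := log_prod_le l M hM h.mem
  have h4 := sum_le_En l y hy h.mem
  rw [h.eq] at h1
  have hl2 := a9a_log_two
  have hE := a9a_En_nonneg y l
  -- `M ≥ 2`
  obtain ⟨b, hb⟩ := List.exists_mem_of_ne_nil l h.ne
  have hM2 : 2 ≤ M := (h.mem b hb).trans (hM b hb)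
  have hlM : 0 ≤ Real.log M := Real.log_nonneg (by
    have : 1 ≤ M := by omega
    exact_mod_cast this)
  -- `log n ≥ 1`
  have hn5 : 5 ≤ n := by
    have := h.two_le
    have := h.lt
    omega
  have hlogn : 1 ≤ Real.log n := by
    rw [Real.le_log_iff_exp_le (by positivity)]
    have h5 : (5 : ℝ) ≤ n := by exact_mod_cast hn5
    have := Real.exp_one_lt_d9
    linarith
  have hd : (2 : ℝ) ≤ d := by exact_mod_cast h.two_le
  have h6 : 1 ≤ (d : ℝ) * Real.log n / 2 := by nlinarith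
  have h7 : (((l.sum : ℕ) : ℝ)) * Real.log M * (Real.log 2 / 3) ≤ En y l * Real.log M := by
    calc (((l.sum : ℕ) : ℝ)) * Real.log M * (Real.log 2 / 3)
        = (((l.sum : ℕ) : ℝ)) * (Real.log 2 / 3) * Real.log M := by ring
      _ ≤ En y l * Real.log M := mul_le_mul_of_nonneg_right h4 hlM
  have h8 : (d : ℝ) * Real.log n / 2 ≤ ((l.sum : ℕ) : ℝ) * Real.log M := by linarith
  have h9 : 0 ≤ (d : ℝ) * Real.log n / 2 := by linarith
  have h10 : (d : ℝ) * Real.log n / 2 * (Real.log 2 / 3) ≤ En y l * Real.log M :=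
    le_trans (mul_le_mul_of_nonneg_right h8 (by linarith)) h7
  have h11 : (d : ℝ) * Real.log n / 2 * (0.6931 / 3) ≤ (d : ℝ) * Real.log n / 2 * (Real.log 2 / 3) :=
    mul_le_mul_of_nonneg_left (by linarith) h9
  have h12 : 0 ≤ En y l * Real.log M := mul_nonneg hE hlM
  nlinarith

theorem a9_asym (C0 : ℝ) (hC0 : 1 ≤ C0) : ∃ N0 : ℕ, ∀ n : ℕ, N0 ≤ n →
    2 * C0 + 3 ≤ Real.log n ∧ (1280 * C0 + 2 * C0 ^ 2) * Real.log (Real.log n) ^ 2 ≤ Real.log n := by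
  have h1 : ∀ᶠ x : ℝ in Filter.atTop, (1280 * C0 + 2 * C0 ^ 2) * Real.log x ^ 2 ≤ x := by
    have h2 : (fun x : ℝ => Real.log x ^ 2) =o[Filter.atTop] (id : ℝ → ℝ) :=
      Real.isLittleO_pow_log_id_atTop
    have hB : 0 < 1280 * C0 + 2 * C0 ^ 2 := by positivity
    have h3 := h2.def (c := (1280 * C0 + 2 * C0 ^ 2)⁻¹) (by positivity)
    filter_upwards [h3, Filter.eventually_ge_atTop 0] with x hx hx0
    rw [Real.norm_eq_abs, Real.norm_eq_abs, id, abs_of_nonneg hx0, abs_of_nonneg (sq_nonneg _),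
      inv_mul_eq_div, le_div_iff₀ hB] at hx
    linarith
  have h4 : Filter.Tendsto (fun n : ℕ => Real.log n) Filter.atTop Filter.atTop :=
    Real.tendsto_log_atTop.comp tendsto_natCast_atTop_atTop
  have h5 := (h4.eventually ((Filter.eventually_ge_atTop (2 * C0 + 3)).and h1))
  exact Filter.eventually_atTop.1 h5

theorem a9_exp {u : ℝ} (h0 : 0 ≤ u) (h1 : u ≤ 1 / 2) : Real.exp u ≤ 1 + 2 * u := by
  have h2 := Real.exp_bound_div_one_sub_of_interval h0 (by linarith)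
  refine h2.trans ?_
  rw [div_le_iff₀ (by linarith)]
  nlinarith

/-- [HSP-A9] the asymptotic facts about one solution. Notation `Xm = exp ((m+1)/K)`, `M = ⌊C0 Xm⌋₊`, `e = 2^h`.
PROOF. `log log n ∈ [m/K, (m+1)/K)`, so `log n < Xm ≤ exp(1/K) log n ≤ (1 + 2/K) log n` (`K ≥ 2`). `b ≤ l.sum ≤ C0 log n ≤ C0 Xm` gives `b ≤ M`; `M ≤ C0 Xm ≤ 2 C0 log n`, `Λ := log (2 C0 log n) ≥ log M`.
`En_lower`: `e > En/2 ≥ d log n/(20 Λ)`. (4) `d (2 log n/K) ≤ d log n/(320 Λ) ≤ e/16` as `K ≥ 640 Λ`. (5) `log (d-1)! ≤ d log d ≤ d log (C0 log log n) ≤ e/32` if `log (C0 log log n) ≤ log n/(640 Λ)`, true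
for `n ≥ N0(C0)`. (6) `64 ≤ d log n/(20 Λ)` for `n ≥ N0`. (7) `2 (C0 log log n)² ≤ n`. (8) `4 d Xm ≤ 8 d log n ≤ 160 Λ e`. -/
theorem facts (C0 : ℝ) (hC0 : 1 ≤ C0) : ∃ N0 : ℕ, ∀ (n d : ℕ) (l : List ℕ) (y K m h : ℕ), N0 ≤ n → Sol n d l →
    (d : ℝ) ≤ C0 * Real.log (Real.log n) → ((l.sum : ℕ) : ℝ) ≤ C0 * Real.log n → 2 ≤ y →
    640 * Real.log (2 * C0 * Real.log n) ≤ K → (m : ℝ) ≤ K * Real.log (Real.log n) →
    K * Real.log (Real.log n) < m + 1 → (2 : ℝ) ^ h ≤ En y l → En y l < 2 ^ (h + 1) →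
    (Real.log n ≤ Real.exp (((m : ℝ) + 1) / K) ∧ Real.exp (((m : ℝ) + 1) / K) ≤ Real.log n + 2 * Real.log n / K) ∧
    (∀ b ∈ l, b ≤ ⌊C0 * Real.exp (((m : ℝ) + 1) / K)⌋₊) ∧
    (⌊C0 * Real.exp (((m : ℝ) + 1) / K)⌋₊ : ℝ) ≤ 2 * C0 * Real.log n ∧
    (d : ℝ) * (2 * Real.log n / K) ≤ 2 ^ h / 16 ∧
    Real.log ((d - 1)! : ℝ) ≤ 2 ^ h / 32 ∧ (64 : ℝ) ≤ 2 ^ h ∧ 2 * d ^ 2 ≤ n ∧
    4 * (d : ℝ) * Real.exp (((m : ℝ) + 1) / K) ≤ 160 * Real.log (2 * C0 * Real.log n) * 2 ^ h := by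
  obtain ⟨N0, hN0⟩ := a9_asym C0 hC0
  refine ⟨N0, ?_⟩
  intro n d l y K m h hn hS hd hsum hy hK hm1 hm2 he1 he2
  obtain ⟨hL1, hL2⟩ := hN0 n hn
  obtain ⟨L, hL⟩ : ∃ L, L = Real.log n := ⟨_, rfl⟩
  rw [← hL] at hL1 hL2 hd hsum hK hm1 hm2 ⊢
  have hL3 : 3 ≤ L := by linarith
  have hLpos : 0 < L := by linarith
  obtain ⟨LL, hLL⟩ : ∃ LL, LL = Real.log L := ⟨_, rfl⟩
  rw [← hLL] at hL2 hd hm1 hm2
  have hLL1 : 1 ≤ LL := by
    rw [hLL, Real.le_log_iff_exp_le hLpos]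
    have := Real.exp_one_lt_d9
    linarith
  obtain ⟨Λ, hΛ⟩ : ∃ Λ, Λ = Real.log (2 * C0 * L) := ⟨_, rfl⟩
  rw [← hΛ] at hK ⊢
  have hΛ2 : Λ ≤ 2 * LL := by
    rw [hΛ, hLL]
    have h1 : Real.log (2 * C0 * L) ≤ Real.log (L * L) := by
      apply Real.log_le_log (by positivity)
      apply mul_le_mul_of_nonneg_right _ hLpos.le
      linarith
    rw [Real.log_mul hLpos.ne' hLpos.ne'] at h1
    linarith
  have hΛ1 : 1 / 2 ≤ Λ := by
    have h1 : Real.log 2 ≤ Λ := by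
      rw [hΛ]
      apply Real.log_le_log (by norm_num)
      nlinarith
    have h2 := Real.log_two_gt_d9
    linarith
  have hΛpos : 0 < Λ := by linarith
  have hKpos : (320 : ℝ) ≤ K := by linarith
  have hK0 : (0 : ℝ) < K := by linarith
  have hd2 : (2 : ℝ) ≤ d := by exact_mod_cast hS.two_le
  have hdpos : (0 : ℝ) < d := by linarith
  -- (1)
  obtain ⟨X, hX⟩ : ∃ X, X = Real.exp (((m : ℝ) + 1) / K) := ⟨_, rfl⟩
  rw [← hX]
  have hLexp : L = Real.exp LL := by rw [hLL, Real.exp_log hLpos]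
  have hX1 : L ≤ X := by
    rw [hX, hLexp]
    apply Real.exp_le_exp.2
    rw [le_div_iff₀ hK0]
    linarith
  have hX2 : X ≤ L + 2 * L / K := by
    have h1 : ((m : ℝ) + 1) / K = (m : ℝ) / K + 1 / K := by ring
    have h2 : Real.exp ((m : ℝ) / K) ≤ L := by
      rw [hLexp]
      apply Real.exp_le_exp.2
      rw [div_le_iff₀ hK0]
      linarith
    have h3 : Real.exp (1 / (K : ℝ)) ≤ 1 + 2 * (1 / (K : ℝ)) := by
      apply a9_exp (by positivity)
      rw [div_le_div_iff₀ hK0 (by norm_num)]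
      linarith
    rw [hX, h1, Real.exp_add]
    calc Real.exp ((m : ℝ) / K) * Real.exp (1 / (K : ℝ)) ≤ L * (1 + 2 * (1 / (K : ℝ))) :=
          mul_le_mul h2 h3 (Real.exp_pos _).le hLpos.le
      _ = L + 2 * L / K := by ring
  have hX3 : X ≤ 2 * L := by
    have h1 : 2 * L / K ≤ L := by
      rw [div_le_iff₀ hK0]
      nlinarith
    linarith
  have hXpos : 0 < X := by linarith
  -- (2)
  have hb : ∀ b ∈ l, b ≤ ⌊C0 * X⌋₊ := by
    intro b hb
    apply Nat.le_floor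
    have h1 : b ≤ l.sum := List.le_sum_of_mem hb
    have h2 : (b : ℝ) ≤ ((l.sum : ℕ) : ℝ) := by exact_mod_cast h1
    have h3 : C0 * L ≤ C0 * X := by gcongr
    linarith
  -- (3)
  have hM : (⌊C0 * X⌋₊ : ℝ) ≤ 2 * C0 * L := by
    have h1 : (⌊C0 * X⌋₊ : ℝ) ≤ C0 * X := Nat.floor_le (by positivity)
    have h2 : C0 * X ≤ C0 * (2 * L) := by gcongr
    linarith
  have hM2 : 2 ≤ ⌊C0 * X⌋₊ := by
    obtain ⟨b, hbl⟩ := List.exists_mem_of_ne_nil l hS.ne
    exact (hS.mem b hbl).trans (hb b hbl)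
  have hlogM : Real.log (⌊C0 * X⌋₊ : ℝ) ≤ Λ := by
    rw [hΛ]
    apply Real.log_le_log _ hM
    have : (2 : ℝ) ≤ (⌊C0 * X⌋₊ : ℝ) := by exact_mod_cast hM2
    linarith
  -- (7)
  have hC2 : 2 * C0 ^ 2 * LL ^ 2 ≤ L := by
    have h1 : 0 ≤ 1280 * C0 * LL ^ 2 := by positivity
    have h2 : (1280 * C0 + 2 * C0 ^ 2) * LL ^ 2 = 1280 * C0 * LL ^ 2 + 2 * C0 ^ 2 * LL ^ 2 := by ring
    linarith
  have hC1 : 1280 * C0 * LL ^ 2 ≤ L := by
    have h1 : 0 ≤ 2 * C0 ^ 2 * LL ^ 2 := by positivity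
    have h2 : (1280 * C0 + 2 * C0 ^ 2) * LL ^ 2 = 1280 * C0 * LL ^ 2 + 2 * C0 ^ 2 * LL ^ 2 := by ring
    linarith
  have hn7 : 2 * d ^ 2 ≤ n := by
    have h1 : (2 : ℝ) * (d : ℝ) ^ 2 ≤ n := by
      have h2 : (d : ℝ) ^ 2 ≤ (C0 * LL) ^ 2 := by gcongr
      have h3 : L ≤ n := by
        rw [hL]
        have hnn : (0 : ℝ) ≤ n := Nat.cast_nonneg n
        exact (Real.log_le_self hnn)
      nlinarith
    exact_mod_cast h1
  -- the main inequality
  have hEn := En_lower hS hy hb hn7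
  rw [← hL] at hEn
  have hEn0 : 0 ≤ En y l := le_trans (by positivity) he1
  have hmain : (d : ℝ) * L ≤ 20 * 2 ^ h * Λ := by
    have h1 : En y l ≤ 2 * 2 ^ h := by
      rw [pow_succ] at he2
      linarith
    calc (d : ℝ) * L ≤ 10 * En y l * Real.log (⌊C0 * X⌋₊ : ℝ) := hEn
      _ ≤ 10 * En y l * Λ := by gcongr
      _ ≤ 10 * (2 * 2 ^ h) * Λ := by gcongr
      _ = 20 * 2 ^ h * Λ := by ring
  have he0 : (0 : ℝ) < 2 ^ h := by positivity
  refine ⟨⟨hX1, hX2⟩, hb, hM, ?_, ?_, ?_, hn7, ?_⟩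
  · -- (4)
    have h1 : (d : ℝ) * (2 * L / K) = 2 * ((d : ℝ) * L) / K := by ring
    rw [h1, div_le_div_iff₀ hK0 (by norm_num)]
    have h2 : 2 * ((d : ℝ) * L) * 16 ≤ 640 * Λ * 2 ^ h := by nlinarith
    have h3 : 640 * Λ * 2 ^ h ≤ K * 2 ^ h := by gcongr
    linarith
  · -- (5)
    have h1 : Real.log ((d - 1)! : ℝ) ≤ (d : ℝ) * Real.log d := by
      have h2 : (d - 1)! ≤ d ^ d := by
        calc (d - 1)! ≤ (d - 1) ^ (d - 1) := Nat.factorial_le_pow _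
          _ ≤ d ^ (d - 1) := Nat.pow_le_pow_left (Nat.sub_le _ _) _
          _ ≤ d ^ d := Nat.pow_le_pow_right (by have := hS.two_le; omega) (Nat.sub_le _ _)
      have h3 : ((d - 1)! : ℝ) ≤ (d : ℝ) ^ d := by exact_mod_cast h2
      have h4 : (0 : ℝ) < ((d - 1)! : ℝ) := by exact_mod_cast Nat.factorial_pos _
      have h5 := Real.log_le_log h4 h3
      rwa [Real.log_pow] at h5
    have h6 : Real.log d ≤ C0 * LL := by
      have h7 : Real.log d ≤ d := Real.log_le_self hdpos.le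
      linarith
    have h8 : 640 * Λ * (C0 * LL) ≤ L := by
      have h9 : 640 * Λ * (C0 * LL) ≤ 640 * (2 * LL) * (C0 * LL) := by gcongr
      nlinarith
    have h10 : 640 * Λ * Real.log d ≤ L := by
      have h11 : 640 * Λ * Real.log d ≤ 640 * Λ * (C0 * LL) := by gcongr
      linarith
    have h12 : 640 * Λ * ((d : ℝ) * Real.log d) ≤ 20 * 2 ^ h * Λ := by
      have h13 : (d : ℝ) * (640 * Λ * Real.log d) ≤ (d : ℝ) * L := by gcongr
      have h14 : 640 * Λ * ((d : ℝ) * Real.log d) = (d : ℝ) * (640 * Λ * Real.log d) := by ring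
      linarith
    have h15 : Λ * (640 * ((d : ℝ) * Real.log d)) ≤ Λ * (20 * 2 ^ h) := by linarith
    have h16 := le_of_mul_le_mul_left h15 hΛpos
    linarith
  · -- (6)
    have h1 : 640 * Λ ≤ L := by
      have h2 : 640 * Λ ≤ 640 * (2 * LL) := by gcongr
      have h3 : LL ≤ LL ^ 2 := by nlinarith
      have h4 : LL ^ 2 ≤ C0 * LL ^ 2 := by nlinarith [sq_nonneg LL]
      nlinarith
    have h2 : 2 * L ≤ (d : ℝ) * L := by gcongr
    have h3 : Λ * (20 * 64) ≤ Λ * (20 * 2 ^ h) := by linarith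
    have h4 := le_of_mul_le_mul_left h3 hΛpos
    linarith
  · -- (8)
    have h1 : 4 * (d : ℝ) * X ≤ 4 * (d : ℝ) * (2 * L) := by gcongr
    linarith

/-- [HSP-A9c] the exponent `h` exists for large `n`: PROOF. `En y l ≥ 1` from `En_lower` as in `facts`, `h = Nat.log 2 ⌊En⌋₊`; -/
theorem exists_h (C0 : ℝ) (hC0 : 1 ≤ C0) : ∃ N0 : ℕ, ∀ (n d : ℕ) (l : List ℕ) (y : ℕ), N0 ≤ n → Sol n d l →
    (d : ℝ) ≤ C0 * Real.log (Real.log n) → ((l.sum : ℕ) : ℝ) ≤ C0 * Real.log n → 2 ≤ y →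
    ∃ h : ℕ, (2 : ℝ) ^ h ≤ En y l ∧ En y l < 2 ^ (h + 1) := by
  have hC : 0 < C0 := by linarith
  have hT : Filter.Tendsto (fun n : ℕ => Real.log (n : ℝ)) Filter.atTop Filter.atTop :=
    Real.tendsto_log_atTop.comp tendsto_natCast_atTop_atTop
  have e1 := hT.eventually (Real.isLittleO_log_id_atTop.bound (show (0 : ℝ) < 1 / 20 by norm_num))
  have e2 := (tendsto_natCast_atTop_atTop (R := ℝ)).eventually
    ((Real.isLittleO_pow_log_id_atTop (n := 2)).bound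
      (show (0 : ℝ) < 1 / (2 * C0 ^ 2) by positivity))
  have e3 := hT.eventually_ge_atTop (20 * Real.log C0 + 1)
  obtain ⟨N0, hN0⟩ := Filter.eventually_atTop.1 (e1.and (e2.and e3))
  refine ⟨N0, ?_⟩
  intro n d l y hn hS hd hl hy
  obtain ⟨f1, f2, f3⟩ := hN0 n hn
  have hlogC : 0 ≤ Real.log C0 := Real.log_nonneg hC0
  have hL : 1 ≤ Real.log n := by linarith
  have hn0 : (0 : ℝ) ≤ n := Nat.cast_nonneg n
  simp only [id_eq, Real.norm_eq_abs] at f1 f2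
  rw [abs_of_nonneg (by linarith : (0 : ℝ) ≤ Real.log n)] at f1
  rw [abs_of_nonneg (by positivity : (0 : ℝ) ≤ Real.log n ^ 2), abs_of_nonneg hn0] at f2
  have hdd : 2 * d ^ 2 ≤ n := by
    have h1 : (d : ℝ) ≤ C0 * Real.log n :=
      hd.trans (mul_le_mul_of_nonneg_left (Real.log_le_self (by linarith)) hC.le)
    have h2 : (d : ℝ) ^ 2 ≤ (C0 * Real.log n) ^ 2 :=
      pow_le_pow_left₀ (Nat.cast_nonneg d) h1 2
    have h3 : 2 * (d : ℝ) ^ 2 ≤ n := by
      rw [div_mul_eq_mul_div, one_mul, le_div_iff₀ (by positivity)] at f2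
      nlinarith
    exact_mod_cast h3
  have hM : ∀ b ∈ l, b ≤ l.sum := fun b hb => List.le_sum_of_mem hb
  have hMpos : 2 ≤ l.sum := by
    obtain ⟨b, hb⟩ := List.exists_mem_of_ne_nil l hS.ne
    exact (hS.mem b hb).trans (hM b hb)
  have h1 := En_lower hS hy hM hdd
  have hEn : 0 ≤ En y l := by
    unfold En
    apply Finset.sum_nonneg
    intro p hp
    apply mul_nonneg (Nat.cast_nonneg _)
    exact Real.log_natCast_nonneg p
  have h2 : Real.log (l.sum : ℕ) ≤ Real.log C0 + Real.log (Real.log n) := by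
    rw [← Real.log_mul hC.ne' (by linarith)]
    apply Real.log_le_log _ hl
    have : (0 : ℕ) < l.sum := by omega
    exact_mod_cast this
  have h3 : 10 * Real.log (l.sum : ℕ) ≤ Real.log n := by
    have h4 := le_abs_self (Real.log (Real.log n))
    linarith
  have h4 : Real.log n ≤ d * Real.log n := by
    have h5 : (2 : ℝ) ≤ d := by exact_mod_cast hS.two_le
    nlinarith
  have h5 : Real.log n ≤ En y l * Real.log n := by
    have h6 := mul_le_mul_of_nonneg_left h3 hEn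
    linarith
  have h6 : 1 ≤ En y l := by
    by_contra hcon
    rw [not_le] at hcon
    nlinarith
  exact exists_nat_pow_near h6 (by norm_num)

/-- [HSP-A9d] PROOF. `En y l ≤ log ∏ b! = log (n.descFactorial d) ≤ d log n` (`log_prod_eq` with `M = max y (max l)`; `Nat.descFactorial_le_pow`). -/
theorem En_upper {n d y : ℕ} {l : List ℕ} (h : Sol n d l) : En y l ≤ d * Real.log n := by
  have hM : ∀ b ∈ l, b ≤ y + l.sum := fun b hb =>
    (List.single_le_sum (fun _ _ => Nat.zero_le _) b hb).trans (Nat.le_add_left _ _)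
  have h1 := log_prod_eq l (y + l.sum) hM
  have h2 : En y l ≤ ∑ p ∈ pr (y + l.sum), (vl p l : ℝ) * Real.log p := by
    refine Finset.sum_le_sum_of_subset_of_nonneg (pr_mono (Nat.le_add_right _ _)) ?_
    intro p hp _
    have h1 := (mem_pr.1 hp).2.one_le
    exact mul_nonneg (Nat.cast_nonneg _) (Real.log_nonneg (by exact_mod_cast h1))
  rw [← h1, ← h.eq] at h2
  refine h2.trans ?_
  have hn : 0 < n := by
    have := h.lt
    omega
  have hpos : 0 < n.descFactorial d := by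
    rw [h.eq]
    apply Nat.pos_of_ne_zero
    rw [Ne, List.prod_eq_zero_iff]
    intro h0
    obtain ⟨b, -, hb⟩ := List.mem_map.1 h0
    exact Nat.factorial_ne_zero b hb
  have h3 : (n.descFactorial d : ℝ) ≤ (n : ℝ) ^ d := by exact_mod_cast Nat.descFactorial_le_pow n d
  calc Real.log (n.descFactorial d : ℝ) ≤ Real.log ((n : ℝ) ^ d) :=
        Real.log_le_log (by exact_mod_cast hpos) h3
    _ = d * Real.log n := Real.log_pow (n : ℝ) d

end HSP
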