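import Pool.Agent.HK.D4
import Pool.Agent.HSP.A2
import Pool.Agent.HSP.A8
import Pool.Agent.HSP.A9
import Pool.Agent.HSP.A10

set_option autoImplicit false

open scoped Nat

namespace HSP

/-- the pairs `(n, a₁)` with `N ≤ n ≤ x` occurring in a non-trivial solution -/
def PA (N x : ℕ) : Set (ℕ × ℕ) := {q | N ≤ q.1 ∧ q.1 ≤ x ∧ ∃ l, (q.1, q.2 :: l) ∈ N2e4138ab.S}

/-- the codes: `d`, the window of `log n`, the size of `En`, the classes `j_p` and the rounded exponents for `p ≤ y`, the rounded profile `G` -/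
abbrev Code (y D Km H Sx Q : ℕ) : Type :=
  Fin (D + 1) × Fin (Km + 1) × Fin (H + 1) × (Fin (y + 1) → Fin (D + 1)) × (Fin (y + 1) → Fin (96 * y + 1)) ×
    {f : Fin Sx → Fin (Q + 1) // Antitone f}

/-- [HSP-A11a] PROOF. `HK.S_basic` (Pool/Agent/HK/D1.lean). `d = n - a`, `n < 2 a` gives `2 d < n`. -/
theorem sol_of_S {n a : ℕ} {l : List ℕ} (h : (n, a :: l) ∈ N2e4138ab.S) : Sol n (n - a) l ∧ a + 2 ≤ n := by
  obtain ⟨a', l', h1, h2, h3, h4, h5, h6⟩ := HK.S_basic h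
  have h7 : a :: l = a' :: l' := h1
  injection h7 with h8 h9
  subst h8
  subst h9
  have h2' : a + 2 ≤ n := h2
  have h3' : n < 2 * a := h3
  refine ⟨⟨by omega, by omega, fun b hb => (h4 b hb).1, h5, h6⟩, h2'⟩

/-- [HSP-A11b] PROOF. `q.2 < q.1` by `sol_of_S`. -/
theorem PA_finite (N x : ℕ) : (PA N x).Finite := by
  refine Set.Finite.subset ((Set.finite_Iic x).prod (Set.finite_Iic x)) ?_
  rintro ⟨n, a⟩ ⟨_, h2, l, h3⟩
  have h4 := (sol_of_S h3).2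
  have h2' : n ≤ x := h2
  have h4' : a + 2 ≤ n := h4
  exact ⟨h2', Set.mem_Iic.2 (by show a ≤ x; omega)⟩

/-- [HSP-A11c] pigeonhole. PROOF. `Finset.card_le_mul_card_image` and `card (image) ≤ Nat.card Code`. -/
theorem ncard_le_of_code {α β : Type} [Finite β] (A : Set α) (hA : A.Finite) (code : α → β) (R : ℕ)
    (h : ∀ T : Finset α, (∀ q ∈ T, q ∈ A) → (∀ q ∈ T, ∀ q' ∈ T, code q = code q') → T.card ≤ R) :
    A.ncard ≤ R * Nat.card β := by
  classical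
  have hcard : A.ncard = hA.toFinset.card := Set.ncard_eq_toFinset_card A hA
  rw [hcard]
  have h1 := Finset.card_le_mul_card_image (f := code) hA.toFinset R (by
    intro c hc
    refine h _ ?_ ?_
    · intro q hq
      exact hA.mem_toFinset.1 (Finset.mem_filter.1 hq).1
    · intro q hq q' hq'
      rw [(Finset.mem_filter.1 hq).2, (Finset.mem_filter.1 hq').2])
  refine h1.trans (Nat.mul_le_mul_left R ?_)
  haveI : Fintype β := Fintype.ofFinite β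
  rw [Nat.card_eq_fintype_card]
  exact Finset.card_le_univ _

/-- [HSP-A11d] PROOF. products of cardinalities and `card_antitone`. -/
theorem card_Code (y D Km H Sx Q : ℕ) : Nat.card (Code y D Km H Sx Q) ≤
    (D + 1) * (Km + 1) * (H + 1) * (D + 1) ^ (y + 1) * (96 * y + 1) ^ (y + 1) * 2 ^ (Sx + Q) := by
  unfold Code
  rw [Nat.card_prod, Nat.card_prod, Nat.card_prod, Nat.card_prod, Nat.card_prod, Nat.card_fun,
    Nat.card_fun, Nat.card_fin, Nat.card_fin, Nat.card_fin, Nat.card_fin, Nat.card_fin]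
  have h1 := card_antitone Sx Q
  calc (D + 1) * ((Km + 1) * ((H + 1) * ((D + 1) ^ (y + 1) * ((96 * y + 1) ^ (y + 1) *
        Nat.card {f : Fin Sx → Fin (Q + 1) // Antitone f}))))
      ≤ (D + 1) * ((Km + 1) * ((H + 1) * ((D + 1) ^ (y + 1) * ((96 * y + 1) ^ (y + 1) *
        2 ^ (Sx + Q))))) := by gcongr
    _ = _ := by ring

theorem a11_G_le {y z : ℕ} (h : y ≤ z) (l : List ℕ) : G z l ≤ (l.filter (fun b => y < b)).sum := by
  induction l with
  | nil => simp [G_nil]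
  | cons b l ih =>
    rw [G_cons, List.filter_cons]
    by_cases hb : y < b
    · simp only [hb, decide_true, if_true, List.sum_cons]
      omega
    · simp only [hb, decide_false, Bool.false_eq_true, if_false]
      omega

/-- the data attached to one pair and its code -/
structure a11_P (C0 : ℝ) (y κ K D Km H Sx Q : ℕ) (q : ℕ × ℕ) (c : Code y D Km H Sx Q) (l : List ℕ) (j : ℕ → ℕ) (d m h : ℕ) :
    Prop where
  hd : (c.1 : ℕ) = d
  hm : (c.2.1 : ℕ) = m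
  hh : (c.2.2.1 : ℕ) = h
  sol : Sol q.1 d l
  sub : q.2 = q.1 - d
  hj : ∀ p, p.Prime → j p < d ∧ padicValNat p (q.1.descFactorial d) ≤ padicValNat p (q.1 - j p) + padicValNat p (d - 1)!
  cj : ∀ p : Fin (y + 1), (p : ℕ).Prime → j p = c.2.2.2.1 p
  cu : ∀ p : Fin (y + 1), (p : ℕ).Prime → ((2 : ℝ) ^ h / (32 * y)) * (c.2.2.2.2.1 p : ℕ) ≤ vl p l ∧
    (vl p l : ℝ) ≤ ((2 : ℝ) ^ h / (32 * y)) * (c.2.2.2.2.1 p : ℕ) + (2 : ℝ) ^ h / (32 * y)
  cg : ∀ i : Fin Sx, ((2 : ℝ) ^ h / (48 * ((Nat.log 2 ⌊C0 * Real.exp (((m : ℝ) + 1) / K)⌋₊ : ℝ) + 1))) * ((c.2.2.2.2.2.1 i : ℕ) : ℝ) ≤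
      G (y * 2 ^ (κ * ((i : ℕ) + 1))) l ∧
    (G (y * 2 ^ (κ * ((i : ℕ) + 1))) l : ℝ) ≤
      ((2 : ℝ) ^ h / (48 * ((Nat.log 2 ⌊C0 * Real.exp (((m : ℝ) + 1) / K)⌋₊ : ℝ) + 1))) * ((c.2.2.2.2.2.1 i : ℕ) : ℝ) +
      (2 : ℝ) ^ h / (48 * ((Nat.log 2 ⌊C0 * Real.exp (((m : ℝ) + 1) / K)⌋₊ : ℝ) + 1))
  e1 : (2 : ℝ) ^ h ≤ En y l
  e2 : En y l < 2 ^ (h + 1)
  f1 : Real.log q.1 ≤ Real.exp (((m : ℝ) + 1) / K)
  f2 : Real.exp (((m : ℝ) + 1) / K) ≤ Real.log q.1 + 2 * Real.log q.1 / K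
  f3 : ∀ b ∈ l, b ≤ ⌊C0 * Real.exp (((m : ℝ) + 1) / K)⌋₊
  f4 : (⌊C0 * Real.exp (((m : ℝ) + 1) / K)⌋₊ : ℝ) ≤ 2 * C0 * Real.log q.1
  f5 : (d : ℝ) * (2 * Real.log q.1 / K) ≤ 2 ^ h / 16
  f6 : Real.log ((d - 1)! : ℝ) ≤ 2 ^ h / 32
  f7 : (64 : ℝ) ≤ 2 ^ h
  f8 : 2 * d ^ 2 ≤ q.1
  f9 : 4 * (d : ℝ) * Real.exp (((m : ℝ) + 1) / K) ≤ 160 * Real.log (2 * C0 * Real.log q.1) * 2 ^ h

theorem a11_floor {U v : ℝ} (hU : 0 < U) (hv : 0 ≤ v) : U * (⌊v / U⌋₊ : ℝ) ≤ v ∧ v ≤ U * (⌊v / U⌋₊ : ℝ) + U := by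
  have h1 := Nat.floor_le (div_nonneg hv hU.le)
  have h2 := Nat.lt_floor_add_one (v / U)
  constructor
  · have := mul_le_mul_of_nonneg_left h1 hU.le
    rwa [mul_div_cancel₀ _ hU.ne'] at this
  · have := mul_le_mul_of_nonneg_left h2.le hU.le
    rw [mul_div_cancel₀ _ hU.ne'] at this
    linarith

/-- existence of the data for one pair -/
theorem a11_exists (C0 : ℝ) (hC0 : 1 ≤ C0) (N1 : ℕ)
    (hS : ∀ s ∈ N2e4138ab.S, N1 ≤ s.1 → ∀ a l, s.2 = a :: l →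
      ((s.1 : ℝ) - a) ≤ C0 * Real.log (Real.log s.1) ∧ ((l.sum : ℕ) : ℝ) ≤ C0 * Real.log s.1) :
    ∃ N : ℕ, 16 ≤ N ∧ ∀ x y κ K Sx Q D H Km : ℕ, 16 ≤ x → 2 ≤ y → 1 ≤ κ → 352 * (κ : ℝ) ≤ Real.log y - 1 →
      640 * Real.log (2 * C0 * Real.log x) ≤ K → K * Real.log (Real.log x) ≤ Km →
      C0 * Real.log (Real.log x) ≤ D → (D : ℝ) * Real.log x < 2 ^ (H + 1) →
      192 * ((Nat.log 2 ⌊2 * C0 * Real.log x⌋₊ : ℝ) + 1) / (Real.log y - 1) ≤ Q →
      ∀ q ∈ PA N x, ∃ (c : Code y D Km H Sx Q) (l : List ℕ) (j : ℕ → ℕ) (d m h : ℕ), a11_P C0 y κ K D Km H Sx Q q c l j d m h := by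
  obtain ⟨Nf, hf⟩ := facts C0 hC0
  obtain ⟨Nh, hh⟩ := exists_h C0 hC0
  refine ⟨max (max N1 16) (max Nf Nh), le_trans (le_max_right _ _) (le_max_left _ _), ?_⟩
  intro x y κ K Sx Q D H Km hx hy hκ hκy hK hKm hD hH hQ q hq
  obtain ⟨n, a⟩ := q
  obtain ⟨hqN, hqx, l, hl⟩ := hq
  simp only at hqN hqx hl
  have hN1 : N1 ≤ n := le_trans (le_trans (le_max_left _ _) (le_max_left _ _)) hqN
  have hn16 : 16 ≤ n := le_trans (le_trans (le_max_right _ _) (le_max_left _ _)) hqN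
  have hNf : Nf ≤ n := le_trans (le_trans (le_max_left _ _) (le_max_right _ _)) hqN
  have hNh : Nh ≤ n := le_trans (le_trans (le_max_right _ _) (le_max_right _ _)) hqN
  obtain ⟨hsol, ha⟩ := sol_of_S hl
  obtain ⟨hd1, hsum⟩ := hS (n, a :: l) hl hN1 a l rfl
  simp only at hd1 hsum
  obtain ⟨d, hdd⟩ : ∃ d : ℕ, d = n - a := ⟨_, rfl⟩
  rw [← hdd] at hsol
  have hdc : (d : ℝ) = (n : ℝ) - a := by
    rw [hdd, Nat.cast_sub (by omega)]
  rw [← hdc] at hd1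
  -- monotonicity
  have hlogn : 1 < Real.log n := by
    have h1 : Real.exp 1 < 16 := by
      have := Real.exp_one_lt_d9
      linarith
    have h2 : Real.exp 1 < (n : ℝ) := by
      have : (16 : ℝ) ≤ n := by exact_mod_cast hn16
      linarith
    rw [Real.lt_log_iff_exp_lt (by positivity)]
    exact h2
  have hloglog : 0 < Real.log (Real.log n) := Real.log_pos hlogn
  have hlx : Real.log n ≤ Real.log x := Real.log_le_log (by positivity) (by exact_mod_cast hqx)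
  have hllx : Real.log (Real.log n) ≤ Real.log (Real.log x) := Real.log_le_log (by linarith) hlx
  have hCx : 2 * C0 * Real.log n ≤ 2 * C0 * Real.log x := by nlinarith
  have hCn0 : 0 < 2 * C0 * Real.log n := by positivity
  have hlC : Real.log (2 * C0 * Real.log n) ≤ Real.log (2 * C0 * Real.log x) := Real.log_le_log hCn0 hCx
  obtain ⟨h, hh1, hh2⟩ := hh n d l y hNh hsol hd1 hsum hy
  obtain ⟨m, hmm⟩ : ∃ m : ℕ, m = ⌊(K : ℝ) * Real.log (Real.log n)⌋₊ := ⟨_, rfl⟩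
  have hK0 : (0 : ℝ) ≤ K := Nat.cast_nonneg K
  have hm1 : (m : ℝ) ≤ K * Real.log (Real.log n) := by
    rw [hmm]
    exact Nat.floor_le (by positivity)
  have hm2 : K * Real.log (Real.log n) < (m : ℝ) + 1 := by
    rw [hmm]
    exact Nat.lt_floor_add_one _
  obtain ⟨⟨f1, f2⟩, f3, f4, f5, f6, f7, f8, f9⟩ := hf n d l y K m h hNf hsol hd1 hsum hy (by linarith) hm1 hm2 hh1 hh2
  have hj : ∀ p : ℕ, ∃ i : ℕ, p.Prime → i < d ∧
      padicValNat p (n.descFactorial d) ≤ padicValNat p (n - i) + padicValNat p (d - 1)! := by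
    intro p
    by_cases hp : p.Prime
    · obtain ⟨i, hi, hi'⟩ := exists_dvd hp (t := d) (n := n) (by have := hsol.two_le; omega) (by have := hsol.lt; omega)
      exact ⟨i, fun _ => ⟨hi, hi'⟩⟩
    · exact ⟨0, fun h => absurd h hp⟩
  choose j hj using hj
  -- the bounds of the code
  have hdD : d ≤ D := by
    have : (d : ℝ) ≤ D := by
      refine hd1.trans (le_trans ?_ hD)
      exact mul_le_mul_of_nonneg_left hllx (by linarith)
    exact_mod_cast this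
  have hmK : m ≤ Km := by
    have : (m : ℝ) ≤ Km := hm1.trans (le_trans (mul_le_mul_of_nonneg_left hllx hK0) hKm)
    exact_mod_cast this
  have hhH : h < H + 1 := by
    have h1 : (2 : ℝ) ^ h < 2 ^ (H + 1) := by
      refine lt_of_le_of_lt (hh1.trans (En_upper hsol)) (lt_of_le_of_lt ?_ hH)
      exact mul_le_mul (by exact_mod_cast hdD) hlx (by linarith) (Nat.cast_nonneg D)
    exact (pow_lt_pow_iff_right₀ (by norm_num)).1 h1
  have hy0 : (0 : ℝ) < y := by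
    have : 0 < y := by omega
    exact_mod_cast this
  have he0 : (0 : ℝ) < 2 ^ h := by positivity
  have hU0 : (0 : ℝ) < 2 ^ h / (32 * y) := by positivity
  obtain ⟨M, hMd⟩ : ∃ M : ℕ, M = ⌊C0 * Real.exp (((m : ℝ) + 1) / K)⌋₊ := ⟨_, rfl⟩
  rw [← hMd] at f3 f4
  have hV0 : (0 : ℝ) < 2 ^ h / (48 * ((Nat.log 2 M : ℝ) + 1)) := by positivity
  have hu : ∀ p : ℕ, p ≤ y → p.Prime → ⌊(vl p l : ℝ) / (2 ^ h / (32 * y))⌋₊ < 96 * y + 1 := by
    intro p hpy hp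
    have h1 : (vl p l : ℝ) * Real.log p ≤ En y l := by
      refine Finset.single_le_sum (f := fun p => (vl p l : ℝ) * Real.log p) (fun i hi => ?_) (mem_pr.2 ⟨hpy, hp⟩)
      exact mul_nonneg (Nat.cast_nonneg _) (Real.log_natCast_nonneg _)
    have h2 : Real.log 2 ≤ Real.log p := Real.log_le_log (by norm_num) (by exact_mod_cast hp.two_le)
    have h3 : (0.6931471803 : ℝ) < Real.log 2 := Real.log_two_gt_d9
    have h4 : (vl p l : ℝ) * (2 / 3) ≤ 2 * 2 ^ h := by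
      have h5 : (vl p l : ℝ) * (2 / 3) ≤ (vl p l : ℝ) * Real.log p :=
        mul_le_mul_of_nonneg_left (by linarith) (Nat.cast_nonneg _)
      rw [pow_succ] at hh2
      linarith
    rw [Nat.lt_succ_iff]
    refine Nat.floor_le_of_le ?_
    rw [div_le_iff₀ hU0]
    push_cast
    have h6 : 96 * (y : ℝ) * (2 ^ h / (32 * y)) = 3 * 2 ^ h := by
      field_simp
      norm_num
    rw [h6]
    linarith
  have hM : Nat.log 2 M ≤ Nat.log 2 ⌊2 * C0 * Real.log x⌋₊ := by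
    refine Nat.log_mono_right ?_
    exact Nat.le_floor (f4.trans hCx)
  have hlogy : 0 < Real.log y - 1 := by
    have : (1 : ℝ) ≤ κ := by exact_mod_cast hκ
    linarith
  have hg : ∀ i : ℕ, ⌊(G (y * 2 ^ (κ * (i + 1))) l : ℝ) / (2 ^ h / (48 * ((Nat.log 2 M : ℝ) + 1)))⌋₊ < Q + 1 := by
    intro i
    have h1 : (G (y * 2 ^ (κ * (i + 1))) l : ℝ) ≤ ((l.filter (fun b => y < b)).sum : ℕ) := by
      exact_mod_cast a11_G_le (Nat.le_mul_of_pos_right y (by positivity)) l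
    have h2 := sum_big_le l y (by omega)
    have h3 : (G (y * 2 ^ (κ * (i + 1))) l : ℝ) * (Real.log y - 1) ≤ 4 * 2 ^ h := by
      have h4 := mul_le_mul_of_nonneg_right h1 hlogy.le
      rw [pow_succ] at hh2
      linarith
    rw [Nat.lt_succ_iff]
    refine Nat.floor_le_of_le ?_
    have h5 : (192 : ℝ) * ((Nat.log 2 M : ℝ) + 1) / (Real.log y - 1) ≤ Q := by
      refine le_trans ?_ hQ
      have : (Nat.log 2 M : ℝ) ≤ (Nat.log 2 ⌊2 * C0 * Real.log x⌋₊ : ℝ) := by exact_mod_cast hM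
      exact div_le_div_of_nonneg_right (by linarith) hlogy.le
    refine le_trans ?_ h5
    rw [div_le_div_iff₀ hV0 hlogy]
    have h6 : 192 * ((Nat.log 2 M : ℝ) + 1) * (2 ^ h / (48 * ((Nat.log 2 M : ℝ) + 1))) = 4 * 2 ^ h := by
      field_simp
      norm_num
    rw [h6]
    exact h3
  have hanti : Antitone (fun i : Fin Sx => (⟨_, hg i⟩ : Fin (Q + 1))) := by
    intro i i' hii
    show ⌊(G (y * 2 ^ (κ * ((i' : ℕ) + 1))) l : ℝ) / (2 ^ h / (48 * ((Nat.log 2 M : ℝ) + 1)))⌋₊ ≤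
      ⌊(G (y * 2 ^ (κ * ((i : ℕ) + 1))) l : ℝ) / (2 ^ h / (48 * ((Nat.log 2 M : ℝ) + 1)))⌋₊
    refine Nat.floor_le_floor ?_
    refine div_le_div_of_nonneg_right ?_ hV0.le
    have h7 : (i : ℕ) ≤ i' := hii
    have h8 : y * 2 ^ (κ * ((i : ℕ) + 1)) ≤ y * 2 ^ (κ * ((i' : ℕ) + 1)) := by
      refine Nat.mul_le_mul_left y (Nat.pow_le_pow_right (by norm_num) (Nat.mul_le_mul_left κ (by omega)))
    exact_mod_cast G_anti h8 l
  refine ⟨(⟨d, by omega⟩, ⟨m, by omega⟩, ⟨h, hhH⟩,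
    (fun p => if hp : (p : ℕ).Prime then ⟨j p, by have := (hj p hp).1; omega⟩ else 0),
    (fun p => if hp : (p : ℕ).Prime then ⟨_, hu p (by omega) hp⟩ else 0), ⟨_, hanti⟩), l, j, d, m, h, ?_⟩
  refine ⟨rfl, rfl, rfl, hsol, by simp only; omega, hj, ?_, ?_, ?_, hh1, hh2, f1, f2, by rw [← hMd]; exact f3, by rw [← hMd]; exact f4,
    f5, f6, f7, f8, f9⟩
  · intro p hp
    simp only [hp, dif_pos]
  · intro p hp
    simp only [hp, dif_pos]
    exact a11_floor hU0 (Nat.cast_nonneg _)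
  · intro i
    rw [← hMd]
    exact a11_floor hV0 (Nat.cast_nonneg _)

/-- [HSP-A11] the coding. PROOF. `N = max` of `N1`, the thresholds of `facts` and `exists_h` (for `C0`) and `16`. For `q = (n, a) ∈ PA N x` choose `l` with `(n, a :: l) ∈ S`, `d = n - a` (`sol_of_S`), `d ≤ C0 log log n`,
`∑ l ≤ C0 log n` (`hS`), `h` from `exists_h`, `m = ⌊K log log n⌋₊`, `j p` from `exists_dvd` (for all primes `p`). Put `e = 2^h`, `M = ⌊C0 exp((m+1)/K)⌋₊`, `U = e/(32 y)`, `V = e/(48 (log_2 M + 1))`.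
Code: `d ≤ D`; `m ≤ K log log x ≤ Km`; `h ≤ H` as `2^h ≤ En ≤ d log n ≤ D log x < 2^(H+1)` (`En_upper`); `p ↦ j p` (`< d ≤ D`; `0` for non-primes); `p ↦ ⌊vl p l/U⌋₊` for primes, which is `≤ 96 y` because
`vl p l log 2 ≤ vl p l log p ≤ En < 2 e` (`2 * 32/log 2 < 96`); `i ↦ ⌊G (y 2^(κ (i+1))) l/V⌋₊`, non-increasing (`G_anti`) and `≤ Q` because `G z l ≤ ∑_{b > y} b ≤ 2 En/(log y - 1) ≤ 4 e/(log y - 1)` (`sum_big_le`), and
`M ≤ 2 C0 log n ≤ 2 C0 log x` (monotonicity of `Nat.log 2`). For a set `T` of pairs with the same code the `d, m, h` agree, so `q ↦ q.1` is injective on `T` (`q.2 = q.1 - d`), and `cluster` applies to the set of the `q.1` with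
`X = exp((m+1)/K)`, `δ = 2 log n/K`: to have a common `δ` take `δ = e/(16 d)` and use (4) of `facts`: `X ≤ log n + 2 log n/K ≤ log n + e/(16 d)`. `u p = U ⌊vl/U⌋`, `g t = V ⌊G/V⌋`. `U (y log 4) = e log 4/32 ≤ e/16`,
`V (2 log 4 (log_2 M + 1)) = e 2 log 4/48 ≤ e/16`. Conclusion: `|T| ≤ max d (4 d X/e) ≤ R` by (8) of `facts`. -/
theorem exists_code (C0 : ℝ) (hC0 : 1 ≤ C0) (N1 : ℕ)
    (hS : ∀ s ∈ N2e4138ab.S, N1 ≤ s.1 → ∀ a l, s.2 = a :: l →
      ((s.1 : ℝ) - a) ≤ C0 * Real.log (Real.log s.1) ∧ ((l.sum : ℕ) : ℝ) ≤ C0 * Real.log s.1) :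
    ∃ N : ℕ, ∀ x y κ K Sx Q D H Km R : ℕ, 16 ≤ x → 2 ≤ y → 1 ≤ κ → 352 * (κ : ℝ) ≤ Real.log y - 1 →
      640 * Real.log (2 * C0 * Real.log x) ≤ K → K * Real.log (Real.log x) ≤ Km →
      C0 * Real.log (Real.log x) ≤ D → (D : ℝ) * Real.log x < 2 ^ (H + 1) →
      2 * C0 * Real.log x ≤ y * 2 ^ (κ * Sx) →
      192 * ((Nat.log 2 ⌊2 * C0 * Real.log x⌋₊ : ℝ) + 1) / (Real.log y - 1) ≤ Q → (D : ℝ) ≤ R →
      160 * Real.log (2 * C0 * Real.log x) ≤ R →
      ∃ code : ℕ × ℕ → Code y D Km H Sx Q, ∀ T : Finset (ℕ × ℕ), (∀ q ∈ T, q ∈ PA N x) →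
        (∀ q ∈ T, ∀ q' ∈ T, code q = code q') → T.card ≤ R := by
  obtain ⟨N, hN16, hN⟩ := a11_exists C0 hC0 N1 hS
  refine ⟨N, ?_⟩
  intro x y κ K Sx Q D H Km R hx hy hκ hκy hK hKm hD hH hSx hQ hDR hR
  have hN' := hN x y κ K Sx Q D H Km hx hy hκ hκy hK hKm hD hH hQ
  classical
  have : Nonempty (Code y D Km H Sx Q) :=
    ⟨(0, 0, 0, fun _ => 0, fun _ => 0, ⟨fun _ => 0, fun _ _ _ => le_rfl⟩)⟩
  choose! code L J dd mm hh hP using hN'
  refine ⟨code, ?_⟩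
  intro T hT hcode
  rcases T.eq_empty_or_nonempty with rfl | ⟨q₀, hq₀⟩
  · simp
  obtain ⟨c, hc⟩ : ∃ c, c = code q₀ := ⟨_, rfl⟩
  obtain ⟨d, hd⟩ : ∃ d : ℕ, d = dd q₀ := ⟨_, rfl⟩
  obtain ⟨m, hm⟩ : ∃ m : ℕ, m = mm q₀ := ⟨_, rfl⟩
  obtain ⟨h, hhh⟩ : ∃ h : ℕ, h = hh q₀ := ⟨_, rfl⟩
  have hP' : ∀ q ∈ T, a11_P C0 y κ K D Km H Sx Q q c (L q) (J q) d m h := by
    intro q hq
    have h1 := hP q (hT q hq)
    have h0 := hP q₀ (hT q₀ hq₀)
    have h2 : code q = c := by rw [hc]; exact hcode q hq q₀ hq₀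
    rw [h2] at h1
    rw [← hc] at h0
    have e1 : dd q = d := by rw [← h1.hd, h0.hd, hd]
    have e2 : mm q = m := by rw [← h1.hm, h0.hm, hm]
    have e3 : hh q = h := by rw [← h1.hh, h0.hh, hhh]
    rw [e1, e2, e3] at h1
    exact h1
  have hinj : Set.InjOn Prod.fst (T : Set (ℕ × ℕ)) := by
    intro q hq q' hq' he
    refine Prod.ext he ?_
    rw [(hP' q hq).sub, (hP' q' hq').sub, he]
  rw [← Finset.card_image_of_injOn hinj]
  have hback : ∀ n ∈ T.image Prod.fst, (n, n - d) ∈ T := by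
    intro n hn
    obtain ⟨q, hq, rfl⟩ := Finset.mem_image.1 hn
    have h1 := (hP' q hq).sub
    have h2 : (q.1, q.1 - d) = q := by rw [← h1]
    rw [h2]
    exact hq
  have hPn : ∀ n ∈ T.image Prod.fst, a11_P C0 y κ K D Km H Sx Q (n, n - d) c (L (n, n - d)) (J (n, n - d)) d m h :=
    fun n hn => hP' _ (hback n hn)
  obtain ⟨M, hMd⟩ : ∃ M : ℕ, M = ⌊C0 * Real.exp (((m : ℝ) + 1) / K)⌋₊ := ⟨_, rfl⟩
  have h0 := hP' q₀ hq₀
  have hd2 := h0.sol.two_le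
  have hd0 : (0 : ℝ) < d := by
    have : 0 < d := by omega
    exact_mod_cast this
  have hy0 : (0 : ℝ) < y := by
    have : 0 < y := by omega
    exact_mod_cast this
  have he0 : (0 : ℝ) < 2 ^ h := by positivity
  have hlog4 : Real.log 4 < 1.5 := by
    have h1 : (4 : ℝ) = 2 ^ 2 := by norm_num
    have h2 : Real.log 2 < 0.6931471808 := Real.log_two_lt_d9
    rw [h1, Real.log_pow]
    push_cast
    linarith
  have hlx : ∀ n : ℕ, (n, n - d) ∈ T → 0 < Real.log n ∧ Real.log n ≤ Real.log x := by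
    intro n hn
    have h1 : N ≤ n ∧ n ≤ x := ⟨(hT _ hn).1, (hT _ hn).2.1⟩
    have h2 : (1 : ℝ) < n := by
      have : 1 < n := by omega
      exact_mod_cast this
    exact ⟨Real.log_pos h2, Real.log_le_log (by linarith) (by exact_mod_cast h1.2)⟩
  have hCx : ∀ n : ℕ, (n, n - d) ∈ T → 2 * C0 * Real.log n ≤ 2 * C0 * Real.log x := fun n hn => by
    have := (hlx n hn).2
    nlinarith
  have hq0' : (q₀.1, q₀.1 - d) ∈ T := hback _ (Finset.mem_image_of_mem _ hq₀)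
  have hcl := cluster (T.image Prod.fst) d y κ M Sx (fun n => L (n, n - d)) (fun n hn => (hPn n hn).sol)
    (fun n hn b hb => by rw [hMd]; exact (hPn n hn).f3 b hb) hy hκ hκy (by
      have h1 := (hPn q₀.1 (Finset.mem_image_of_mem _ hq₀)).f4
      rw [← hMd] at h1
      have h2 : (M : ℝ) ≤ ((y * 2 ^ (κ * Sx) : ℕ) : ℝ) := by
        push_cast
        exact h1.trans ((hCx _ hq0').trans hSx)
      exact_mod_cast h2)
    (fun p n => J (n, n - d) p) (fun p hp n hn => (hPn n hn).hj p hp)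
    (fun p hp n hn n' hn' => by
      rw [mem_pr] at hp
      have h1 := (hPn n hn).cj ⟨p, by omega⟩ hp.2
      have h2 := (hPn n' hn').cj ⟨p, by omega⟩ hp.2
      simp only at h1 h2
      rw [h1, h2])
    (fun p => if hp : p < y + 1 then (2 : ℝ) ^ h / (32 * y) * (c.2.2.2.2.1 ⟨p, hp⟩ : ℕ) else 0)
    (fun t => if ht : t - 1 < Sx then (2 : ℝ) ^ h / (48 * ((Nat.log 2 M : ℝ) + 1)) * ((c.2.2.2.2.2.1 ⟨t - 1, ht⟩ : ℕ) : ℝ) else 0)
    (2 ^ h / (32 * y)) (2 ^ h / (48 * ((Nat.log 2 M : ℝ) + 1))) (2 ^ h) (Real.exp (((m : ℝ) + 1) / K)) (2 ^ h / (16 * d))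
    (by positivity) (by positivity)
    (fun p hp n hn => by
      rw [mem_pr] at hp
      have h1 := (hPn n hn).cu ⟨p, by omega⟩ hp.2
      have h2 : p < y + 1 := by omega
      simp only [h2, dif_pos]
      exact h1)
    (fun t ht1 ht2 n hn => by
      have h2 : t - 1 < Sx := by omega
      have h1 := (hPn n hn).cg ⟨t - 1, h2⟩
      have h3 : t - 1 + 1 = t := by omega
      simp only [h2, dif_pos, h3] at h1 ⊢
      rw [← hMd] at h1
      exact h1)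
    (fun n hn => ⟨(hPn n hn).e1, by
      have h1 := (hPn n hn).e2
      rw [pow_succ] at h1
      linarith⟩)
    (fun n hn => ⟨(hPn n hn).f1, by
      have h1 := (hPn n hn).f2
      have h2 := (hPn n hn).f5
      simp only at h1 h2
      have h3 : 2 * Real.log n / K ≤ 2 ^ h / (16 * d) := by
        rw [le_div_iff₀ (by positivity)]
        have e : 2 * Real.log n / K * (16 * d) = 16 * (d * (2 * Real.log n / K)) := by ring
        rw [e]
        linarith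
      linarith⟩)
    (by
      have e : (d : ℝ) * (2 ^ h / (16 * d)) = 2 ^ h / 16 := by field_simp
      rw [e])
    (by
      have e : (2 : ℝ) ^ h / (32 * y) * (y * Real.log 4) = 2 ^ h * (Real.log 4 / 32) := by field_simp
      rw [e]
      have := mul_le_mul_of_nonneg_left (show Real.log 4 / 32 ≤ 1 / 16 by linarith) he0.le
      linarith)
    (by
      have e : (2 : ℝ) ^ h / (48 * ((Nat.log 2 M : ℝ) + 1)) * (2 * Real.log 4 * ((Nat.log 2 M : ℝ) + 1)) = 2 ^ h * (Real.log 4 / 24) := by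
        field_simp
        ring
      rw [e]
      have := mul_le_mul_of_nonneg_left (show Real.log 4 / 24 ≤ 1 / 16 by linarith) he0.le
      linarith)
    h0.f6 h0.f7 (fun n hn => (hPn n hn).f8)
  have hcl2 : ((T.image Prod.fst).card : ℝ) ≤ R := by
    refine hcl.trans (max_le ?_ ?_)
    · refine le_trans ?_ hDR
      have h1 : d ≤ D := by
        have := c.1.2
        rw [h0.hd] at this
        omega
      exact_mod_cast h1
    · refine le_trans ?_ hR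
      rw [div_le_iff₀ he0]
      have h1 := h0.f9
      have h2 := hCx _ hq0'
      have h3 := hlx _ hq0'
      have h4 : Real.log (2 * C0 * Real.log q₀.1) ≤ Real.log (2 * C0 * Real.log x) := by
        refine Real.log_le_log ?_ h2
        have := h3.1
        positivity
      refine h1.trans ?_
      refine mul_le_mul_of_nonneg_right (by linarith) he0.le
  exact_mod_cast hcl2

end HSP
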