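import Mathlib

set_option autoImplicit false

namespace HSP

theorem a12_final (L ℓ : ℝ) (hL : 2000 ≤ L) (hℓ : ℓ = Real.log L) (hℓ1 : 3000 ≤ ℓ)
    (hs : ℓ ^ 2 ≤ Real.sqrt L) (y Sx Q : ℕ) (hy : (y : ℝ) ≤ Real.sqrt L)
    (hSx : (Sx : ℝ) ≤ 11264 * (L / ℓ) + 1) (hQ : (Q : ℝ) ≤ 7680 * (L / ℓ) + 1) :
    L ^ (3 * y + 12) * 2 ^ (Sx + Q) ≤ Real.exp (20000 * L / ℓ) := by
  have hL0 : 0 < L := by linarith
  have hℓ0 : 0 < ℓ := by linarith
  have hs1 : 1 ≤ Real.sqrt L := by rw [Real.one_le_sqrt]; linarith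
  have hss : Real.sqrt L * Real.sqrt L = L := Real.mul_self_sqrt hL0.le
  have hsl : Real.sqrt L * ℓ ≤ L / ℓ := by
    rw [le_div_iff₀ hℓ0]
    calc Real.sqrt L * ℓ * ℓ = Real.sqrt L * ℓ ^ 2 := by ring
      _ ≤ Real.sqrt L * Real.sqrt L := mul_le_mul_of_nonneg_left hs (by linarith)
      _ = L := hss
  have h1L : 1 ≤ L / ℓ := by
    rw [le_div_iff₀ hℓ0, one_mul, hℓ]
    exact (Real.log_le_sub_one_of_pos hL0).trans (by linarith)
  have e1 : L ^ (3 * y + 12) = Real.exp (((3 * y + 12 : ℕ) : ℝ) * ℓ) := by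
    rw [Real.exp_nat_mul, hℓ, Real.exp_log hL0]
  have e2 : (2 : ℝ) ^ (Sx + Q) = Real.exp (((Sx + Q : ℕ) : ℝ) * Real.log 2) := by
    rw [Real.exp_nat_mul, Real.exp_log (by norm_num)]
  rw [e1, e2, ← Real.exp_add]
  apply Real.exp_le_exp.mpr
  push_cast
  have h2 : Real.log 2 ≤ 1 := by linarith [Real.log_two_lt_d9]
  have h2' : 0 ≤ Real.log 2 := Real.log_nonneg (by norm_num)
  have h3 : (3 * (y : ℝ) + 12) * ℓ ≤ 15 * (L / ℓ) := by
    have : (3 * (y : ℝ) + 12) ≤ 15 * Real.sqrt L := by linarith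
    calc (3 * (y : ℝ) + 12) * ℓ ≤ 15 * Real.sqrt L * ℓ := mul_le_mul_of_nonneg_right this hℓ0.le
      _ = 15 * (Real.sqrt L * ℓ) := by ring
      _ ≤ _ := by linarith
  have h4 : ((Sx : ℝ) + Q) * Real.log 2 ≤ 18946 * (L / ℓ) := by
    calc ((Sx : ℝ) + Q) * Real.log 2 ≤ ((Sx : ℝ) + Q) * 1 :=
          mul_le_mul_of_nonneg_left h2 (by positivity)
      _ ≤ _ := by linarith
  have h5 : 20000 * L / ℓ = 20000 * (L / ℓ) := by ring
  rw [h5]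
  linarith

theorem a12_q (c L : ℝ) (hc : c + 2 ≤ L) (hL : 1 ≤ L) : c * L + 2 ≤ L ^ 2 := by
  have h1 : (c + 2) * L ≤ L * L := mul_le_mul_of_nonneg_right hc (by linarith)
  have h2 : (c + 2) * L = c * L + 2 * L := by ring
  rw [pow_two]
  linarith

theorem a12_main (C0 : ℝ) (hC0 : 1 ≤ C0) (L : ℝ) (hL : 2 * C0 + 2000 ≤ L)
    (hℓ1 : 3000 ≤ Real.log L) (hs : Real.log L ^ 4 ≤ L) :
    ∃ y κ K Sx Q D H Km R : ℕ, 2 ≤ y ∧ 1 ≤ κ ∧ 352 * (κ : ℝ) ≤ Real.log y - 1 ∧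
      640 * Real.log (2 * C0 * Real.exp L) ≤ K ∧ K * L ≤ Km ∧
      C0 * L ≤ D ∧ (D : ℝ) * Real.exp L < 2 ^ (H + 1) ∧
      2 * C0 * Real.exp L ≤ y * 2 ^ (κ * Sx) ∧
      192 * ((Nat.log 2 ⌊2 * C0 * Real.exp L⌋₊ : ℝ) + 1) / (Real.log y - 1) ≤ Q ∧ (D : ℝ) ≤ R ∧
      160 * Real.log (2 * C0 * Real.exp L) ≤ R ∧
      ((R * ((D + 1) * (Km + 1) * (H + 1) * (D + 1) ^ (y + 1) * (96 * y + 1) ^ (y + 1) *
        2 ^ (Sx + Q)) : ℕ) : ℝ) ≤ Real.exp (20000 * L / Real.log L) := by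
  obtain ⟨ℓ, hℓ⟩ : ∃ ℓ : ℝ, ℓ = Real.log L := ⟨_, rfl⟩
  have hL0 : 0 < L := by linarith
  have hLL : 2002 ≤ L := by linarith
  rw [← hℓ] at hℓ1 hs ⊢
  have hℓ0 : 0 < ℓ := by linarith
  -- the square root
  obtain ⟨s, hsdef⟩ : ∃ s : ℝ, s = Real.sqrt L := ⟨_, rfl⟩
  have hss : s * s = L := by rw [hsdef]; exact Real.mul_self_sqrt hL0.le
  have hs0 : 0 ≤ s := by rw [hsdef]; exact Real.sqrt_nonneg L
  have hsℓ : ℓ ^ 2 ≤ s := by
    rw [hsdef]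
    apply Real.le_sqrt_of_sq_le
    calc (ℓ ^ 2) ^ 2 = ℓ ^ 4 := by ring
      _ ≤ L := hs
  have hs2 : 1000 ≤ s := by
    have : (3000 : ℝ) * 3000 ≤ ℓ ^ 2 := by
      rw [pow_two]
      exact mul_le_mul hℓ1 hℓ1 (by norm_num) hℓ0.le
    linarith
  have hlogs : Real.log s = ℓ / 2 := by rw [hsdef, Real.log_sqrt hL0.le, hℓ]
  -- y
  obtain ⟨y, hydef⟩ : ∃ y : ℕ, y = ⌊s⌋₊ := ⟨_, rfl⟩
  have hy1 : (y : ℝ) ≤ s := by rw [hydef]; exact Nat.floor_le hs0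
  have hy2 : s < y + 1 := by rw [hydef]; exact Nat.lt_floor_add_one s
  have hy3 : s / 2 ≤ y := by linarith
  have hlog2 : Real.log 2 ≤ 1 := by linarith [Real.log_two_lt_d9]
  have hly : ℓ / 4 ≤ Real.log y := by
    have h1 : Real.log (s / 2) ≤ Real.log y := Real.log_le_log (by linarith) hy3
    rw [Real.log_div (by linarith) (by norm_num), hlogs] at h1
    linarith
  obtain ⟨lam, hlam⟩ : ∃ lam : ℝ, lam = Real.log y := ⟨_, rfl⟩
  rw [← hlam] at hly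
  have hlam1 : 750 ≤ lam := by linarith
  -- κ
  obtain ⟨κ, hκdef⟩ : ∃ κ : ℕ, κ = ⌊(lam - 1) / 352⌋₊ := ⟨_, rfl⟩
  have hκ1 : (κ : ℝ) ≤ (lam - 1) / 352 := by
    rw [hκdef]; exact Nat.floor_le (by linarith)
  have hκ2 : (lam - 1) / 352 < κ + 1 := by rw [hκdef]; exact Nat.lt_floor_add_one _
  have hκ3 : 1 ≤ κ := by
    rw [hκdef]
    apply Nat.le_floor
    push_cast
    rw [le_div_iff₀ (by norm_num)]
    linarith
  have hκ4 : ℓ / 2816 ≤ κ := by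
    have : lam / 704 ≤ (lam - 1) / 352 - 1 := by linarith
    linarith
  have hκ0 : (0 : ℝ) < κ := by exact_mod_cast hκ3
  -- logarithm of `2 C0 exp L`
  have hexp1 : L + 1 ≤ Real.exp L := Real.add_one_le_exp L
  have hexp2 : 1 + L + L ^ 2 / 2 ≤ Real.exp L := Real.quadratic_le_exp_of_nonneg hL0.le
  have hexp3 : C0 * L + 1 ≤ Real.exp L := by
    have h1 : C0 * L ≤ (L / 2) * L := mul_le_mul_of_nonneg_right (by linarith) hL0.le
    have h2 : (L / 2) * L = L ^ 2 / 2 := by ring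
    linarith
  have hpos : 0 < 2 * C0 * Real.exp L := by positivity
  have hle : 2 * C0 * Real.exp L ≤ Real.exp (2 * L) := by
    rw [two_mul L, Real.exp_add]
    exact mul_le_mul_of_nonneg_right (by linarith) (Real.exp_pos L).le
  have hlog : Real.log (2 * C0 * Real.exp L) ≤ 2 * L := by
    have := Real.log_le_log hpos hle
    rwa [Real.log_exp] at this
  have h24 : Real.exp (2 * L) ≤ (2 : ℝ) ^ (4 * L) := by
    rw [Real.rpow_def_of_pos (by norm_num)]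
    apply Real.exp_le_exp.mpr
    have h1 := Real.log_two_gt_d9
    have h2 : (1 / 2) * (4 * L) ≤ Real.log 2 * (4 * L) :=
      mul_le_mul_of_nonneg_right (by linarith) (by positivity)
    linarith
  have hpow : ∀ n : ℕ, 4 * L ≤ n → Real.exp (2 * L) ≤ (2 : ℝ) ^ n := by
    intro n hn
    refine h24.trans ?_
    rw [← Real.rpow_natCast]
    exact Real.rpow_le_rpow_of_exponent_le (by norm_num) hn
  -- the numbers
  obtain ⟨K, hKdef⟩ : ∃ K : ℕ, K = ⌈1280 * L⌉₊ := ⟨_, rfl⟩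
  have hK1 : 1280 * L ≤ K := by rw [hKdef]; exact Nat.le_ceil _
  have hK2 : (K : ℝ) < 1280 * L + 1 := by rw [hKdef]; exact Nat.ceil_lt_add_one (by positivity)
  obtain ⟨Km, hKmdef⟩ : ∃ Km : ℕ, Km = ⌈(K : ℝ) * L⌉₊ := ⟨_, rfl⟩
  have hKm1 : (K : ℝ) * L ≤ Km := by rw [hKmdef]; exact Nat.le_ceil _
  have hKm2 : (Km : ℝ) < K * L + 1 := by rw [hKmdef]; exact Nat.ceil_lt_add_one (by positivity)
  obtain ⟨D, hDdef⟩ : ∃ D : ℕ, D = ⌈C0 * L⌉₊ := ⟨_, rfl⟩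
  have hD1 : C0 * L ≤ D := by rw [hDdef]; exact Nat.le_ceil _
  have hD2 : (D : ℝ) < C0 * L + 1 := by rw [hDdef]; exact Nat.ceil_lt_add_one (by positivity)
  obtain ⟨H, hHdef⟩ : ∃ H : ℕ, H = ⌈4 * L⌉₊ := ⟨_, rfl⟩
  have hH1 : 4 * L ≤ H := by rw [hHdef]; exact Nat.le_ceil _
  have hH2 : (H : ℝ) < 4 * L + 1 := by rw [hHdef]; exact Nat.ceil_lt_add_one (by positivity)
  obtain ⟨Sx, hSxdef⟩ : ∃ Sx : ℕ, Sx = ⌈4 * L / κ⌉₊ := ⟨_, rfl⟩
  have hSx1 : 4 * L / κ ≤ Sx := by rw [hSxdef]; exact Nat.le_ceil _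
  have hSx2 : (Sx : ℝ) < 4 * L / κ + 1 := by rw [hSxdef]; exact Nat.ceil_lt_add_one (by positivity)
  obtain ⟨Q, hQdef⟩ : ∃ Q : ℕ, Q = ⌈192 * (4 * L + 1) / (lam - 1)⌉₊ := ⟨_, rfl⟩
  have hlam0 : 0 < lam - 1 := by linarith
  have hQ1 : 192 * (4 * L + 1) / (lam - 1) ≤ Q := by rw [hQdef]; exact Nat.le_ceil _
  have hQ2 : (Q : ℝ) < 192 * (4 * L + 1) / (lam - 1) + 1 := by
    rw [hQdef]; exact Nat.ceil_lt_add_one (by positivity)
  obtain ⟨R, hRdef⟩ : ∃ R : ℕ, R = ⌈(C0 + 320) * L⌉₊ := ⟨_, rfl⟩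
  have hR1 : (C0 + 320) * L ≤ R := by rw [hRdef]; exact Nat.le_ceil _
  have hR2 : (R : ℝ) < (C0 + 320) * L + 1 := by
    rw [hRdef]; exact Nat.ceil_lt_add_one (by positivity)
  refine ⟨y, κ, K, Sx, Q, D, H, Km, R, ?_, hκ3, ?_, ?_, hKm1, hD1, ?_, ?_, ?_, ?_, ?_, ?_⟩
  · have : (2 : ℝ) ≤ y := by linarith
    exact_mod_cast this
  · rw [← hlam]
    linarith
  · linarith
  · calc (D : ℝ) * Real.exp L ≤ Real.exp L * Real.exp L :=
          mul_le_mul_of_nonneg_right (by linarith) (Real.exp_pos L).le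
      _ = Real.exp (2 * L) := by rw [two_mul L, Real.exp_add]
      _ ≤ 2 ^ H := hpow H hH1
      _ < 2 ^ (H + 1) := by
        rw [pow_succ]
        have : (0 : ℝ) < 2 ^ H := by positivity
        linarith
  · have h1 : 4 * L ≤ ((κ * Sx : ℕ) : ℝ) := by
      push_cast
      rw [div_le_iff₀ hκ0] at hSx1
      linarith
    have h2 := hpow _ h1
    have h3 : (1 : ℝ) ≤ y := by linarith
    have h4 : (0 : ℝ) ≤ 2 ^ (κ * Sx) := by positivity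
    calc 2 * C0 * Real.exp L ≤ 2 ^ (κ * Sx) := hle.trans h2
      _ ≤ y * 2 ^ (κ * Sx) := le_mul_of_one_le_left h4 h3
  · rw [← hlam]
    refine le_trans ?_ hQ1
    have hv1 : (1 : ℝ) ≤ 2 * C0 * Real.exp L :=
      one_le_mul_of_one_le_of_one_le (by linarith) (by linarith)
    have hfl : ⌊2 * C0 * Real.exp L⌋₊ ≠ 0 := by
      have : 1 ≤ ⌊2 * C0 * Real.exp L⌋₊ := Nat.le_floor (by push_cast; exact hv1)
      omega
    have h1 : (2 : ℝ) ^ (Nat.log 2 ⌊2 * C0 * Real.exp L⌋₊) ≤ 2 * C0 * Real.exp L := by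
      have h2 : 2 ^ (Nat.log 2 ⌊2 * C0 * Real.exp L⌋₊) ≤ ⌊2 * C0 * Real.exp L⌋₊ :=
        Nat.pow_log_le_self 2 hfl
      have h3 : ((2 ^ (Nat.log 2 ⌊2 * C0 * Real.exp L⌋₊) : ℕ) : ℝ) ≤
          (⌊2 * C0 * Real.exp L⌋₊ : ℝ) := by exact_mod_cast h2
      push_cast at h3
      exact h3.trans (Nat.floor_le hpos.le)
    have h4 : (Nat.log 2 ⌊2 * C0 * Real.exp L⌋₊ : ℝ) * Real.log 2 ≤ 2 * L := by
      have h5 := Real.log_le_log (by positivity) h1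
      rw [Real.log_pow] at h5
      linarith
    have h6 : (Nat.log 2 ⌊2 * C0 * Real.exp L⌋₊ : ℝ) ≤ 4 * L := by
      have h8 := Real.log_two_gt_d9
      have h7 : (0 : ℝ) ≤ (Nat.log 2 ⌊2 * C0 * Real.exp L⌋₊ : ℝ) := Nat.cast_nonneg _
      have h9 : (Nat.log 2 ⌊2 * C0 * Real.exp L⌋₊ : ℝ) * (1 / 2) ≤
          (Nat.log 2 ⌊2 * C0 * Real.exp L⌋₊ : ℝ) * Real.log 2 :=
        mul_le_mul_of_nonneg_left (by linarith) h7
      linarith
    apply div_le_div_of_nonneg_right _ hlam0.le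
    linarith
  · have : (D : ℝ) ≤ R := by
      have : D ≤ R := by
        rw [hDdef, hRdef]
        apply Nat.ceil_mono
        exact mul_le_mul_of_nonneg_right (by linarith) hL0.le
      exact_mod_cast this
    exact this
  · have h1 : 0 < C0 * L := by positivity
    have h2 : (C0 + 320) * L = C0 * L + 320 * L := by ring
    linarith
  · -- the product
    have hL1 : (1 : ℝ) ≤ L := by linarith
    have bR : (R : ℝ) ≤ L ^ 2 := by
      have := a12_q (C0 + 320) L (by linarith) hL1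
      linarith
    have bD : (D : ℝ) + 1 ≤ L ^ 2 := by
      have := a12_q C0 L (by linarith) hL1
      linarith
    have bH : (H : ℝ) + 1 ≤ L ^ 2 := by
      have := a12_q 4 L (by linarith) hL1
      linarith
    have bK : (Km : ℝ) + 1 ≤ L ^ 3 := by
      have h1 : (K : ℝ) * L ≤ (1280 * L + 1) * L := mul_le_mul_of_nonneg_right hK2.le hL0.le
      have e1 : (1280 * L + 1) * L = 1280 * L ^ 2 + L := by ring
      have e2 := a12_q 1 L (by linarith) hL1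
      have h2 : (Km : ℝ) + 1 ≤ 1283 * L ^ 2 := by linarith
      have h3 : 1283 * L ^ 2 ≤ L * L ^ 2 := mul_le_mul_of_nonneg_right (by linarith) (by positivity)
      calc (Km : ℝ) + 1 ≤ 1283 * L ^ 2 := h2
        _ ≤ L * L ^ 2 := h3
        _ = L ^ 3 := by ring
    have bY : 96 * (y : ℝ) + 1 ≤ L := by
      have : 1000 * s ≤ s * s := mul_le_mul_of_nonneg_right hs2 hs0
      linarith
    have hprod : ((R * ((D + 1) * (Km + 1) * (H + 1) * (D + 1) ^ (y + 1) * (96 * y + 1) ^ (y + 1) *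
        2 ^ (Sx + Q)) : ℕ) : ℝ) ≤ L ^ (3 * y + 12) * 2 ^ (Sx + Q) := by
      push_cast
      calc (R : ℝ) * (((D : ℝ) + 1) * ((Km : ℝ) + 1) * ((H : ℝ) + 1) * ((D : ℝ) + 1) ^ (y + 1) *
            (96 * (y : ℝ) + 1) ^ (y + 1) * 2 ^ (Sx + Q))
          ≤ L ^ 2 * (L ^ 2 * L ^ 3 * L ^ 2 * (L ^ 2) ^ (y + 1) * L ^ (y + 1) * 2 ^ (Sx + Q)) := by
            gcongr
        _ = L ^ (3 * y + 12) * 2 ^ (Sx + Q) := by
            rw [← pow_mul]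
            ring
    refine hprod.trans ?_
    refine a12_final L ℓ (by linarith) hℓ hℓ1 (by rw [← hsdef]; exact hsℓ) y Sx Q
      (by rw [← hsdef]; exact hy1) ?_ ?_
    · have h1 : 4 * L / κ ≤ 11264 * (L / ℓ) := by
        rw [div_le_iff₀ hκ0]
        have h2 : 11264 * (L / ℓ) * (ℓ / 2816) ≤ 11264 * (L / ℓ) * κ :=
          mul_le_mul_of_nonneg_left hκ4 (by positivity)
        have h3 : 11264 * (L / ℓ) * (ℓ / 2816) = 4 * L := by
          field_simp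
          ring
        linarith
      linarith
    · have h1 : 192 * (4 * L + 1) / (lam - 1) ≤ 7680 * (L / ℓ) := by
        rw [div_le_iff₀ hlam0]
        have h0 : ℓ / 8 ≤ lam - 1 := by linarith
        have h2 : 7680 * (L / ℓ) * (ℓ / 8) ≤ 7680 * (L / ℓ) * (lam - 1) :=
          mul_le_mul_of_nonneg_left h0 (by positivity)
        have h3 : 7680 * (L / ℓ) * (ℓ / 8) = 960 * L := by
          field_simp
          ring
        linarith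
      linarith

/-- [HSP-A12] the choice of the parameters (`L = log log x`).
PROOF. For large `L`: `y = ⌊√L⌋₊`, `κ = ⌊(log y - 1)/352⌋₊`, `K = ⌈1280 L⌉₊` (`log (2 C0) + L ≤ 2 L`), `Km = ⌈K L⌉₊`, `D = ⌈C0 L⌉₊`, `H = ⌈4 L⌉₊` (`2^(4L) = exp(2.77.. L) > (C0 L + 1) exp L`), `Sx = ⌈4 L/κ⌉₊`
(`2^(κ Sx) ≥ 2^(4L)`), `Q = ⌈192 (4 L + 1)/(log y - 1)⌉₊` (`Nat.log 2 ⌊v⌋₊ ≤ log v/log 2 ≤ 2L/0.69.. ≤ 4 L`), `R = ⌈(C0 + 320) L⌉₊`. The logarithm of the product is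
`log R + log (D+1) + log (Km+1) + log (H+1) + (y+1)(log (D+1) + log (96 y + 1)) + (Sx + Q) log 2`; the first four terms are `≤ c log L`, the fifth is `≤ c √L log L`, and `Sx + Q ≤ c L/log y ≤ c' L/log L`
(`log y ≥ (log L)/4`, `κ ≥ (log y)/800` for large `L`). Everything is `≤ C L/log L`. -/
theorem growth (C0 : ℝ) (hC0 : 1 ≤ C0) : ∃ C L0 : ℝ, 0 < C ∧ ∀ L : ℝ, L0 ≤ L →
    ∃ y κ K Sx Q D H Km R : ℕ, 2 ≤ y ∧ 1 ≤ κ ∧ 352 * (κ : ℝ) ≤ Real.log y - 1 ∧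
      640 * Real.log (2 * C0 * Real.exp L) ≤ K ∧ K * L ≤ Km ∧
      C0 * L ≤ D ∧ (D : ℝ) * Real.exp L < 2 ^ (H + 1) ∧
      2 * C0 * Real.exp L ≤ y * 2 ^ (κ * Sx) ∧
      192 * ((Nat.log 2 ⌊2 * C0 * Real.exp L⌋₊ : ℝ) + 1) / (Real.log y - 1) ≤ Q ∧ (D : ℝ) ≤ R ∧
      160 * Real.log (2 * C0 * Real.exp L) ≤ R ∧
      ((R * ((D + 1) * (Km + 1) * (H + 1) * (D + 1) ^ (y + 1) * (96 * y + 1) ^ (y + 1) * 2 ^ (Sx + Q)) : ℕ) : ℝ) ≤
        Real.exp (C * L / Real.log L) := by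
  have h1 : ∀ᶠ L : ℝ in Filter.atTop, 2 * C0 + 2000 ≤ L := Filter.eventually_ge_atTop _
  have h2 : ∀ᶠ L : ℝ in Filter.atTop, 3000 ≤ Real.log L :=
    Real.tendsto_log_atTop.eventually_ge_atTop _
  have h3 : ∀ᶠ L : ℝ in Filter.atTop, Real.log L ^ 4 ≤ L := by
    have h4 := (Real.isLittleO_pow_log_id_atTop (n := 4)).bound (c := 1) one_pos
    filter_upwards [h4, Filter.eventually_ge_atTop (0 : ℝ)] with L h5 h6
    rw [one_mul, Real.norm_eq_abs, Real.norm_eq_abs, id, abs_of_nonneg h6] at h5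
    exact (le_abs_self _).trans h5
  obtain ⟨L0, hL0⟩ := Filter.eventually_atTop.mp (h1.and (h2.and h3))
  refine ⟨20000, L0, by norm_num, fun L hL => ?_⟩
  obtain ⟨k1, k2, k3⟩ := hL0 L hL
  exact a12_main C0 hC0 L k1 k2 k3

end HSP
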