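import Pool.Agent.HSP.A11
import Pool.Agent.HSP.A12

set_option autoImplicit false

open scoped Nat

namespace HSP

/-- [HSP-A13] PROOF. `HK.erdos_bounds` (with `C0 = max C 1`), `exists_code`, `growth` with `L = log log x` (`exp L = log x`), `ncard_le_of_code` with `PA N x`, `card_Code`. `PA 0 x ⊆ PA 0 N ∪ PA N x`, and the number
of elements `c` of `PA 0 N` is a constant: `c + exp (C L/log L) ≤ exp ((C + 1) L/log L)` for large `x`. -/
theorem finalA : ∃ (C : ℝ) (X₀ : ℕ), 0 < C ∧ ∀ x : ℕ, X₀ ≤ x →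
    ((PA 0 x).ncard : ℝ) ≤ Real.exp (C * Real.log (Real.log x) / Real.log (Real.log (Real.log x))) := by
  obtain ⟨C, N1, hC, hb⟩ := HK.erdos_bounds
  have hC0 : (1 : ℝ) ≤ max C 1 := le_max_right _ _
  have hS : ∀ s ∈ N2e4138ab.S, max N1 3 ≤ s.1 → ∀ a l, s.2 = a :: l →
      ((s.1 : ℝ) - a) ≤ max C 1 * Real.log (Real.log s.1) ∧
        ((l.sum : ℕ) : ℝ) ≤ max C 1 * Real.log s.1 := by
    intro s hs hn a l hal
    obtain ⟨h1, h2⟩ := hb s hs ((le_max_left _ _).trans hn) a l hal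
    have h3 : (3 : ℝ) ≤ s.1 := by exact_mod_cast (le_max_right _ _).trans hn
    have h4 : 1 ≤ Real.log s.1 := by
      rw [Real.le_log_iff_exp_le (by linarith)]
      have := Real.exp_one_lt_d9
      linarith
    have h5 : 0 ≤ Real.log (Real.log s.1) := Real.log_nonneg h4
    exact ⟨h1.trans (mul_le_mul_of_nonneg_right (le_max_left _ _) h5),
      h2.trans (mul_le_mul_of_nonneg_right (le_max_left _ _) (by linarith))⟩
  obtain ⟨N, hN⟩ := exists_code (max C 1) hC0 (max N1 3) hS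
  obtain ⟨C', L0, hC', hg⟩ := growth (max C 1) hC0
  have hT : Filter.Tendsto (fun n : ℕ => Real.log (Real.log (n : ℝ))) Filter.atTop Filter.atTop :=
    Real.tendsto_log_atTop.comp (Real.tendsto_log_atTop.comp tendsto_natCast_atTop_atTop)
  have hT1 : Filter.Tendsto (fun n : ℕ => Real.log (n : ℝ)) Filter.atTop Filter.atTop :=
    Real.tendsto_log_atTop.comp tendsto_natCast_atTop_atTop
  have e1 := hT.eventually (Real.isLittleO_log_id_atTop.bound
    (show (0 : ℝ) < 1 / (((PA 0 N).ncard : ℝ) + 1) by positivity))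
  have e2 := hT.eventually_ge_atTop (max L0 3)
  have e3 := hT1.eventually_ge_atTop 1
  obtain ⟨X₀, hX₀⟩ := Filter.eventually_atTop.1 (e1.and (e2.and e3))
  refine ⟨C' + 1, max X₀ 16, by linarith, ?_⟩
  intro x hx
  obtain ⟨f1, f2, f3⟩ := hX₀ x ((le_max_left _ _).trans hx)
  have hx16 : 16 ≤ x := (le_max_right _ _).trans hx
  have hexp : Real.exp (Real.log (Real.log x)) = Real.log x := Real.exp_log (by linarith)
  obtain ⟨y, κ, K, Sx, Q, D, H, Km, R, g1, g2, g3, g4, g5, g6, g7, g8, g9, g10, g11, g12⟩ :=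
    hg (Real.log (Real.log x)) ((le_max_left _ _).trans f2)
  rw [hexp] at g4 g7 g8 g9 g11
  obtain ⟨code, hcode⟩ := hN x y κ K Sx Q D H Km R hx16 g1 g2 g3 g4 g5 g6 g7 g8 g9 g10 g11
  have h1 := ncard_le_of_code (PA N x) (PA_finite N x) code R hcode
  have h2 : (PA N x).ncard ≤ R * ((D + 1) * (Km + 1) * (H + 1) * (D + 1) ^ (y + 1) *
      (96 * y + 1) ^ (y + 1) * 2 ^ (Sx + Q)) :=
    h1.trans (Nat.mul_le_mul_left _ (card_Code y D Km H Sx Q))
  have h3 : ((PA N x).ncard : ℝ) ≤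
      Real.exp (C' * Real.log (Real.log x) / Real.log (Real.log (Real.log x))) := by
    refine le_trans ?_ g12
    exact_mod_cast h2
  have hsub : PA 0 x ⊆ PA 0 N ∪ PA N x := by
    rintro q ⟨-, hq2, hq3⟩
    rcases le_total q.1 N with h4 | h4
    · exact Or.inl ⟨Nat.zero_le _, h4, hq3⟩
    · exact Or.inr ⟨h4, hq2, hq3⟩
  have h4 : (PA 0 x).ncard ≤ (PA 0 N).ncard + (PA N x).ncard :=
    (Set.ncard_le_ncard hsub ((PA_finite 0 N).union (PA_finite N x))).trans
      (Set.ncard_union_le _ _)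
  have h5 : ((PA 0 x).ncard : ℝ) ≤ (PA 0 N).ncard + (PA N x).ncard := by exact_mod_cast h4
  set c : ℝ := ((PA 0 N).ncard : ℝ) with hc
  have hc0 : 0 ≤ c := Nat.cast_nonneg _
  set L := Real.log (Real.log x) with hL
  have hL3 : 3 ≤ L := (le_max_right _ _).trans f2
  have hlogL : 0 < Real.log L := Real.log_pos (by linarith)
  simp only [id_eq, Real.norm_eq_abs] at f1
  rw [abs_of_pos hlogL, abs_of_nonneg (by linarith : (0 : ℝ) ≤ L)] at f1
  have h6 : c ≤ L / Real.log L := by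
    rw [le_div_iff₀ hlogL]
    rw [div_mul_eq_mul_div, one_mul, le_div_iff₀ (by linarith)] at f1
    nlinarith
  have h7 : 0 ≤ L / Real.log L := by positivity
  have h8 : Real.exp ((C' + 1) * L / Real.log L) =
      Real.exp (C' * L / Real.log L) * Real.exp (L / Real.log L) := by
    rw [← Real.exp_add]
    congr 1
    ring
  have h9 : 1 ≤ Real.exp (C' * L / Real.log L) := by
    apply Real.one_le_exp
    positivity
  have h10 : L / Real.log L + 1 ≤ Real.exp (L / Real.log L) := Real.add_one_le_exp _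
  rw [h8]
  nlinarith

end HSP
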