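import Pool.Agent.HSP.Defs
import Pool.Agent.HK.D2

set_option autoImplicit false

open scoped Nat

namespace HSP

/-- PROOF. `y ^ y / y! ≤ exp y` (`Real.pow_div_factorial_le_exp`), take logarithms. -/
theorem log_fact_ge (y : ℕ) (hy : 1 ≤ y) : (y : ℝ) * (Real.log y - 1) ≤ Real.log (y ! : ℝ) := by
  have h0 : (0 : ℝ) < y := by exact_mod_cast hy
  have h1 := Real.pow_div_factorial_le_exp (y : ℝ) h0.le y
  have h2 : (0 : ℝ) < (y ! : ℝ) := by exact_mod_cast Nat.factorial_pos y
  have h3 : (0 : ℝ) < (y : ℝ) ^ y / (y ! : ℝ) := div_pos (pow_pos h0 y) h2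
  have h4 := Real.log_le_log h3 h1
  rw [Real.log_exp, Real.log_div (pow_pos h0 y).ne' h2.ne', Real.log_pow] at h4
  linarith

/-- PROOF. `log b! = ∑_{p ≤ M} v_p(b!) log p` for `b ≤ M`: `b! = ∏ p ∈ pr M, p ^ v_p(b!)` (`Nat.prod_pow_prime_padicVal` / `Nat.factorization_prod_pow_eq_self`; all primes dividing `b!` are `≤ b ≤ M`). -/
theorem log_fact_eq (b M : ℕ) (h : b ≤ M) :
    Real.log (b ! : ℝ) = ∑ p ∈ pr M, (padicValNat p b ! : ℝ) * Real.log p := by
  rw [Real.log_nat_eq_sum_factorization]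
  have h1 : (b !).factorization.support ⊆ pr M := by
    intro p hp
    rw [Nat.support_factorization, Nat.mem_primeFactors] at hp
    rw [mem_pr]
    exact ⟨((Nat.Prime.dvd_factorial hp.1).1 hp.2.1).trans h, hp.1⟩
  rw [Finsupp.sum_of_support_subset _ h1 _ (fun i _ => by simp)]
  refine Finset.sum_congr rfl fun p hp => ?_
  rw [Nat.factorization_def _ (mem_pr.1 hp).2]

theorem a3_pow (y q : ℕ) : y ! ^ q ∣ (q * y)! := by
  induction q with
  | zero => simp
  | succ q ih =>
    rw [pow_succ, Nat.succ_mul]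
    exact (mul_dvd_mul ih dvd_rfl).trans (Nat.factorial_mul_factorial_dvd_factorial_add _ _)

/-- [HSP-A3] PROOF. If `log y < 1` the left side is `≤ 0`. Otherwise `q = b / y ≥ 1`, `(y!)^q` divides `(y q)!`, which divides `b!` (`Nat.factorial_mul_pow_dvd..` or by induction with
`Nat.factorial_mul_factorial_dvd_factorial_add`), so `v_p(b!) ≥ q v_p(y!)`; `∑_{p ≤ y} v_p(y!) log p = log y! ≥ y (log y - 1)`, and `q y ≥ b/2` since `q ≥ 1` and `b < (q+1) y ≤ 2 q y`. -/
theorem En_ge {y b : ℕ} (hy : 1 ≤ y) (hb : y ≤ b) :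
    (b : ℝ) / 2 * (Real.log y - 1) ≤ ∑ p ∈ pr y, (padicValNat p b ! : ℝ) * Real.log p := by
  have hlogp : ∀ p ∈ pr y, 0 ≤ Real.log (p : ℝ) := by
    intro p _
    exact Real.log_natCast_nonneg p
  by_cases h0 : Real.log y - 1 ≤ 0
  · have h1 : (b : ℝ) / 2 * (Real.log y - 1) ≤ 0 :=
      mul_nonpos_of_nonneg_of_nonpos (by positivity) h0
    refine h1.trans (Finset.sum_nonneg fun p hp => mul_nonneg (Nat.cast_nonneg _) (hlogp p hp))
  push Not at h0
  obtain ⟨q, hq⟩ : ∃ q, q = b / y := ⟨_, rfl⟩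
  have hq1 : 1 ≤ q := by
    rw [hq, Nat.le_div_iff_mul_le hy]
    omega
  have hqy : q * y ≤ b := by
    rw [hq]
    exact Nat.div_mul_le_self b y
  have hb2 : b ≤ 2 * (q * y) := by
    have h1 := Nat.div_add_mod b y
    have h2 : b % y < y := Nat.mod_lt _ hy
    rw [← hq] at h1
    nlinarith
  have hdvd : y ! ^ q ∣ b ! := (a3_pow y q).trans (Nat.factorial_dvd_factorial hqy)
  have h2 : ∀ p ∈ pr y, (q : ℝ) * ((padicValNat p y ! : ℝ) * Real.log p) ≤
      (padicValNat p b ! : ℝ) * Real.log p := by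
    intro p hp
    have : Fact p.Prime := ⟨(mem_pr.1 hp).2⟩
    have h3 : q * padicValNat p y ! ≤ padicValNat p b ! := by
      rw [← padicValNat.pow]
      exact (padicValNat_dvd_iff_le (Nat.factorial_ne_zero _)).mp (pow_padicValNat_dvd.trans hdvd)
    have h4 : (q : ℝ) * (padicValNat p y ! : ℝ) ≤ (padicValNat p b ! : ℝ) := by exact_mod_cast h3
    rw [← mul_assoc]
    exact mul_le_mul_of_nonneg_right h4 (hlogp p hp)
  have h3 : (q : ℝ) * Real.log (y ! : ℝ) ≤ ∑ p ∈ pr y, (padicValNat p b ! : ℝ) * Real.log p := by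
    rw [log_fact_eq y y le_rfl, Finset.mul_sum]
    exact Finset.sum_le_sum h2
  refine le_trans ?_ h3
  have h4 := log_fact_ge y hy
  have h5 : (b : ℝ) ≤ 2 * ((q : ℝ) * y) := by exact_mod_cast hb2
  calc (b : ℝ) / 2 * (Real.log y - 1) ≤ ((q : ℝ) * y) * (Real.log y - 1) :=
        mul_le_mul_of_nonneg_right (by linarith) h0.le
    _ = (q : ℝ) * ((y : ℝ) * (Real.log y - 1)) := by ring
    _ ≤ (q : ℝ) * Real.log (y ! : ℝ) := mul_le_mul_of_nonneg_left h4 (Nat.cast_nonneg _)

theorem a3b_ne (l : List ℕ) : (l.map Nat.factorial).prod ≠ 0 := by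
  induction l with
  | nil => simp
  | cons b l ih =>
    rw [List.map_cons, List.prod_cons]
    exact mul_ne_zero (Nat.factorial_ne_zero b) ih

theorem a3b_En_cons (y b : ℕ) (l : List ℕ) :
    En y (b :: l) = ∑ p ∈ pr y, (padicValNat p b ! : ℝ) * Real.log p + En y l := by
  unfold En
  rw [← Finset.sum_add_distrib]
  refine Finset.sum_congr rfl fun p _ => ?_
  rw [vl_cons]
  push_cast
  ring

theorem a3b_En_nil (y : ℕ) : En y [] = 0 := by
  unfold En
  simp [vl_nil]

theorem a3b_term (p b : ℕ) : 0 ≤ (padicValNat p b ! : ℝ) * Real.log p :=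
  mul_nonneg (Nat.cast_nonneg _) (Real.log_natCast_nonneg p)

/-- [HSP-A3b] the logarithm of `∏ b!`. PROOF. induction on `l` with `log_fact_eq`. -/
theorem log_prod_eq (l : List ℕ) (M : ℕ) (hM : ∀ b ∈ l, b ≤ M) :
    Real.log ((l.map Nat.factorial).prod : ℝ) = ∑ p ∈ pr M, (vl p l : ℝ) * Real.log p := by
  induction l with
  | nil => simp [vl_nil]
  | cons b l ih =>
    have h1 := ih fun c hc => hM c (List.mem_cons_of_mem _ hc)
    have hb : ((b ! : ℕ) : ℝ) ≠ 0 := by exact_mod_cast Nat.factorial_ne_zero b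
    have hl : ((l.map Nat.factorial).prod : ℝ) ≠ 0 := by
      exact_mod_cast a3b_ne l
    rw [List.map_cons, List.prod_cons, Nat.cast_mul, Real.log_mul hb hl,
      log_fact_eq b M (hM b List.mem_cons_self), h1, ← Finset.sum_add_distrib]
    refine Finset.sum_congr rfl fun p _ => ?_
    rw [vl_cons]
    push_cast
    ring

/-- [HSP-A3c] PROOF. sum of `En_ge` over the `b > y` (the other terms of `En` are `≥ 0`). -/
theorem sum_big_le (l : List ℕ) (y : ℕ) (hy : 1 ≤ y) :
    (((l.filter (fun b => y < b)).sum : ℕ) : ℝ) / 2 * (Real.log y - 1) ≤ En y l := by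
  induction l with
  | nil => simp [a3b_En_nil]
  | cons b l ih =>
    rw [a3b_En_cons]
    by_cases h : y < b
    · rw [List.filter_cons_of_pos (by simpa using h), List.sum_cons]
      have h1 := En_ge hy h.le
      push_cast at ih ⊢
      linarith
    · rw [List.filter_cons_of_neg (by simpa using h)]
      have h1 : 0 ≤ ∑ p ∈ pr y, (padicValNat p b ! : ℝ) * Real.log p :=
        Finset.sum_nonneg fun p _ => a3b_term p b
      linarith

/-- [HSP-A3d] PROOF. `2 ∈ pr y`; `v_2(b!) ≥ b/3` for `b ≥ 2` (`HK.le_three_val` in Pool/Agent/HK/D2.lean, which may be imported or copied). -/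
theorem sum_le_En (l : List ℕ) (y : ℕ) (hy : 2 ≤ y) (hl : ∀ b ∈ l, 2 ≤ b) :
    ((l.sum : ℕ) : ℝ) * (Real.log 2 / 3) ≤ En y l := by
  induction l with
  | nil => simp [a3b_En_nil]
  | cons b l ih =>
    have h1 := ih fun c hc => hl c (List.mem_cons_of_mem _ hc)
    have hb : 2 ≤ b := hl b List.mem_cons_self
    rw [a3b_En_cons, List.sum_cons]
    have h2 : (b : ℝ) * (Real.log 2 / 3) ≤ ∑ p ∈ pr y, (padicValNat p b ! : ℝ) * Real.log p := by
      have h3 : (padicValNat 2 b ! : ℝ) * Real.log (2 : ℕ) ≤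
          ∑ p ∈ pr y, (padicValNat p b ! : ℝ) * Real.log p :=
        Finset.single_le_sum (f := fun p => (padicValNat p b ! : ℝ) * Real.log p)
          (fun p _ => a3b_term p b) (mem_pr.2 ⟨hy, Nat.prime_two⟩)
      refine le_trans ?_ h3
      have h4 : (b : ℝ) ≤ 3 * (padicValNat 2 b ! : ℝ) := by
        exact_mod_cast HK.le_three_val hb
      have h5 : 0 < Real.log 2 := Real.log_pos (by norm_num)
      push_cast
      nlinarith
    push_cast at h1 ⊢
    linarith

/-- [HSP-A3e] PROOF. `log b! ≤ b log b ≤ b log M`. -/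
theorem log_prod_le (l : List ℕ) (M : ℕ) (hM : ∀ b ∈ l, b ≤ M) (hl : ∀ b ∈ l, 2 ≤ b) :
    Real.log ((l.map Nat.factorial).prod : ℝ) ≤ ((l.sum : ℕ) : ℝ) * Real.log M := by
  induction l with
  | nil => simp
  | cons b l ih =>
    have h1 := ih (fun c hc => hM c (List.mem_cons_of_mem _ hc))
      fun c hc => hl c (List.mem_cons_of_mem _ hc)
    have hb2 : 2 ≤ b := hl b List.mem_cons_self
    have hbM : b ≤ M := hM b List.mem_cons_self
    have hb : ((b ! : ℕ) : ℝ) ≠ 0 := by exact_mod_cast Nat.factorial_ne_zero b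
    have hl' : ((l.map Nat.factorial).prod : ℝ) ≠ 0 := by
      exact_mod_cast a3b_ne l
    rw [List.map_cons, List.prod_cons, Nat.cast_mul, Real.log_mul hb hl', List.sum_cons]
    have h2 : Real.log ((b ! : ℕ) : ℝ) ≤ (b : ℝ) * Real.log M := by
      have h3 : ((b ! : ℕ) : ℝ) ≤ (b : ℝ) ^ b := by exact_mod_cast Nat.factorial_le_pow b
      have hb0 : (0 : ℝ) < b := by
        have : 0 < b := by omega
        exact_mod_cast this
      calc Real.log ((b ! : ℕ) : ℝ) ≤ Real.log ((b : ℝ) ^ b) :=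
            Real.log_le_log (by exact_mod_cast Nat.factorial_pos b) h3
        _ = (b : ℝ) * Real.log b := Real.log_pow _ _
        _ ≤ (b : ℝ) * Real.log M := by
            refine mul_le_mul_of_nonneg_left (Real.log_le_log hb0 ?_) hb0.le
            exact_mod_cast hbM
    rw [Nat.cast_add, add_mul]
    linarith

/-- [HSP-A3f] PROOF. `n.descFactorial d ≥ (n - d)^d`, `log (n - d) ≥ log n - 2 d/n` (as `d/n ≤ 1/2`, `log (1 - u) ≥ -2u` for `0 ≤ u ≤ 1/2`), `2 d²/n ≤ 1`. -/
theorem log_desc_ge {n d : ℕ} (h : 2 * d < n) (h2 : 2 * d ^ 2 ≤ n) :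
    (d : ℝ) * Real.log n - 1 ≤ Real.log (n.descFactorial d : ℝ) := by
  have hn : (0 : ℝ) < n := by
    have : 0 < n := by omega
    exact_mod_cast this
  have hd0 : (0 : ℝ) ≤ d := Nat.cast_nonneg d
  have h3 : 2 * (d : ℝ) < n := by exact_mod_cast h
  have h4 : 2 * (d : ℝ) ^ 2 ≤ n := by exact_mod_cast h2
  have h5 : (0 : ℝ) < n - d := by linarith
  have h6 : ((n : ℝ) - d) ^ d ≤ (n.descFactorial d : ℝ) := by
    have h7 : (n + 1 - d) ^ d ≤ n.descFactorial d := Nat.pow_sub_le_descFactorial n d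
    have h8 : (((n + 1 - d : ℕ) : ℝ)) ^ d ≤ (n.descFactorial d : ℝ) := by exact_mod_cast h7
    refine le_trans ?_ h8
    apply pow_le_pow_left₀ h5.le
    rw [Nat.cast_sub (by omega)]
    push_cast
    linarith
  have h7 : (d : ℝ) * Real.log (n - d) ≤ Real.log (n.descFactorial d : ℝ) := by
    rw [← Real.log_pow]
    exact Real.log_le_log (pow_pos h5 d) h6
  have h8 : Real.log n - d / (n - d) ≤ Real.log (n - d) := by
    have h9 := Real.one_sub_inv_le_log_of_pos (div_pos h5 hn)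
    rw [Real.log_div h5.ne' hn.ne', inv_div] at h9
    have h10 : 1 - (n : ℝ) / (n - d) = - (d / (n - d)) := by
      field_simp
      ring
    linarith
  have h9 : (d : ℝ) * (d / (n - d)) ≤ 1 := by
    rw [mul_div_assoc', div_le_one h5]
    nlinarith
  have h10 := mul_le_mul_of_nonneg_left h8 hd0
  rw [mul_sub] at h10
  linarith

end HSP
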