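import Pool.Agent.HSP.A10
import Pool.Agent.HK.D2

set_option autoImplicit false

open scoped Nat

namespace HSP

theorem b1a_log {a b M : ℕ} (hab : a ≤ b) (hbM : b ≤ M) (hM1 : 1 ≤ M) :
    Real.log (b ! : ℝ) - Real.log (a ! : ℝ) ≤ ((b : ℝ) - a) * Real.log M := by
  have h1 : b ! ≤ a ! * M ^ (b - a) := by
    have h2 := Nat.factorial_mul_descFactorial (n := b) (k := b - a) (Nat.sub_le _ _)
    rw [Nat.sub_sub_self hab] at h2
    rw [← h2]
    exact Nat.mul_le_mul_left _ ((Nat.descFactorial_le_pow _ _).trans (Nat.pow_le_pow_left hbM _))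
  have h3 : (b ! : ℝ) ≤ (a ! : ℝ) * (M : ℝ) ^ (b - a) := by exact_mod_cast h1
  have ha : (0 : ℝ) < (a ! : ℝ) := by exact_mod_cast Nat.factorial_pos a
  have hb : (0 : ℝ) < (b ! : ℝ) := by exact_mod_cast Nat.factorial_pos b
  have hMp : (0 : ℝ) < (M : ℝ) := by exact_mod_cast hM1
  have h4 := Real.log_le_log hb h3
  rw [Real.log_mul ha.ne' (pow_ne_zero _ hMp.ne'), Real.log_pow, Nat.cast_sub hab] at h4
  linarith

/-- [HSP-B1a] PROOF. induction on `Forall₂`: `log b! - log bh! ≤ (b - bh) log b ≤ (b - bh) log M` (`b!/bh! = (bh+1)...b ≤ b^(b-bh)`, `Nat.factorial_le_pow..` or `Nat.factorial_mul_pow_sub_le_factorial` in the other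
direction: `b ! ≤ bh ! * b ^ (b - bh)`; `log M ≥ 0`). -/
theorem round_log (lh l : List ℕ) (h : List.Forall₂ (· ≤ ·) lh l) (M : ℕ) (hM : ∀ b ∈ l, b ≤ M) (hM1 : 1 ≤ M) :
    Real.log ((l.map Nat.factorial).prod : ℝ) - Real.log ((lh.map Nat.factorial).prod : ℝ) ≤
      (((l.sum : ℕ) : ℝ) - ((lh.sum : ℕ) : ℝ)) * Real.log M := by
  induction h with
  | nil => simp
  | @cons a b lh' l' hab _ ih =>
    have h1 := b1a_log hab (hM b (List.mem_cons_self ..)) hM1
    have h2 := ih (fun c hc => hM c (List.mem_cons_of_mem _ hc))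
    have hpos : ∀ l : List ℕ, (0 : ℝ) < ((l.map Nat.factorial).prod : ℝ) := by
      intro l
      have h3 : 0 < (l.map Nat.factorial).prod := by
        apply List.prod_pos
        intro x hx
        obtain ⟨c, -, rfl⟩ := List.mem_map.1 hx
        exact Nat.factorial_pos c
      exact_mod_cast h3
    have ha : (0 : ℝ) < (a ! : ℝ) := by exact_mod_cast Nat.factorial_pos a
    have hb : (0 : ℝ) < (b ! : ℝ) := by exact_mod_cast Nat.factorial_pos b
    rw [List.map_cons, List.prod_cons, List.map_cons, List.prod_cons, List.sum_cons, List.sum_cons]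
    rw [Nat.cast_mul, Nat.cast_mul, Nat.cast_add, Nat.cast_add, Real.log_mul hb.ne' (hpos l').ne',
      Real.log_mul ha.ne' (hpos lh').ne']
    linarith

/-- [HSP-B1b] PROOF. `bh! ∣ b!`, `padicValNat` is monotone for divisibility (`padicValNat_dvd_iff_le` / `padicValNat_le_of_dvd`). -/
theorem round_vl (lh l : List ℕ) (h : List.Forall₂ (· ≤ ·) lh l) (p : ℕ) (hp : p.Prime) : vl p lh ≤ vl p l := by
  have hp' : Fact p.Prime := ⟨hp⟩
  induction h with
  | nil => exact le_refl _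
  | @cons a b lh' l' hab _ ih =>
    rw [vl_cons, vl_cons]
    refine Nat.add_le_add ?_ ih
    exact (padicValNat_dvd_iff_le (Nat.factorial_ne_zero b)).1
      (pow_padicValNat_dvd.trans (Nat.factorial_dvd_factorial hab))

/-- [HSP-B1c] PROOF. termwise: `2 bh - b ≤ 3 v_2(bh!)`: for `bh ≥ 2` by `bh ≤ 3 v_2(bh!)` (`HK.le_three_val`, Pool/Agent/HK/D2.lean), for `bh ≤ 1` the left side is `≤ 2 - b ≤ 0`. -/
theorem round_vl_two (lh l : List ℕ) (h : List.Forall₂ (· ≤ ·) lh l) (h2 : ∀ b ∈ l, 2 ≤ b) :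
    2 * ((lh.sum : ℕ) : ℝ) - ((l.sum : ℕ) : ℝ) ≤ 3 * (vl 2 lh : ℝ) := by
  induction h with
  | nil => simp [vl_nil]
  | @cons a b lh' l' hab _ ih =>
    have h1 := ih (fun c hc => h2 c (List.mem_cons_of_mem _ hc))
    have h3 : 2 * (a : ℝ) - b ≤ 3 * (padicValNat 2 a ! : ℝ) := by
      have hb2 : 2 ≤ b := h2 b (List.mem_cons_self ..)
      have hab' : (a : ℝ) ≤ b := by exact_mod_cast hab
      rcases Nat.lt_or_ge a 2 with ha | ha
      · have h4 : (a : ℝ) ≤ 1 := by
          have : a ≤ 1 := by omega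
          exact_mod_cast this
        have h5 : (2 : ℝ) ≤ b := by exact_mod_cast hb2
        have h6 : (0 : ℝ) ≤ 3 * (padicValNat 2 a ! : ℝ) := by positivity
        linarith
      · have h4 : (a : ℝ) ≤ 3 * (padicValNat 2 a ! : ℝ) := by exact_mod_cast HK.le_three_val ha
        linarith
    rw [List.sum_cons, List.sum_cons, vl_cons, Nat.cast_add, Nat.cast_add, Nat.cast_add]
    linarith

theorem b1_le {lh l : List ℕ} (h : List.Forall₂ (· ≤ ·) lh l) (M : ℕ) (hM : ∀ b ∈ l, b ≤ M) :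
    ∀ b ∈ lh, b ≤ M := by
  induction h with
  | nil => intro b hb; exact absurd hb (List.not_mem_nil)
  | cons hab _ ih =>
    intro b hb
    rcases List.mem_cons.mp hb with h1 | h1
    · rw [h1]
      exact hab.trans (hM _ List.mem_cons_self)
    · exact ih (fun b hb => hM b (List.mem_cons_of_mem _ hb)) b h1

theorem b1_val_two (m : ℕ) : (padicValNat 2 m ! : ℝ) * Real.log 2 ≤ Real.log (m ! : ℝ) := by
  have h1 := val_fact_sum_le m 2
  have h2 : pr 2 = {2} := by
    ext p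
    rw [mem_pr, Finset.mem_singleton]
    constructor
    · rintro ⟨h1, h2⟩
      exact le_antisymm h1 h2.two_le
    · rintro rfl
      exact ⟨le_rfl, Nat.prime_two⟩
  rw [h2, Finset.sum_singleton] at h1
  exact_mod_cast h1

/-- [HSP-B1] a cluster for a common rounded list. PROOF. If `T = ∅` trivial. Let `n ∈ T` be maximal, `X = log n`, `s = (l n).sum`, `sh = lh.sum`, `M ≥ 2`. Weights `w p = max 0 (vl p lh - v_p((d-1)!))`, `S = pr M`,
`S0 = {2}`. `hdiv` of `pair_lemma` from `hdiv_of`, `val_desc`, `round_vl`. `∑ w p log p ≥ ∑ vl p lh log p - log (d-1)! = log ∏ bh! - log (d-1)!` (`log_prod_eq` for `lh`, entries `≤ M`; `val_fact_sum_le`)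
`≥ log Π - (s - sh) log M - log (d-1)!` (`round_log`) `≥ d X - lam`, `lam = 1 + (s - sh) log M + log (d-1)! ≤ s/200 + (d-1) s/50` (`log_desc_ge`, `h2`, `h4`). `W0 = w 2 log 2 ≥ (vl 2 lh) log 2 - log (d-1)!`
`≥ (2 sh - s)/3 log 2 - s/200 ≥ (log 2/6) s - s/200 ≥ 0.11 s` (`h1`: `sh ≥ 3 s/4`; `v_2((d-1)!) log 2 ≤ log (d-1)!`). So `2 lam ≤ 0.05 (d-1) s ≤ (d-1) W0`. `pair_lemma`: `r ≤ d` or `r 0.11 s ≤ 2 d X ≤ 2 (log Π + 1) ≤ 2 (s log M + 1)`
(`log_prod_le`), `s ≥ 200`, so `r ≤ (2/0.11) (log M + 1/200) ≤ 20 log M` (`log M ≥ log 2`). -/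
theorem clusterB (T : Finset ℕ) (d M : ℕ) (l : ℕ → List ℕ) (lh : List ℕ) (hl : ∀ n ∈ T, Sol n d (l n))
    (hM : ∀ n ∈ T, ∀ b ∈ l n, b ≤ M) (hf : ∀ n ∈ T, List.Forall₂ (· ≤ ·) lh (l n))
    (h1 : ∀ n ∈ T, 4 * ((((l n).sum : ℕ) : ℝ) - ((lh.sum : ℕ) : ℝ)) ≤ (((l n).sum : ℕ) : ℝ))
    (h2 : ∀ n ∈ T, 50 * ((((l n).sum : ℕ) : ℝ) - ((lh.sum : ℕ) : ℝ)) * Real.log M ≤
      ((d : ℝ) - 1) * (((l n).sum : ℕ) : ℝ))
    (j : ℕ → ℕ → ℕ) (hj : ∀ p, p.Prime → ∀ n ∈ T, j p n < d ∧
      padicValNat p (n.descFactorial d) ≤ padicValNat p (n - j p n) + padicValNat p (d - 1)!)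
    (hj0 : ∀ n ∈ T, ∀ n' ∈ T, j 2 n = j 2 n') (h3 : ∀ n ∈ T, 2 * d ^ 2 ≤ n)
    (h4 : ∀ n ∈ T, 200 * (Real.log ((d - 1)! : ℝ) + 1) ≤ (((l n).sum : ℕ) : ℝ)) :
    (T.card : ℝ) ≤ max (d : ℝ) (20 * Real.log M) := by
  classical
  rcases T.eq_empty_or_nonempty with hT | hT
  · rw [hT, Finset.card_empty, Nat.cast_zero]
    exact le_trans (Nat.cast_nonneg d) (le_max_left _ _)
  obtain ⟨n, hn, hmax⟩ := T.exists_max_image id hT
  have hsol := hl n hn
  have hd := hsol.two_le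
  have hM2 : 2 ≤ M := by
    obtain ⟨b, hb⟩ := List.exists_mem_of_ne_nil _ hsol.ne
    exact (hsol.mem b hb).trans (hM n hn b hb)
  have hMl : ∀ b ∈ lh, b ≤ M := b1_le (hf n hn) M (hM n hn)
  set s : ℝ := (((l n).sum : ℕ) : ℝ) with hs
  set sh : ℝ := ((lh.sum : ℕ) : ℝ) with hsh
  have a1 := h1 n hn
  have a2 := h2 n hn
  have a4 := h4 n hn
  rw [← hs] at a1 a2 a4
  have hlogd : 0 ≤ Real.log ((d - 1)! : ℝ) := Real.log_natCast_nonneg _
  have hs0 : 0 ≤ s := Nat.cast_nonneg _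
  have hs200 : 200 ≤ s := by linarith
  have hlog2 := Real.log_two_gt_d9
  have hlog2' := Real.log_two_lt_d9
  have hlogM : Real.log 2 ≤ Real.log M := by
    apply Real.log_le_log (by norm_num)
    exact_mod_cast hM2
  set w : ℕ → ℝ := fun p => max 0 ((vl p lh : ℝ) - padicValNat p (d - 1)!) with hw
  have hd1 : (1 : ℝ) ≤ (d : ℝ) - 1 := by
    have : (2 : ℝ) ≤ d := by exact_mod_cast hd
    linarith
  have hW0 : (11 : ℝ) / 100 * s ≤ w 2 * Real.log 2 := by
    have c1 : (vl 2 lh : ℝ) - padicValNat 2 (d - 1)! ≤ w 2 := le_max_right _ _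
    have c2 := mul_le_mul_of_nonneg_right c1 (show 0 ≤ Real.log 2 by linarith)
    have c3 := b1_val_two (d - 1)
    have c4 := round_vl_two lh (l n) (hf n hn) hsol.mem
    rw [← hs, ← hsh] at c4
    have c5 : s / 6 ≤ (vl 2 lh : ℝ) := by linarith
    have c6 := mul_le_mul_of_nonneg_right c5 (show 0 ≤ Real.log 2 by linarith)
    have c7 : s / 6 * (0.6931471803 : ℝ) ≤ s / 6 * Real.log 2 :=
      mul_le_mul_of_nonneg_left hlog2.le (by positivity)
    have c8 : ((vl 2 lh : ℝ) - padicValNat 2 (d - 1)!) * Real.log 2 =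
      (vl 2 lh : ℝ) * Real.log 2 - (padicValNat 2 (d - 1)! : ℝ) * Real.log 2 := by ring
    linarith
  have hdesc := log_desc_ge hsol.lt (h3 n hn)
  have hprod := log_prod_le (l n) M (hM n hn) hsol.mem
  rw [hsol.eq] at hdesc
  rw [← hs] at hprod
  have key := pair_lemma T (pr M) {2} (fun p hp => (mem_pr.mp hp).2)
    (by
      intro p hp
      rw [Finset.mem_singleton] at hp
      rw [hp]
      exact mem_pr.mpr ⟨hM2, Nat.prime_two⟩) d hd j
    (fun p hp m hm => (hj p (mem_pr.mp hp).2 m hm).1)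
    (by
      intro p hp m hm m' hm'
      rw [Finset.mem_singleton] at hp
      rw [hp]
      exact hj0 m hm m' hm') w (fun p _ => le_max_left _ _)
    (by
      intro p hp m hm
      have hp' := (mem_pr.mp hp).2
      refine hdiv_of hp' (hl m hm).lt (hj p hp' m hm).1 (hj p hp' m hm).2 (w p) ?_
      rw [val_desc (hl m hm) p hp']
      have c1 : (vl p lh : ℝ) ≤ (vl p (l m) : ℝ) := by exact_mod_cast round_vl lh (l m) (hf m hm) p hp'
      exact max_le_max le_rfl (by linarith))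
    (Real.log n) (1 + (s - sh) * Real.log M + Real.log ((d - 1)! : ℝ))
    (by
      intro m hm
      have hm' := (hl m hm).lt
      apply Real.log_le_log
      · have : 0 < m := by omega
        exact_mod_cast this
      · exact_mod_cast hmax m hm)
    (by
      have c1 := log_prod_eq lh M hMl
      have c2 := val_fact_sum_le (d - 1) M
      have c3 := round_log lh (l n) (hf n hn) M (hM n hn) (by omega)
      rw [← hs, ← hsh] at c3
      have c4 : ∑ p ∈ pr M, (vl p lh : ℝ) * Real.log p -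
          ∑ p ∈ pr M, (padicValNat p (d - 1)! : ℝ) * Real.log p ≤ ∑ p ∈ pr M, w p * Real.log p := by
        rw [← Finset.sum_sub_distrib]
        refine Finset.sum_le_sum fun p _ => ?_
        rw [← sub_mul]
        exact mul_le_mul_of_nonneg_right (le_max_right _ _) (Real.log_natCast_nonneg p)
      linarith)
    (by
      rw [Finset.sum_singleton]
      have c1 : ((d : ℝ) - 1) * ((11 : ℝ) / 100 * s) ≤ ((d : ℝ) - 1) * (w 2 * Real.log ((2 : ℕ) : ℝ)) :=
        mul_le_mul_of_nonneg_left hW0 (by linarith)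
      have c2 : s ≤ ((d : ℝ) - 1) * s := le_mul_of_one_le_left hs0 hd1
      have c3 : ((d : ℝ) - 1) * ((11 : ℝ) / 100 * s) = (11 / 100) * (((d : ℝ) - 1) * s) := by ring
      refine le_trans ?_ c1
      rw [c3]
      linarith)
  rcases key with h | h
  · exact h.trans (le_max_left _ _)
  · refine le_trans ?_ (le_max_right _ _)
    rw [Finset.sum_singleton] at h
    have c1 : (T.card : ℝ) * ((11 : ℝ) / 100 * s) ≤ (T.card : ℝ) * (w 2 * Real.log ((2 : ℕ) : ℝ)) :=
      mul_le_mul_of_nonneg_left hW0 (Nat.cast_nonneg _)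
    have c2 : (T.card : ℝ) * ((11 : ℝ) / 100 * s) ≤ 2 * (s * Real.log M + 1) := by
      have e1 : 2 * (d : ℝ) * Real.log n = 2 * ((d : ℝ) * Real.log n) := by ring
      have e2 := c1.trans h
      rw [e1] at e2
      refine e2.trans ?_
      linarith
    have c3 : (T.card : ℝ) * s ≤ (20 * Real.log M) * s := by
      have e1 : (T.card : ℝ) * ((11 : ℝ) / 100 * s) = 11 / 100 * ((T.card : ℝ) * s) := by ring
      have e2 : (2 : ℝ) * (s * Real.log M + 1) ≤ 2 * (s * Real.log M) + s / 100 := by linarith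
      have e3 : s * 0.6931471803 ≤ s * Real.log M :=
        mul_le_mul_of_nonneg_left (by linarith) hs0
      have e4 : (20 * Real.log M) * s = 20 * (s * Real.log M) := by ring
      rw [e4]
      linarith
    exact le_of_mul_le_mul_right c3 (by linarith)

end HSP
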