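import Mathlib

set_option autoImplicit false

namespace HSP

/-- the rounded list attached to a code: `β = exp (m/K)` for the largest entry, multiples of `θ β` for the others -/
noncomputable def lhat (K : ℕ) (θ : ℝ) (m : ℕ) (c : List ℕ) : List ℕ :=
  ⌈Real.exp ((m : ℝ) / K)⌉₊ :: c.map fun i => ⌈θ * Real.exp ((m : ℝ) / K) * i⌉₊

theorem b2_sum (f : ℕ → ℕ) (ε : ℝ) (hf : ∀ i : ℕ, (i : ℝ) - (f i : ℝ) ≤ ε) (t : List ℕ) :
    ((t.sum : ℕ) : ℝ) - (((t.map f).sum : ℕ) : ℝ) ≤ t.length * ε := by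
  induction t with
  | nil => simp
  | cons b t ih =>
    rw [List.map_cons, List.sum_cons, List.sum_cons, List.length_cons, Nat.cast_add, Nat.cast_add,
      Nat.cast_succ, add_mul, one_mul]
    have := hf b
    linarith

/-- [HSP-B2] rounding. PROOF. `m = ⌊K log b⌋₊`, `β = exp (m/K)`: `β ≤ b < β exp (1/K)`, so `⌈β⌉₊ ≤ b` and `b - β ≤ b (1 - exp (-1/K)) ≤ b/K`. `c = t.map (fun i => ⌊i/(θ β)⌋₊)`: `θ β c_i ≤ t_i < θ β (c_i + 1)`, so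
`⌈θ β c_i⌉₊ ≤ t_i` and `t_i - ⌈θ β c_i⌉₊ ≤ θ β ≤ θ b`; `c_i ≤ b/(θ β) ≤ exp(1/K)/θ ≤ 2/θ ≤ B`. With `D = (b + ∑ t) - ∑ lhat ≤ b/K + q θ b`: `4 D ≤ b (4/K + 4 q θ) ≤ b (1/2 + 1/2)` (`K ≥ 8`, `8 (q+2) θ ≤ 1`) and
`50 D log M ≤ b (50 log M/K + 50 q θ log M) ≤ b ((d-1)/2 + (d-1)/2)`; `b ≤ b + ∑ t`. -/
theorem exists_round (d M q K Km B : ℕ) (θ : ℝ) (hd : 2 ≤ d) (hK : 8 ≤ K) (hKM : 100 * Real.log M ≤ K * ((d : ℝ) - 1))
    (hθ : 0 < θ) (h8 : θ * (8 * ((q : ℝ) + 2)) ≤ 1) (hθM : 100 * ((q : ℝ) + 2) * θ * Real.log M ≤ (d : ℝ) - 1)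
    (hKm : K * Real.log M ≤ Km) (hB : 2 / θ ≤ B) (b : ℕ) (t : List ℕ) (ht : t.length = q)
    (hbt : ∀ c ∈ t, c ≤ b) (hb : 2 ≤ b) (hbM : b ≤ M) :
    ∃ (m : ℕ) (c : List ℕ), m ≤ Km ∧ c.length = q ∧ (∀ i ∈ c, i ≤ B) ∧
      List.Forall₂ (· ≤ ·) (lhat K θ m c) (b :: t) ∧
      4 * ((((b :: t).sum : ℕ) : ℝ) - (((lhat K θ m c).sum : ℕ) : ℝ)) ≤ (((b :: t).sum : ℕ) : ℝ) ∧
      50 * ((((b :: t).sum : ℕ) : ℝ) - (((lhat K θ m c).sum : ℕ) : ℝ)) * Real.log M ≤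
        ((d : ℝ) - 1) * (((b :: t).sum : ℕ) : ℝ) := by
  have hb0 : (0 : ℝ) < b := by
    have : 0 < b := by omega
    exact_mod_cast this
  have hK0 : (0 : ℝ) < K := by
    have : 0 < K := by omega
    exact_mod_cast this
  have hK8 : (8 : ℝ) ≤ K := by exact_mod_cast hK
  have hbM' : (b : ℝ) ≤ M := by exact_mod_cast hbM
  have hb1 : (1 : ℝ) ≤ b := by
    have : 1 ≤ b := by omega
    exact_mod_cast this
  have hlogb : 0 ≤ Real.log b := Real.log_nonneg hb1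
  have hlogM : 0 ≤ Real.log M := Real.log_nonneg (by linarith)
  set m : ℕ := ⌊(K : ℝ) * Real.log b⌋₊ with hm
  set β : ℝ := Real.exp ((m : ℝ) / K) with hβ
  have hβ0 : 0 < β := Real.exp_pos _
  have hm1 : (m : ℝ) ≤ K * Real.log b := Nat.floor_le (by positivity)
  have hm2 : (K : ℝ) * Real.log b < m + 1 := Nat.lt_floor_add_one _
  have hβb : β ≤ b := by
    have h1 : (m : ℝ) / K ≤ Real.log b := by
      rw [div_le_iff₀ hK0]
      linarith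
    calc β ≤ Real.exp (Real.log b) := Real.exp_le_exp.2 h1
      _ = b := Real.exp_log hb0
  have hβ1 : (b : ℝ) - β ≤ b / K := by
    have h1 : Real.log b - 1 / K ≤ (m : ℝ) / K := by
      have h2 : Real.log b < ((m : ℝ) + 1) / K := by
        rw [lt_div_iff₀ hK0]
        linarith
      rw [add_div] at h2
      linarith
    have h2 : (b : ℝ) * Real.exp (-(1 / K)) ≤ β := by
      calc (b : ℝ) * Real.exp (-(1 / K)) = Real.exp (Real.log b - 1 / K) := by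
            rw [sub_eq_add_neg, Real.exp_add, Real.exp_log hb0]
        _ ≤ β := Real.exp_le_exp.2 h1
    have h3 : 1 - 1 / (K : ℝ) ≤ Real.exp (-(1 / K)) := by
      have := Real.add_one_le_exp (-(1 / (K : ℝ)))
      linarith
    have h4 : (b : ℝ) * (1 - 1 / K) ≤ β := le_trans (mul_le_mul_of_nonneg_left h3 hb0.le) h2
    have h5 : (b : ℝ) * (1 - 1 / K) = b - b / K := by ring
    linarith
  have hθβ : 0 < θ * β := mul_pos hθ hβ0
  have hceil : (b : ℝ) - (⌈β⌉₊ : ℝ) ≤ b / K := by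
    have := Nat.le_ceil β
    linarith
  have hf1 : ∀ i : ℕ, ⌈θ * β * (⌊(i : ℝ) / (θ * β)⌋₊ : ℝ)⌉₊ ≤ i := by
    intro i
    rw [Nat.ceil_le]
    have h1 : (⌊(i : ℝ) / (θ * β)⌋₊ : ℝ) ≤ (i : ℝ) / (θ * β) := Nat.floor_le (by positivity)
    rw [le_div_iff₀ hθβ] at h1
    linarith
  have hf2 : ∀ i : ℕ, (i : ℝ) - (⌈θ * β * (⌊(i : ℝ) / (θ * β)⌋₊ : ℝ)⌉₊ : ℝ) ≤ θ * b := by
    intro i
    have h1 : (i : ℝ) / (θ * β) < ⌊(i : ℝ) / (θ * β)⌋₊ + 1 := Nat.lt_floor_add_one _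
    rw [div_lt_iff₀ hθβ] at h1
    have h2 := Nat.le_ceil (θ * β * (⌊(i : ℝ) / (θ * β)⌋₊ : ℝ))
    have h3 : θ * β ≤ θ * b := mul_le_mul_of_nonneg_left hβb hθ.le
    nlinarith
  have hsum := b2_sum (fun i : ℕ => ⌈θ * β * (⌊(i : ℝ) / (θ * β)⌋₊ : ℝ)⌉₊) (θ * b) hf2 t
  rw [ht] at hsum
  set c : List ℕ := t.map fun i : ℕ => ⌊(i : ℝ) / (θ * β)⌋₊ with hc
  have hcm : c.map (fun i : ℕ => ⌈θ * β * (i : ℝ)⌉₊) =
      t.map (fun i : ℕ => ⌈θ * β * (⌊(i : ℝ) / (θ * β)⌋₊ : ℝ)⌉₊) := by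
    rw [hc, List.map_map]
    rfl
  have hl : lhat K θ m c = ⌈β⌉₊ :: t.map (fun i : ℕ => ⌈θ * β * (⌊(i : ℝ) / (θ * β)⌋₊ : ℝ)⌉₊) := by
    unfold lhat
    rw [← hβ, ← hcm, bind_pure_comp]
    show _ :: List.map _ (List.map _ c) = _
    rw [List.map_map]
    rfl
  set D : ℝ := (((b :: t).sum : ℕ) : ℝ) - (((lhat K θ m c).sum : ℕ) : ℝ) with hD
  have hDle : D ≤ b / K + q * (θ * b) := by
    rw [hD, hl, List.sum_cons, List.sum_cons, Nat.cast_add, Nat.cast_add]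
    linarith
  have hS : (b : ℝ) ≤ (((b :: t).sum : ℕ) : ℝ) := by
    rw [List.sum_cons, Nat.cast_add]
    have : (0 : ℝ) ≤ ((t.sum : ℕ) : ℝ) := Nat.cast_nonneg _
    linarith
  have hq0 : (0 : ℝ) ≤ q := Nat.cast_nonneg _
  refine ⟨m, c, ?_, ?_, ?_, ?_, ?_, ?_⟩
  · have h1 : (m : ℝ) ≤ Km := by
      have h2 : (K : ℝ) * Real.log b ≤ K * Real.log M :=
        mul_le_mul_of_nonneg_left (Real.log_le_log hb0 hbM') hK0.le
      linarith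
    exact_mod_cast h1
  · rw [hc, List.length_map, ht]
  · intro i hi
    rw [hc, List.mem_map] at hi
    obtain ⟨j, hj, rfl⟩ := hi
    have hjb : (j : ℝ) ≤ b := by exact_mod_cast hbt j hj
    have h1 : (⌊(j : ℝ) / (θ * β)⌋₊ : ℝ) ≤ (j : ℝ) / (θ * β) := Nat.floor_le (by positivity)
    have h2 : (j : ℝ) / (θ * β) ≤ 2 / θ := by
      rw [div_le_div_iff₀ hθβ hθ]
      have h3 : (b : ℝ) ≤ 2 * β := by
        have h4 : (b : ℝ) / K ≤ b / 8 := div_le_div_of_nonneg_left hb0.le (by norm_num) hK8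
        linarith
      nlinarith
    have h5 : (⌊(j : ℝ) / (θ * β)⌋₊ : ℝ) ≤ B := by linarith
    exact_mod_cast h5
  · rw [hl]
    refine List.Forall₂.cons (Nat.ceil_le.2 hβb) ?_
    rw [List.forall₂_map_left_iff, List.forall₂_same]
    intro x _
    exact hf1 x
  · have h1 : (b : ℝ) / K ≤ b / 8 := div_le_div_of_nonneg_left hb0.le (by norm_num) hK8
    have h2 : (q : ℝ) * (θ * b) ≤ b / 8 := by
      have h3 : θ * (8 * (q : ℝ)) ≤ 1 := by nlinarith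
      have h4 := mul_le_mul_of_nonneg_right h3 hb0.le
      nlinarith
    linarith
  · have h1 : 100 * Real.log M * ((b : ℝ) / K) ≤ ((d : ℝ) - 1) * b := by
      have h2 := mul_le_mul_of_nonneg_right hKM (div_nonneg hb0.le hK0.le : (0 : ℝ) ≤ b / K)
      calc 100 * Real.log M * ((b : ℝ) / K) ≤ K * ((d : ℝ) - 1) * (b / K) := h2
        _ = ((d : ℝ) - 1) * b := by field_simp
    have h3 : 100 * (q : ℝ) * θ * Real.log M ≤ (d : ℝ) - 1 := by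
      have h4 : 0 ≤ θ * Real.log M := mul_nonneg hθ.le hlogM
      nlinarith
    have h5 := mul_le_mul_of_nonneg_right h3 hb0.le
    have hd1 : (0 : ℝ) ≤ (d : ℝ) - 1 := by
      have : (2 : ℝ) ≤ d := by exact_mod_cast hd
      linarith
    have h6 : 50 * D * Real.log M ≤ 50 * (b / K + q * (θ * b)) * Real.log M :=
      mul_le_mul_of_nonneg_right (by linarith) hlogM
    have h7 : ((d : ℝ) - 1) * b ≤ ((d : ℝ) - 1) * (((b :: t).sum : ℕ) : ℝ) :=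
      mul_le_mul_of_nonneg_left hS hd1
    nlinarith

end HSP
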