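import Pool.Agent.HSP.A2
import Pool.Agent.HSP.B1
import Pool.Agent.HSP.B2

set_option autoImplicit false

open scoped Nat

namespace HSP

/-- [HSP-B3a] PROOF. (compare `facts` in A9) With `M = ⌊C0 log n⌋₊`: `d log n - 1 ≤ log Π ≤ s log M` (`log_desc_ge`, `log_prod_le`), so `s ≥ d log n/(2 log (C0 log n))`, and `log (d-1)! ≤ d log d ≤ d log (C0 log log n)`;
`200 (d log (C0 log log n) + 1) ≤ d log n/(2 log (C0 log n))` for large `n`. -/
theorem factsB (C0 : ℝ) (hC0 : 1 ≤ C0) : ∃ N0 : ℕ, ∀ (n d : ℕ) (l : List ℕ), N0 ≤ n → Sol n d l →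
    (d : ℝ) ≤ C0 * Real.log (Real.log n) → ((l.sum : ℕ) : ℝ) ≤ C0 * Real.log n →
    2 * d ^ 2 ≤ n ∧ 200 * (Real.log ((d - 1)! : ℝ) + 1) ≤ ((l.sum : ℕ) : ℝ) := by
  have hlC : 0 ≤ Real.log C0 := Real.log_nonneg hC0
  obtain ⟨A, hA⟩ : ∃ A : ℝ, A = 200 * (C0 ^ 2 + 1) * (1 + Real.log C0) := ⟨_, rfl⟩
  have hA0 : 0 < A := by rw [hA]; positivity
  have hev := (Real.isLittleO_pow_log_id_atTop (n := 3)).bound (inv_pos.2 hA0)
  rw [Filter.eventually_atTop] at hev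
  obtain ⟨L0, hL0⟩ := hev
  refine ⟨⌈Real.exp (max L0 (Real.exp 1))⌉₊, ?_⟩
  intro n d l hn hs hd hsum
  obtain ⟨L, hL⟩ : ∃ L : ℝ, L = Real.log n := ⟨_, rfl⟩
  have hnL : Real.exp (max L0 (Real.exp 1)) ≤ n := (Nat.le_ceil _).trans (by exact_mod_cast hn)
  have hLm : max L0 (Real.exp 1) ≤ L := by
    rw [hL, Real.le_log_iff_exp_le (lt_of_lt_of_le (Real.exp_pos _) hnL)]
    exact hnL
  have hLe : Real.exp 1 ≤ L := (le_max_right _ _).trans hLm
  have hL2 : 2 ≤ L := by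
    have := Real.add_one_le_exp (1 : ℝ)
    linarith
  obtain ⟨v, hv⟩ : ∃ v : ℝ, v = Real.log L := ⟨_, rfl⟩
  have hv1 : 1 ≤ v := by
    rw [hv, Real.le_log_iff_exp_le (by linarith)]
    exact hLe
  have hkey : A * v ^ 3 ≤ L := by
    have h1 := hL0 L ((le_max_left _ _).trans hLm)
    rw [Real.norm_eq_abs, Real.norm_eq_abs, ← hv, abs_of_nonneg (by positivity), id_eq,
      abs_of_nonneg (by linarith), inv_mul_eq_div, le_div_iff₀ hA0] at h1
    linarith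
  rw [← hL, ← hv] at hd
  rw [← hL] at hsum
  have hd2 := hs.two_le
  have hdR : (2 : ℝ) ≤ d := by exact_mod_cast hd2
  have hdsq : (d : ℝ) ^ 2 ≤ C0 ^ 2 * v ^ 2 := by
    rw [← mul_pow]
    exact pow_le_pow_left₀ (by positivity) hd 2
  have hv2 : 1 ≤ v ^ 2 := one_le_pow₀ hv1
  have hv23 : v ^ 2 ≤ v ^ 3 := pow_le_pow_right₀ hv1 (by norm_num)
  have hC2 : 0 ≤ C0 ^ 2 := sq_nonneg _
  have hbig : 200 * (C0 ^ 2 + 1) * v ^ 2 ≤ A * v ^ 3 := by
    have a1 : 200 * (C0 ^ 2 + 1) ≤ A := by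
      rw [hA]
      have : 0 ≤ 200 * (C0 ^ 2 + 1) * Real.log C0 := by positivity
      linarith
    calc 200 * (C0 ^ 2 + 1) * v ^ 2 ≤ A * v ^ 2 := mul_le_mul_of_nonneg_right a1 (by positivity)
      _ ≤ A * v ^ 3 := mul_le_mul_of_nonneg_left hv23 hA0.le
  have hn0 : (0 : ℝ) < n := lt_of_lt_of_le (Real.exp_pos _) hnL
  have hLn : L ≤ n := by
    rw [hL]
    have := Real.log_le_sub_one_of_pos hn0
    linarith
  have h2d : 2 * d ^ 2 ≤ n := by
    have : (2 : ℝ) * (d : ℝ) ^ 2 ≤ n := by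
      have a1 : C0 ^ 2 * v ^ 2 ≤ (C0 ^ 2 + 1) * v ^ 2 := by
        apply mul_le_mul_of_nonneg_right _ (by positivity)
        linarith
      have a2 : 0 ≤ (C0 ^ 2 + 1) * v ^ 2 := by positivity
      linarith
    exact_mod_cast this
  refine ⟨h2d, ?_⟩
  have hdesc := log_desc_ge hs.lt h2d
  rw [← hL, hs.eq] at hdesc
  have hM : ∀ b ∈ l, b ≤ ⌊C0 * L⌋₊ := by
    intro b hb
    apply Nat.le_floor
    have : (b : ℝ) ≤ ((l.sum : ℕ) : ℝ) := by exact_mod_cast List.single_le_sum (by simp) b hb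
    linarith
  have hprod := log_prod_le l ⌊C0 * L⌋₊ hM hs.mem
  have hCL : 1 ≤ C0 * L := by nlinarith
  have hMpos : (0 : ℝ) < (⌊C0 * L⌋₊ : ℝ) := by
    have : 1 ≤ ⌊C0 * L⌋₊ := Nat.le_floor (by simpa using hCL)
    exact_mod_cast this
  have hlogM : Real.log (⌊C0 * L⌋₊ : ℝ) ≤ (1 + Real.log C0) * v := by
    have a1 : Real.log (⌊C0 * L⌋₊ : ℝ) ≤ Real.log (C0 * L) :=
      Real.log_le_log hMpos (Nat.floor_le (by linarith))
    rw [Real.log_mul (by linarith) (by linarith), ← hv] at a1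
    have a2 : Real.log C0 * 1 ≤ Real.log C0 * v := mul_le_mul_of_nonneg_left hv1 hlC
    linarith
  have hs0 : (0 : ℝ) ≤ ((l.sum : ℕ) : ℝ) := Nat.cast_nonneg _
  have hLs : L ≤ ((l.sum : ℕ) : ℝ) * ((1 + Real.log C0) * v) := by
    have a1 := mul_le_mul_of_nonneg_left hlogM hs0
    have a2 : 2 * L ≤ d * L := mul_le_mul_of_nonneg_right hdR (by linarith)
    linarith
  have hmain : 200 * (C0 ^ 2 + 1) * v ^ 2 ≤ ((l.sum : ℕ) : ℝ) := by
    have hpos : 0 < (1 + Real.log C0) * v := by positivity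
    have a1 : 200 * (C0 ^ 2 + 1) * v ^ 2 * ((1 + Real.log C0) * v) ≤
        ((l.sum : ℕ) : ℝ) * ((1 + Real.log C0) * v) := by
      have e : 200 * (C0 ^ 2 + 1) * v ^ 2 * ((1 + Real.log C0) * v) = A * v ^ 3 := by rw [hA]; ring
      rw [e]
      linarith
    exact le_of_mul_le_mul_right a1 hpos
  have hfact : Real.log ((d - 1)! : ℝ) ≤ (d : ℝ) ^ 2 := by
    have hd1 : 1 ≤ d - 1 := by omega
    have a1 : ((d - 1)! : ℝ) ≤ ((d - 1 : ℕ) : ℝ) ^ (d - 1) := by exact_mod_cast Nat.factorial_le_pow (d - 1)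
    have a0 : (0 : ℝ) < ((d - 1)! : ℝ) := by exact_mod_cast Nat.factorial_pos _
    have a2 := Real.log_le_log a0 a1
    rw [Real.log_pow] at a2
    have b1 : (1 : ℝ) ≤ ((d - 1 : ℕ) : ℝ) := by exact_mod_cast hd1
    have b2 : ((d - 1 : ℕ) : ℝ) ≤ d := by exact_mod_cast Nat.sub_le d 1
    have b3 : Real.log ((d - 1 : ℕ) : ℝ) ≤ d := by
      have := Real.log_le_sub_one_of_pos (show (0 : ℝ) < ((d - 1 : ℕ) : ℝ) by linarith)
      linarith
    have b4 : 0 ≤ Real.log ((d - 1 : ℕ) : ℝ) := Real.log_nonneg b1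
    calc Real.log ((d - 1)! : ℝ) ≤ ((d - 1 : ℕ) : ℝ) * Real.log ((d - 1 : ℕ) : ℝ) := a2
      _ ≤ d * d := mul_le_mul b2 b3 b4 (by linarith)
      _ = (d : ℝ) ^ 2 := by ring
  have hfin : 200 * ((d : ℝ) ^ 2 + 1) ≤ 200 * (C0 ^ 2 + 1) * v ^ 2 := by
    have e : 200 * (C0 ^ 2 + 1) * v ^ 2 = 200 * (C0 ^ 2 * v ^ 2) + 200 * v ^ 2 := by ring
    rw [e]
    linarith
  linarith

/-- the `n` with a solution with `n - a₁ = d` and `q + 2` factorials -/
def TB (C0 : ℝ) (N x d q : ℕ) : Set ℕ := {n | N ≤ n ∧ n ≤ x ∧ (d : ℝ) ≤ C0 * Real.log (Real.log n) ∧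
  ∃ (b : ℕ) (t : List ℕ), t.length = q ∧ (∀ c ∈ t, c ≤ b) ∧ Sol n d (b :: t) ∧
    (((b :: t).sum : ℕ) : ℝ) ≤ C0 * Real.log n}

/-- the lists of length `q` with entries at most `B` -/
theorem b3_lists (q B : ℕ) (c : List ℕ) (h1 : c.length = q) (h2 : ∀ i ∈ c, i ≤ B) :
    c ∈ Finset.univ.image (fun v : Fin q → Fin (B + 1) => List.ofFn (fun i => (v i : ℕ))) := by
  subst h1
  rw [Finset.mem_image]
  refine ⟨fun i => ⟨c.get i, Nat.lt_succ_of_le (h2 _ (c.get_mem i))⟩, Finset.mem_univ _, ?_⟩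
  exact List.ofFn_get c

theorem b3_card (q B : ℕ) :
    (Finset.univ.image (fun v : Fin q → Fin (B + 1) => List.ofFn (fun i => (v i : ℕ)))).card ≤ (B + 1) ^ q := by
  refine Finset.card_image_le.trans ?_
  rw [Finset.card_univ, Fintype.card_fun, Fintype.card_fin, Fintype.card_fin]

/-- [HSP-B3] the count for fixed `d` and `q`. PROOF. For `n` in the set choose `b, t`, the classes `j p` (`exists_dvd`), and `m, c` from `exists_round` (`b ≤ C0 log n ≤ M`). Code of `n`: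
`(j 2, m, c) ∈ {0..d-1} × {0..Km} × {0..B}^q` (`d (Km+1) (B+1)^q` codes). The members with the same code form a cluster: `clusterB` with `lh = lhat K θ m c`, `l n = b :: t`; `h3, h4` from `factsB`. So each fibre has at most
`max d (20 log M) ≤ R` elements (`Finset.card_le_mul_card_image`, or a pigeonhole lemma as `ncard_le_of_code` of A11, which may be copied). -/
theorem countB (C0 : ℝ) (hC0 : 1 ≤ C0) : ∃ N : ℕ, ∀ (x d q M K Km B R : ℕ) (θ : ℝ), 3 ≤ x → 2 ≤ d →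
    C0 * Real.log x ≤ M → 8 ≤ K → 100 * Real.log M ≤ K * ((d : ℝ) - 1) →
    0 < θ → θ * (8 * ((q : ℝ) + 2)) ≤ 1 → 100 * ((q : ℝ) + 2) * θ * Real.log M ≤ (d : ℝ) - 1 →
    K * Real.log M ≤ Km → 2 / θ ≤ B → d ≤ R → 20 * Real.log M ≤ R →
    (TB C0 N x d q).ncard ≤ R * (d * (Km + 1) * (B + 1) ^ q) := by
  classical
  obtain ⟨N, hN⟩ := factsB C0 hC0
  refine ⟨N, ?_⟩
  intro x d q M K Km B R θ hx hd hCM hK hKM hθ h8 hθM hKm hB hdR hMR
  have hex : ∀ n : ℕ, ∃ (b : ℕ) (t : List ℕ) (m : ℕ) (c : List ℕ) (j : ℕ → ℕ), n ∈ TB C0 N x d q →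
      (∀ a ∈ b :: t, a ≤ M) ∧ Sol n d (b :: t) ∧ m ≤ Km ∧ c.length = q ∧ (∀ i ∈ c, i ≤ B) ∧
      List.Forall₂ (· ≤ ·) (lhat K θ m c) (b :: t) ∧
      4 * ((((b :: t).sum : ℕ) : ℝ) - (((lhat K θ m c).sum : ℕ) : ℝ)) ≤ (((b :: t).sum : ℕ) : ℝ) ∧
      50 * ((((b :: t).sum : ℕ) : ℝ) - (((lhat K θ m c).sum : ℕ) : ℝ)) * Real.log M ≤
        ((d : ℝ) - 1) * (((b :: t).sum : ℕ) : ℝ) ∧
      (∀ p, p.Prime → j p < d ∧
        padicValNat p (n.descFactorial d) ≤ padicValNat p (n - j p) + padicValNat p (d - 1)!) ∧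
      2 * d ^ 2 ≤ n ∧ 200 * (Real.log ((d - 1)! : ℝ) + 1) ≤ (((b :: t).sum : ℕ) : ℝ) := by
    intro n
    by_cases hn : n ∈ TB C0 N x d q
    · obtain ⟨hNn, hnx, hdn, b, t, ht, hbt, hsol, hsum⟩ := hn
      have hlt := hsol.lt
      have hn1 : (1 : ℝ) ≤ n := by exact_mod_cast (by omega : 1 ≤ n)
      have hlog : Real.log n ≤ Real.log x :=
        Real.log_le_log (by linarith) (by exact_mod_cast hnx)
      have hle : ∀ a ∈ b :: t, a ≤ M := by
        intro a ha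
        have a1 : (a : ℝ) ≤ (((b :: t).sum : ℕ) : ℝ) := by
          exact_mod_cast List.single_le_sum (by simp) a ha
        have a2 : C0 * Real.log n ≤ C0 * Real.log x := mul_le_mul_of_nonneg_left hlog (by linarith)
        exact_mod_cast (show (a : ℝ) ≤ M by linarith)
      obtain ⟨m, c, hm, hc, hcB, hF, h4, h50⟩ := exists_round d M q K Km B θ hd hK hKM hθ h8 hθM hKm hB b t ht
        hbt (hsol.mem b (by simp)) (hle b (by simp))
      have hj : ∀ p : ℕ, ∃ j : ℕ, p.Prime → j < d ∧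
          padicValNat p (n.descFactorial d) ≤ padicValNat p (n - j) + padicValNat p (d - 1)! := by
        intro p
        by_cases hp : p.Prime
        · obtain ⟨j, hj1, hj2⟩ := exists_dvd (n := n) (t := d) hp (by omega) (by omega)
          exact ⟨j, fun _ => ⟨hj1, hj2⟩⟩
        · exact ⟨0, fun h => absurd h hp⟩
      choose j hj using hj
      obtain ⟨f1, f2⟩ := hN n d (b :: t) hNn hsol hdn hsum
      exact ⟨b, t, m, c, j, fun _ => ⟨hle, hsol, hm, hc, hcB, hF, h4, h50, hj, f1, f2⟩⟩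
    · exact ⟨0, [], 0, [], fun _ => 0, fun h => absurd h hn⟩
  choose b t m c j h using hex
  have hfin : (TB C0 N x d q).Finite := (Set.finite_Iic x).subset fun n hn => hn.2.1
  rw [Set.ncard_eq_toFinset_card _ hfin]
  obtain ⟨W, hW⟩ : ∃ W : Finset (List ℕ),
      W = Finset.univ.image (fun v : Fin q → Fin (B + 1) => List.ofFn (fun i => (v i : ℕ))) := ⟨_, rfl⟩
  have hWc : W.card ≤ (B + 1) ^ q := by rw [hW]; exact b3_card q B
  have hmaps : ∀ n ∈ hfin.toFinset, (fun n => (j n 2, m n, c n)) n ∈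
      (Finset.range d) ×ˢ ((Finset.range (Km + 1)) ×ˢ W) := by
    intro n hn
    rw [Set.Finite.mem_toFinset] at hn
    obtain ⟨_, _, hm, hc, hcB, _, _, _, hj, _, _⟩ := h n hn
    rw [Finset.mem_product, Finset.mem_product, Finset.mem_range, Finset.mem_range]
    refine ⟨(hj 2 Nat.prime_two).1, Nat.lt_succ_of_le hm, ?_⟩
    rw [hW]
    exact b3_lists q B (c n) hc hcB
  refine (Finset.card_le_mul_card_image_of_maps_to hmaps R ?_).trans ?_
  · rintro ⟨j0, m0, c0⟩ _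
    obtain ⟨T, hT⟩ : ∃ T : Finset ℕ, T = {a ∈ hfin.toFinset | (j a 2, m a, c a) = (j0, m0, c0)} := ⟨_, rfl⟩
    have hmem : ∀ n ∈ T, n ∈ TB C0 N x d q ∧ j n 2 = j0 ∧ m n = m0 ∧ c n = c0 := by
      intro n hn
      rw [hT, Finset.mem_filter, Set.Finite.mem_toFinset] at hn
      obtain ⟨h1, h2⟩ := hn
      rw [Prod.mk.injEq, Prod.mk.injEq] at h2
      exact ⟨h1, h2⟩
    have key := clusterB T d M (fun n => b n :: t n) (lhat K θ m0 c0)
      (fun n hn => (h n (hmem n hn).1).2.1)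
      (fun n hn => (h n (hmem n hn).1).1)
      (by
        intro n hn
        obtain ⟨h1, _, h3, h4⟩ := hmem n hn
        have := (h n h1).2.2.2.2.2.1
        rw [h3, h4] at this
        exact this)
      (by
        intro n hn
        obtain ⟨h1, _, h3, h4⟩ := hmem n hn
        have := (h n h1).2.2.2.2.2.2.1
        rw [h3, h4] at this
        exact this)
      (by
        intro n hn
        obtain ⟨h1, _, h3, h4⟩ := hmem n hn
        have := (h n h1).2.2.2.2.2.2.2.1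
        rw [h3, h4] at this
        exact this)
      (fun p n => j n p)
      (fun p hp n hn => (h n (hmem n hn).1).2.2.2.2.2.2.2.2.1 p hp)
      (fun n hn n' hn' => (hmem n hn).2.1.trans (hmem n' hn').2.1.symm)
      (fun n hn => (h n (hmem n hn).1).2.2.2.2.2.2.2.2.2.1)
      (fun n hn => (h n (hmem n hn).1).2.2.2.2.2.2.2.2.2.2)
    have key2 : (T.card : ℝ) ≤ R := key.trans (max_le (by exact_mod_cast hdR) hMR)
    have key3 : T.card ≤ R := by exact_mod_cast key2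
    rw [hT] at key3
    exact key3
  · rw [Finset.card_product, Finset.card_product, Finset.card_range, Finset.card_range]
    apply Nat.mul_le_mul_left
    rw [← mul_assoc]
    exact Nat.mul_le_mul_left _ hWc

end HSP
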