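import Pool.Agent.HSP.A11
import Pool.Agent.HSP.B3

set_option autoImplicit false

open scoped Nat

namespace HSP

/-- the pairs `(n, a₁)` with `N ≤ n ≤ x` occurring in a non-trivial solution with `k` factorials on the right -/
def PB (N x k : ℕ) : Set (ℕ × ℕ) :=
  {q | N ≤ q.1 ∧ q.1 ≤ x ∧ ∃ l : List ℕ, l.length + 1 = k ∧ (q.1, q.2 :: l) ∈ N2e4138ab.S}

/-- the numbers for one `d` -/
theorem b4a_num {C0 L lm : ℝ} (hC0 : 1 ≤ C0) (hL : 1 ≤ L) (hlm0 : 0 ≤ lm) (hlm : lm ≤ 2 * L) (q d : ℕ)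
    (hd : 2 ≤ d) (hdD : (d : ℝ) ≤ C0 * L) :
    ∃ (K Km B : ℕ) (θ : ℝ), 8 ≤ K ∧ 100 * lm ≤ K * ((d : ℝ) - 1) ∧ 0 < θ ∧
      θ * (8 * ((q : ℝ) + 2)) ≤ 1 ∧ 100 * ((q : ℝ) + 2) * θ * lm ≤ (d : ℝ) - 1 ∧
      K * lm ≤ Km ∧ 2 / θ ≤ B ∧
      (d : ℝ) * ((Km : ℝ) + 1) * ((B : ℝ) + 1) ^ q ≤
        2 * (400 + 20 * C0) * L ^ 2 * (418 * ((q : ℝ) + 2) * L) ^ q := by
  have hd2 : (2 : ℝ) ≤ d := by exact_mod_cast hd
  obtain ⟨x, hx⟩ : ∃ x : ℝ, x = (d : ℝ) - 1 := ⟨_, rfl⟩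
  have hx1 : 1 ≤ x := by
    rw [hx]
    linarith
  have hx0 : 0 < x := by linarith
  have hxC : x ≤ C0 * L := by
    rw [hx]
    linarith
  have hL0 : 0 < L := by linarith
  have hq0 : (0 : ℝ) ≤ q := Nat.cast_nonneg q
  obtain ⟨Q, hQ⟩ : ∃ Q : ℝ, Q = (q : ℝ) + 2 := ⟨_, rfl⟩
  have hQ2 : 2 ≤ Q := by
    rw [hQ]
    linarith
  rw [← hx, ← hQ]
  -- K
  have hK1 : 200 * L / x ≤ (⌈200 * L / x⌉₊ : ℝ) := Nat.le_ceil _
  have hK2 : (⌈200 * L / x⌉₊ : ℝ) < 200 * L / x + 1 := Nat.ceil_lt_add_one (by positivity)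
  obtain ⟨K, hK⟩ : ∃ K : ℕ, K = ⌈200 * L / x⌉₊ + 8 := ⟨_, rfl⟩
  have hKr : (K : ℝ) = (⌈200 * L / x⌉₊ : ℝ) + 8 := by
    rw [hK]
    push_cast
    ring
  have hKx : (K : ℝ) * x ≤ (200 + 9 * C0) * L := by
    have h1 : (K : ℝ) ≤ 200 * L / x + 9 := by linarith
    have h2 : (200 * L / x + 9) * x = 200 * L + 9 * x := by field_simp
    have h3 := mul_le_mul_of_nonneg_right h1 hx0.le
    rw [h2] at h3
    nlinarith
  -- θ
  obtain ⟨θ, hθ⟩ : ∃ θ : ℝ, θ = min (1 / (8 * Q)) (x / (200 * Q * L)) := ⟨_, rfl⟩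
  have hQ0 : 0 < Q := by linarith
  have hθ0 : 0 < θ := by
    rw [hθ]
    exact lt_min (by positivity) (by positivity)
  have hθ1 : θ ≤ 1 / (8 * Q) := by
    rw [hθ]
    exact min_le_left _ _
  have hθ2 : θ ≤ x / (200 * Q * L) := by
    rw [hθ]
    exact min_le_right _ _
  rw [le_div_iff₀ (by positivity)] at hθ1 hθ2
  have hθinv : 1 / θ ≤ 208 * Q * L := by
    rw [div_le_iff₀ hθ0, hθ]
    rcases min_choice (1 / (8 * Q)) (x / (200 * Q * L)) with h | h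
    · rw [h]
      have h1 : 208 * Q * L * (1 / (8 * Q)) = 26 * L := by
        field_simp
        norm_num
      rw [h1]
      linarith
    · rw [h]
      have h1 : 208 * Q * L * (x / (200 * Q * L)) = 208 / 200 * x := by field_simp
      rw [h1]
      linarith
  -- Km
  have hKm1 : 2 * L * K ≤ (⌈2 * L * K⌉₊ : ℝ) := Nat.le_ceil _
  have hKm2 : (⌈2 * L * K⌉₊ : ℝ) < 2 * L * K + 1 := Nat.ceil_lt_add_one (by positivity)
  have hKmx : ((⌈2 * L * K⌉₊ : ℝ) + 1) * x ≤ (400 + 20 * C0) * L ^ 2 := by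
    have h1 : ((⌈2 * L * K⌉₊ : ℝ) + 1) * x ≤ (2 * L * K + 2) * x :=
      mul_le_mul_of_nonneg_right (by linarith) hx0.le
    have h2 : (2 * L * K + 2) * x = 2 * L * (K * x) + 2 * x := by ring
    have h3 : 2 * L * (K * x) ≤ 2 * L * ((200 + 9 * C0) * L) :=
      mul_le_mul_of_nonneg_left hKx (by positivity)
    have h4 : C0 * L ≤ C0 * L ^ 2 := by
      have h5 : L ≤ L ^ 2 := by nlinarith
      exact mul_le_mul_of_nonneg_left h5 (by linarith)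
    rw [h2] at h1
    nlinarith
  -- B
  have hB1 : 2 / θ ≤ (⌈2 / θ⌉₊ : ℝ) := Nat.le_ceil _
  have hB2 : (⌈2 / θ⌉₊ : ℝ) < 2 / θ + 1 := Nat.ceil_lt_add_one (by positivity)
  have hBx : (⌈2 / θ⌉₊ : ℝ) + 1 ≤ 418 * Q * L := by
    have h1 : 2 / θ = 2 * (1 / θ) := by ring
    have h2 : 1 ≤ Q * L := by nlinarith
    have h3 : 2 / θ ≤ 2 * (208 * Q * L) := by
      rw [h1]
      linarith
    nlinarith
  refine ⟨K, ⌈2 * L * K⌉₊, ⌈2 / θ⌉₊, θ, by omega, ?_, hθ0, ?_, ?_, ?_, hB1, ?_⟩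
  · have h1 : 200 * L ≤ K * x := by
      have h2 : 200 * L / x * x = 200 * L := by field_simp
      have h3 : 200 * L / x ≤ K := by linarith
      have h4 := mul_le_mul_of_nonneg_right h3 hx0.le
      rwa [h2] at h4
    linarith
  · linarith
  · have h1 : 100 * Q * θ * lm ≤ 100 * Q * θ * (2 * L) := mul_le_mul_of_nonneg_left hlm (by positivity)
    linarith
  · have h1 : (K : ℝ) * lm ≤ K * (2 * L) := mul_le_mul_of_nonneg_left hlm (Nat.cast_nonneg K)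
    linarith
  · have h1 : (d : ℝ) ≤ 2 * x := by
      rw [hx]
      linarith
    have h2 : (d : ℝ) * ((⌈2 * L * K⌉₊ : ℝ) + 1) ≤ 2 * (400 + 20 * C0) * L ^ 2 := by
      have h3 : (d : ℝ) * ((⌈2 * L * K⌉₊ : ℝ) + 1) ≤ 2 * x * ((⌈2 * L * K⌉₊ : ℝ) + 1) :=
        mul_le_mul_of_nonneg_right h1 (by positivity)
      linarith
    exact mul_le_mul h2 (pow_le_pow_left₀ (by positivity) hBx q) (by positivity) (by positivity)

/-- [HSP-B4a] the numbers. `L = log log x`. PROOF. For large `L` (in terms of `C0`): `M = ⌈C0 exp L⌉₊`, `log M ≤ 2 L`; `D = ⌊C0 L⌋₊`, `R = ⌈(C0 + 40) L⌉₊`; for `2 ≤ d ≤ D`: `K d = ⌈200 L/(d-1)⌉₊ + 8`,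
`θ d = min (1/(8 (q+2))) ((d-1)/(200 (q+2) L))`, `Km d = ⌈2 L K d⌉₊`, `B d = ⌈2/θ d⌉₊`. As `d - 1 ≤ C0 L`: `K d ≤ (200 + 9 C0) L/(d-1)`, `Km d + 1 ≤ c L²/(d-1)`, `B d + 1 ≤ c (q+2) L/(d-1) ≤ c (q+2) L`,
`d/(d-1) ≤ 2`; every summand is `≤ c L * 2 c L² * (c (q+2) L)^q`, there are at most `C0 L` of them; total `≤ (C (q+2) L)^(q+4)`. -/
theorem growthB (C0 : ℝ) (hC0 : 1 ≤ C0) : ∃ C L0 : ℝ, 1 ≤ C ∧ 1 ≤ L0 ∧ ∀ L : ℝ, L0 ≤ L → ∀ q : ℕ,
    ∃ (M D R : ℕ) (K Km B : ℕ → ℕ) (θ : ℕ → ℝ), C0 * Real.exp L ≤ M ∧ C0 * L < D + 1 ∧ 20 * Real.log M ≤ R ∧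
      (∀ d, 2 ≤ d → d ≤ D → 8 ≤ K d ∧ 100 * Real.log M ≤ K d * ((d : ℝ) - 1) ∧ 0 < θ d ∧
        θ d * (8 * ((q : ℝ) + 2)) ≤ 1 ∧ 100 * ((q : ℝ) + 2) * θ d * Real.log M ≤ (d : ℝ) - 1 ∧
        K d * Real.log M ≤ Km d ∧ 2 / θ d ≤ B d ∧ d ≤ R) ∧
      ((∑ d ∈ Finset.Icc 2 D, R * (d * (Km d + 1) * (B d + 1) ^ q) : ℕ) : ℝ) ≤ (C * ((q : ℝ) + 2) * L) ^ (q + 4) := by
  obtain ⟨c, hc⟩ : ∃ c : ℝ, c = C0 * (C0 + 41) * (2 * (400 + 20 * C0)) := ⟨_, rfl⟩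
  have hc0 : 0 < c := by
    rw [hc]
    positivity
  refine ⟨c + 418, 1 + Real.log (C0 + 1), by linarith, ?_, fun L hL q => ?_⟩
  · have := Real.log_nonneg (by linarith : 1 ≤ C0 + 1)
    linarith
  have hlog := Real.log_nonneg (by linarith : 1 ≤ C0 + 1)
  have hL1 : 1 ≤ L := by linarith
  have hL0 : 0 < L := by linarith
  have hexp : C0 + 1 ≤ Real.exp L := by
    rw [← Real.log_le_iff_le_exp (by linarith)]
    linarith
  have hexp1 : 1 ≤ Real.exp L := by linarith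
  obtain ⟨M, hM⟩ : ∃ M : ℕ, M = ⌈C0 * Real.exp L⌉₊ := ⟨_, rfl⟩
  have hM1 : C0 * Real.exp L ≤ M := by
    rw [hM]
    exact Nat.le_ceil _
  have hM2 : (M : ℝ) ≤ Real.exp (2 * L) := by
    have h1 : (M : ℝ) < C0 * Real.exp L + 1 := by
      rw [hM]
      exact Nat.ceil_lt_add_one (by positivity)
    have h2 : Real.exp (2 * L) = Real.exp L * Real.exp L := by
      rw [← Real.exp_add]
      ring_nf
    rw [h2]
    nlinarith
  have hM0 : (1 : ℝ) ≤ M := by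
    have h1 : 1 ≤ C0 * Real.exp L := by nlinarith
    linarith
  have hlm0 : 0 ≤ Real.log M := Real.log_nonneg hM0
  have hlm : Real.log M ≤ 2 * L := by
    rw [Real.log_le_iff_le_exp (by linarith)]
    exact hM2
  obtain ⟨D, hD⟩ : ∃ D : ℕ, D = ⌊C0 * L⌋₊ := ⟨_, rfl⟩
  have hD1 : C0 * L < D + 1 := by
    rw [hD]
    exact Nat.lt_floor_add_one _
  have hD2 : (D : ℝ) ≤ C0 * L := by
    rw [hD]
    exact Nat.floor_le (by positivity)
  obtain ⟨R, hR⟩ : ∃ R : ℕ, R = ⌈(C0 + 40) * L⌉₊ := ⟨_, rfl⟩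
  have hR1 : (C0 + 40) * L ≤ R := by
    rw [hR]
    exact Nat.le_ceil _
  have hR2 : (R : ℝ) ≤ (C0 + 41) * L := by
    have h1 : (R : ℝ) < (C0 + 40) * L + 1 := by
      rw [hR]
      exact Nat.ceil_lt_add_one (by positivity)
    nlinarith
  have hnum : ∀ d : ℕ, ∃ (K Km B : ℕ) (θ : ℝ), 2 ≤ d → d ≤ D →
      8 ≤ K ∧ 100 * Real.log M ≤ K * ((d : ℝ) - 1) ∧ 0 < θ ∧
      θ * (8 * ((q : ℝ) + 2)) ≤ 1 ∧ 100 * ((q : ℝ) + 2) * θ * Real.log M ≤ (d : ℝ) - 1 ∧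
      K * Real.log M ≤ Km ∧ 2 / θ ≤ B ∧
      (d : ℝ) * ((Km : ℝ) + 1) * ((B : ℝ) + 1) ^ q ≤
        2 * (400 + 20 * C0) * L ^ 2 * (418 * ((q : ℝ) + 2) * L) ^ q := by
    intro d
    by_cases h : 2 ≤ d ∧ d ≤ D
    · have hdD : (d : ℝ) ≤ C0 * L := by
        have h1 : (d : ℝ) ≤ D := by exact_mod_cast h.2
        linarith
      obtain ⟨K, Km, B, θ, h1⟩ := b4a_num hC0 hL1 hlm0 hlm q d h.1 hdD
      exact ⟨K, Km, B, θ, fun _ _ => h1⟩
    · exact ⟨0, 0, 0, 0, fun h1 h2 => absurd ⟨h1, h2⟩ h⟩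
  choose K Km B θ hN using hnum
  refine ⟨M, D, R, K, Km, B, θ, hM1, hD1, by nlinarith, ?_, ?_⟩
  · intro d h1 h2
    obtain ⟨a1, a2, a3, a4, a5, a6, a7, -⟩ := hN d h1 h2
    refine ⟨a1, a2, a3, a4, a5, a6, a7, ?_⟩
    have h3 : (d : ℝ) ≤ D := by exact_mod_cast h2
    have h4 : (d : ℝ) ≤ R := by nlinarith
    exact_mod_cast h4
  · obtain ⟨P, hP⟩ : ∃ P : ℝ, P = (418 * ((q : ℝ) + 2) * L) ^ q := ⟨_, rfl⟩
    have hP0 : 0 ≤ P := by
      rw [hP]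
      positivity
    have h1 : ((∑ d ∈ Finset.Icc 2 D, R * (d * (Km d + 1) * (B d + 1) ^ q) : ℕ) : ℝ) ≤
        ∑ d ∈ Finset.Icc 2 D, (C0 + 41) * L * (2 * (400 + 20 * C0) * L ^ 2 * P) := by
      push_cast
      refine Finset.sum_le_sum fun d hd => ?_
      rw [Finset.mem_Icc] at hd
      obtain ⟨-, -, -, -, -, -, -, a8⟩ := hN d hd.1 hd.2
      rw [← hP] at a8
      exact mul_le_mul hR2 a8 (by positivity) (by positivity)
    have h2 : ∑ d ∈ Finset.Icc 2 D, (C0 + 41) * L * (2 * (400 + 20 * C0) * L ^ 2 * P) ≤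
        c * L ^ 4 * P := by
      rw [Finset.sum_const, nsmul_eq_mul]
      have h3 : ((Finset.Icc 2 D).card : ℝ) ≤ C0 * L := by
        have h4 : (Finset.Icc 2 D).card ≤ D := by
          rw [Nat.card_Icc]
          omega
        have h5 : ((Finset.Icc 2 D).card : ℝ) ≤ D := by exact_mod_cast h4
        linarith
      refine (mul_le_mul_of_nonneg_right h3 (by positivity)).trans (le_of_eq ?_)
      rw [hc]
      ring
    have hq0 : (0 : ℝ) ≤ q := Nat.cast_nonneg q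
    have h3 : P ≤ ((c + 418) * ((q : ℝ) + 2) * L) ^ q := by
      rw [hP]
      refine pow_le_pow_left₀ (by positivity) ?_ q
      have h4 : 0 ≤ c * ((q : ℝ) + 2) * L := by positivity
      nlinarith
    have h4 : c * L ^ 4 ≤ ((c + 418) * ((q : ℝ) + 2) * L) ^ 4 := by
      have h5 : ((c + 418) * ((q : ℝ) + 2) * L) ^ 4 = ((c + 418) * ((q : ℝ) + 2)) ^ 4 * L ^ 4 := by ring
      rw [h5]
      refine mul_le_mul_of_nonneg_right ?_ (by positivity)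
      have h6 : c ≤ (c + 418) * ((q : ℝ) + 2) := by nlinarith
      have h7 : 1 ≤ (c + 418) * ((q : ℝ) + 2) := by nlinarith
      exact h6.trans (le_self_pow₀ h7 (by norm_num))
    refine (h1.trans h2).trans ?_
    rw [pow_add, mul_comm (_ ^ q)]
    exact mul_le_mul h4 h3 hP0 (by positivity)

/-- [HSP-B4b] PROOF. A pair `(n, a)` of `PB N x (q+2)` has a tail `l = b :: t` with `t.length = q`, `b` maximal (`N2e4138ab.S`: `Pairwise (· ≥ ·)`), `Sol n (n-a) l` (`sol_of_S`); `hS` gives the bounds. So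
`(n, a) ↦ (n - a, n)` maps `PB N x (q+2)` injectively into `⋃_{2 ≤ d ≤ D} {d} × TB C0 N x d q` (`d ≤ C0 log log n ≤ C0 log log x < D + 1`). -/
theorem ncard_PB_le (C0 : ℝ) (N1 N x D q : ℕ) (hN : N1 ≤ N) (h3 : 3 ≤ N) (hC0 : 1 ≤ C0) (hD : C0 * Real.log (Real.log x) < D + 1)
    (hS : ∀ s ∈ N2e4138ab.S, N1 ≤ s.1 → ∀ a l, s.2 = a :: l →
      ((s.1 : ℝ) - a) ≤ C0 * Real.log (Real.log s.1) ∧ ((l.sum : ℕ) : ℝ) ≤ C0 * Real.log s.1) :
    (PB N x (q + 2)).ncard ≤ ∑ d ∈ Finset.Icc 2 D, (TB C0 N x d q).ncard := by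
  classical
  have hfin : ∀ d, (TB C0 N x d q).Finite := fun d => (Set.finite_Iic x).subset (fun n hn => hn.2.1)
  have hsub : PB N x (q + 2) ⊆ (((Finset.Icc 2 D).biUnion (fun d => (hfin d).toFinset.image (fun n => (n, n - d))) :
      Finset (ℕ × ℕ)) : Set (ℕ × ℕ)) := by
    rintro ⟨n, a⟩ ⟨h1, h2, l, hl, hmem⟩
    simp only at h1 h2 hmem
    cases l with
    | nil => simp at hl
    | cons b t =>
      have ht : t.length = q := by
        rw [List.length_cons] at hl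
        omega
      obtain ⟨hsol, ha⟩ := sol_of_S hmem
      obtain ⟨g1, g2⟩ := hS (n, a :: b :: t) hmem (hN.trans h1) a (b :: t) rfl
      simp only at g1 g2
      have hpw := hmem.2.1
      have hbt : ∀ c ∈ t, c ≤ b := by
        intro c hc
        have h4 := (List.pairwise_cons.1 hpw).2
        exact (List.pairwise_cons.1 h4).1 c hc
      obtain ⟨d, hd⟩ : ∃ d : ℕ, d = n - a := ⟨_, rfl⟩
      have hdc : (d : ℝ) = (n : ℝ) - a := by
        rw [hd, Nat.cast_sub (by omega)]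
      rw [← hdc] at g1
      rw [← hd] at hsol
      have hn3 : (3 : ℝ) ≤ n := by exact_mod_cast h3.trans h1
      have hlogn : 1 < Real.log n := by
        rw [Real.lt_log_iff_exp_lt (by linarith)]
        have := Real.exp_one_lt_d9
        linarith
      have hlx : Real.log n ≤ Real.log x := Real.log_le_log (by linarith) (by exact_mod_cast h2)
      have hllx : Real.log (Real.log n) ≤ Real.log (Real.log x) := Real.log_le_log (by linarith) hlx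
      have hdD : d < D + 1 := by
        have h5 : (d : ℝ) < ((D + 1 : ℕ) : ℝ) := by
          push_cast
          refine lt_of_le_of_lt (g1.trans ?_) hD
          exact mul_le_mul_of_nonneg_left hllx (by linarith)
        exact_mod_cast h5
      rw [Finset.coe_biUnion, Set.mem_iUnion₂]
      refine ⟨d, ?_, ?_⟩
      · rw [Finset.mem_coe, Finset.mem_Icc]
        omega
      · rw [Finset.mem_coe, Finset.mem_image]
        refine ⟨n, ?_, ?_⟩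
        · rw [Set.Finite.mem_toFinset]
          exact ⟨h1, h2, g1, b, t, ht, hbt, hsol, g2⟩
        · rw [Prod.mk.injEq]
          exact ⟨rfl, by omega⟩
  refine (Set.ncard_le_ncard hsub (Finset.finite_toSet _)).trans ?_
  rw [Set.ncard_coe_finset]
  refine Finset.card_biUnion_le.trans (Finset.sum_le_sum fun d _ => ?_)
  rw [Set.ncard_eq_toFinset_card _ (hfin d)]
  exact Finset.card_image_le

/-- [HSP-B4] PROOF. `k ≤ 1`: no solutions (`HK.S_basic`: the tail is non-empty), `ncard = 0`. `k = q + 2`: `HK.erdos_bounds` with `C0 = max C 1`, `countB`, `growthB` with `L = log log x`, `ncard_PB_le`, and `PB 0 x k ⊆ PA 0 N ∪ PB N x k`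
with `c = (PA 0 N).ncard` constant (`PA_finite`): `c + (C k L)^(k+2) ≤ ((c + C) k L)^(k+2)`. -/
theorem finalB : ∃ (C : ℝ) (X₀ : ℕ), 0 < C ∧ ∀ x : ℕ, X₀ ≤ x → ∀ k : ℕ,
    ((PB 0 x k).ncard : ℝ) ≤ (C * k * Real.log (Real.log x)) ^ (k + 2) := by
  obtain ⟨C1, N1, hC1, hE⟩ := HK.erdos_bounds
  obtain ⟨C0, hC0d⟩ : ∃ C0 : ℝ, C0 = max C1 1 := ⟨_, rfl⟩
  have hC0 : 1 ≤ C0 := by
    rw [hC0d]
    exact le_max_right _ _
  have hC1C0 : C1 ≤ C0 := by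
    rw [hC0d]
    exact le_max_left _ _
  obtain ⟨N2, hN2⟩ := countB C0 hC0
  obtain ⟨C, L0, hC, hL0, hG⟩ := growthB C0 hC0
  obtain ⟨N, hNd⟩ : ∃ N : ℕ, N = max (max N1 N2) 3 := ⟨_, rfl⟩
  have hNN1 : N1 ≤ N := by omega
  have hNN2 : N2 ≤ N := by omega
  have hN3 : 3 ≤ N := by omega
  obtain ⟨c, hc⟩ : ∃ c : ℝ, c = ((PA 0 N).ncard : ℝ) := ⟨_, rfl⟩
  have hc0 : 0 ≤ c := by
    rw [hc]
    exact Nat.cast_nonneg _
  obtain ⟨X₀, hX₀⟩ := exists_nat_ge (Real.exp (Real.exp L0))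
  refine ⟨c + C, max X₀ 3, by linarith, ?_⟩
  intro x hx k
  have hxX : X₀ ≤ x := (le_max_left _ _).trans hx
  have hx3 : 3 ≤ x := (le_max_right _ _).trans hx
  have hxR : Real.exp (Real.exp L0) ≤ x := hX₀.trans (by exact_mod_cast hxX)
  have hlx : Real.exp L0 ≤ Real.log x := by
    rw [← Real.log_exp (Real.exp L0)]
    exact Real.log_le_log (Real.exp_pos _) hxR
  have hlx0 : 0 < Real.log x := (Real.exp_pos _).trans_le hlx
  have hL : L0 ≤ Real.log (Real.log x) := by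
    rw [← Real.log_exp L0]
    exact Real.log_le_log (Real.exp_pos _) hlx
  obtain ⟨L, hLd⟩ : ∃ L : ℝ, L = Real.log (Real.log x) := ⟨_, rfl⟩
  rw [← hLd] at hL ⊢
  have hL1 : 1 ≤ L := hL0.trans hL
  have hexpL : Real.exp L = Real.log x := by
    rw [hLd, Real.exp_log hlx0]
  have hPB : ∀ j, j ≤ 1 → (PB 0 x j).ncard = 0 := by
    intro j hj
    have : PB 0 x j = ∅ := by
      rw [Set.eq_empty_iff_forall_notMem]
      rintro ⟨n, a⟩ ⟨_, _, l, h4, h5⟩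
      have hl0 : l = [] := by
        rw [← List.length_eq_zero_iff]
        omega
      exact (sol_of_S (show (n, a :: l) ∈ N2e4138ab.S from h5)).1.ne hl0
    rw [this, Set.ncard_empty]
  by_cases hk : k ≤ 1
  · rw [hPB k hk, Nat.cast_zero]
    have : (0 : ℝ) ≤ (c + C) * k * L := by positivity
    positivity
  obtain ⟨q, rfl⟩ : ∃ q, k = q + 2 := ⟨k - 2, by omega⟩
  obtain ⟨M, D, R, K, Km, B, θ, hM, hD, hR, hpar, hsum⟩ := hG L hL q
  have hcount : (PB N x (q + 2)).ncard ≤ ∑ d ∈ Finset.Icc 2 D, R * (d * (Km d + 1) * (B d + 1) ^ q) := by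
    refine (ncard_PB_le C0 N1 N x D q hNN1 hN3 hC0 (by rw [← hLd]; exact hD) ?_).trans ?_
    · intro s hs hsN a l hal
      obtain ⟨h1, h2⟩ := hE s hs hsN a l hal
      obtain ⟨a', l', h3, h4, h5, h6, h7, h8⟩ := HK.S_basic hs
      rw [hal] at h3
      injection h3 with h9 h10
      subst h9
      subst h10
      have hs3 : (2 : ℝ) < s.1 := by exact_mod_cast (by omega : 2 < s.1)
      have hl0 : 0 ≤ Real.log s.1 := Real.log_nonneg (by linarith)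
      refine ⟨?_, h2.trans (mul_le_mul_of_nonneg_right hC1C0 hl0)⟩
      have hpos : 0 < (s.1 : ℝ) - a := by
        have : (a : ℝ) + 2 ≤ s.1 := by exact_mod_cast h4
        linarith
      have hll : 0 ≤ Real.log (Real.log s.1) := by
        by_contra hneg
        push Not at hneg
        nlinarith
      exact h1.trans (mul_le_mul_of_nonneg_right hC1C0 hll)
    · refine Finset.sum_le_sum fun d hd => ?_
      rw [Finset.mem_Icc] at hd
      obtain ⟨p1, p2, p3, p4, p5, p6, p7, p8⟩ := hpar d hd.1 hd.2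
      have h1 := hN2 x d q M (K d) (Km d) (B d) R (θ d) hx3 hd.1 (by rw [← hexpL]; exact hM) p1 p2 p3 p4 p5 p6 p7 p8 hR
      refine le_trans (Set.ncard_le_ncard ?_ ((Set.finite_Iic x).subset fun n hn => hn.2.1)) h1
      rintro n ⟨g1, g2, g3, g4⟩
      exact ⟨hNN2.trans g1, g2, g3, g4⟩
  have hsub : PB 0 x (q + 2) ⊆ PA 0 N ∪ PB N x (q + 2) := by
    rintro ⟨n, a⟩ ⟨_, h2, l, h4, h5⟩
    by_cases hn : n ≤ N
    · exact Or.inl ⟨Nat.zero_le _, hn, l, h5⟩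
    · exact Or.inr ⟨le_of_not_ge hn, h2, l, h4, h5⟩
  have hfinPB : (PB N x (q + 2)).Finite := by
    refine (PA_finite 0 x).subset ?_
    rintro ⟨n, a⟩ ⟨_, h2, l, _, h5⟩
    exact ⟨Nat.zero_le _, h2, l, h5⟩
  have htot : ((PB 0 x (q + 2)).ncard : ℝ) ≤ c + (C * ((q : ℝ) + 2) * L) ^ (q + 4) := by
    have h1 : (PB 0 x (q + 2)).ncard ≤ (PA 0 N).ncard + (PB N x (q + 2)).ncard :=
      (Set.ncard_le_ncard hsub ((PA_finite 0 N).union hfinPB)).trans (Set.ncard_union_le _ _)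
    have h2 : ((PB 0 x (q + 2)).ncard : ℝ) ≤ ((PA 0 N).ncard : ℝ) + ((PB N x (q + 2)).ncard : ℝ) := by
      exact_mod_cast h1
    have h3 : ((PB N x (q + 2)).ncard : ℝ) ≤
        ((∑ d ∈ Finset.Icc 2 D, R * (d * (Km d + 1) * (B d + 1) ^ q) : ℕ) : ℝ) := by
      exact_mod_cast hcount
    rw [hc]
    linarith
  refine htot.trans ?_
  push_cast
  obtain ⟨u, hu⟩ : ∃ u : ℝ, u = C * ((q : ℝ) + 2) * L := ⟨_, rfl⟩
  have hkL : 1 ≤ ((q : ℝ) + 2) * L := by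
    have : (0 : ℝ) ≤ q := Nat.cast_nonneg q
    nlinarith
  have hu1 : 1 ≤ u := by
    rw [hu]
    nlinarith
  have hcu : c + u ≤ (c + C) * ((q : ℝ) + 2) * L := by
    rw [hu]
    nlinarith
  rw [← hu]
  have h5 : c + u ^ (q + 4) ≤ (c + u) ^ (q + 4) := by
    have h6 : u ^ (q + 3) ≤ (c + u) ^ (q + 3) := pow_le_pow_left₀ (by linarith) (by linarith) _
    have h7 : (1 : ℝ) ≤ (c + u) ^ (q + 3) := one_le_pow₀ (by linarith)
    rw [pow_succ u (q + 3), pow_succ (c + u) (q + 3)]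
    nlinarith
  exact h5.trans (pow_le_pow_left₀ (by linarith) hcu _)

end HSP
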