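import Mathlib

set_option autoImplicit false

open scoped Nat

/-!
# HSP: counting the solutions of `n! = a₁! a₂! ⋯ a_k!` (MP_c1d5d4_nt) by p-adic repulsion: common definitions
-/

namespace HSP

/-- a product of `d ≥ 2` consecutive integers `n (n-1) ... (n-d+1)` which is a product of factorials (`d = n - a₁`, `l = [a₂, ..., a_k]`) -/
structure Sol (n d : ℕ) (l : List ℕ) : Prop where
  two_le : 2 ≤ d
  lt : 2 * d < n
  mem : ∀ b ∈ l, 2 ≤ b
  ne : l ≠ []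
  eq : n.descFactorial d = (l.map Nat.factorial).prod

/-- the primes up to `y` -/
def pr (y : ℕ) : Finset ℕ := (Finset.range (y + 1)).filter Nat.Prime

theorem mem_pr {y p : ℕ} : p ∈ pr y ↔ p ≤ y ∧ p.Prime := by
  simp [pr, Nat.lt_succ_iff]

theorem pr_mono {y z : ℕ} (h : y ≤ z) : pr y ⊆ pr z := by
  intro p hp
  rw [mem_pr] at hp ⊢
  exact ⟨hp.1.trans h, hp.2⟩

/-- the exponent of `p` in `∏ b!`, `b ∈ l` -/
def vl (p : ℕ) (l : List ℕ) : ℕ := (l.map fun b => padicValNat p b !).sum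

/-- `∑ (b - z)⁺`, `b ∈ l` (natural subtraction) -/
def G (z : ℕ) (l : List ℕ) : ℕ := (l.map fun b => b - z).sum

/-- the part of `log ∏ b!` at the primes up to `y` -/
noncomputable def En (y : ℕ) (l : List ℕ) : ℝ := ∑ p ∈ pr y, (vl p l : ℝ) * Real.log p

/-- the least `t` with `p ≤ y 2^(κ t)` (for `y ≥ 1`, `κ ≥ 1`) -/
noncomputable def gi (y κ p : ℕ) : ℕ := sInf {t | p ≤ y * 2 ^ (κ * t)}

theorem gi_le {y κ p t : ℕ} (h : p ≤ y * 2 ^ (κ * t)) : gi y κ p ≤ t := Nat.sInf_le h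

theorem gi_nonempty {y κ p : ℕ} (hy : 1 ≤ y) (hκ : 1 ≤ κ) : {t | p ≤ y * 2 ^ (κ * t)}.Nonempty := by
  refine ⟨p, ?_⟩
  have h1 : p < 2 ^ p := Nat.lt_two_pow_self
  have h2 : 2 ^ p ≤ 2 ^ (κ * p) := Nat.pow_le_pow_right (by norm_num) (Nat.le_mul_of_pos_left p hκ)
  show p ≤ y * 2 ^ (κ * p)
  nlinarith

theorem le_gi {y κ p : ℕ} (hy : 1 ≤ y) (hκ : 1 ≤ κ) : p ≤ y * 2 ^ (κ * gi y κ p) :=
  Nat.sInf_mem (gi_nonempty hy hκ)

theorem lt_of_lt_gi {y κ p t : ℕ} (h : t < gi y κ p) : y * 2 ^ (κ * t) < p := by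
  by_contra h'
  exact absurd (gi_le (not_lt.1 h')) (not_le.2 h)

theorem one_le_gi {y κ p : ℕ} (hy : 1 ≤ y) (hκ : 1 ≤ κ) (h : y < p) : 1 ≤ gi y κ p := by
  by_contra h'
  have h0 : gi y κ p = 0 := by omega
  have := le_gi (p := p) hy hκ
  rw [h0] at this
  simp at this
  omega

theorem vl_cons (p b : ℕ) (l : List ℕ) : vl p (b :: l) = padicValNat p b ! + vl p l := rfl

theorem vl_nil (p : ℕ) : vl p [] = 0 := rfl

theorem G_cons (z b : ℕ) (l : List ℕ) : G z (b :: l) = (b - z) + G z l := rfl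

theorem G_nil (z : ℕ) : G z [] = 0 := rfl

theorem G_anti {z z' : ℕ} (h : z ≤ z') (l : List ℕ) : G z' l ≤ G z l := by
  induction l with
  | nil => simp [G_nil]
  | cons b l ih => rw [G_cons, G_cons]; omega

end HSP
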